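import Pool.Agent.V7H89.GP.WeylC

/-!
The bound for the exponential sums of a polynomial γ n^k + α_{k-1} n^{k-1} + ... + α_1 n over all
intervals, outside of a neighbourhood of 0, when α_{k-1}/γ is not too close to rational numbers.
-/

namespace Pool.Agent.V7H89.GP

open Finset

/-- the polynomial γ n^(d+2) + sum over j of α_j n^(j+1) -/
noncomputable def pf (d : ℕ) (γ : ℝ) (α : Fin (d + 1) → ℝ) (n : ℕ) : ℝ :=
  γ * (n : ℝ) ^ (d + 2) + ∑ j : Fin (d + 1), α j * (n : ℝ) ^ ((j : ℕ) + 1)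

/-- the real number ρ is not too close to rational numbers -/
def Dio (ρ : ℝ) : Prop := ∃ c0 : ℝ, 0 < c0 ∧ ∀ A : ℕ, 1 ≤ A → ∀ B : ℤ, c0 / (A : ℝ) ^ 3 ≤ |A * ρ - B|

theorem PL_low (d : ℕ) (β : ℝ) (α : Fin (d + 1) → ℝ) :
    PL d (β * α (Fin.last d)) (fun n => β * ∑ j : Fin (d + 1), α j * (n : ℝ) ^ ((j : ℕ) + 1)) := by
  set a : ℕ → ℝ := fun i => if h : 1 ≤ i ∧ i - 1 < d + 1 then β * α ⟨i - 1, h.2⟩ else 0 with ha
  have h1 := PL_poly d a
  have e1 : a (d + 1) = β * α (Fin.last d) := by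
    rw [ha]
    simp only
    rw [dif_pos ⟨by omega, by omega⟩]
    rfl
  have e2 : (fun n : ℕ => ∑ i ∈ range (d + 2), a i * (n : ℝ) ^ i)
      = (fun n : ℕ => β * ∑ j : Fin (d + 1), α j * (n : ℝ) ^ ((j : ℕ) + 1)) := by
    funext n
    rw [sum_range_succ']
    have h0 : a 0 = 0 := by
      rw [ha]
      simp
    rw [h0, zero_mul, add_zero, mul_sum]
    rw [← Fin.sum_univ_eq_sum_range (fun i => a (i + 1) * (n : ℝ) ^ (i + 1)) (d + 1)]
    refine sum_congr rfl fun j _ => ?_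
    have h2 : a ((j : ℕ) + 1) = β * α j := by
      rw [ha]
      simp only
      rw [dif_pos ⟨by omega, by simpa using j.2⟩]
      rfl
    rw [h2]
    ring
  rw [e1, e2] at h1
  exact h1

theorem PL_add (d : ℕ) : ∀ (γ γ' : ℝ) (g g' : ℕ → ℝ), PL d γ g → PL d γ' g' →
    PL d (γ + γ') (fun n => g n + g' n) := by
  induction d with
  | zero =>
    intro γ γ' g g' ⟨b, hb⟩ ⟨b', hb'⟩
    refine ⟨b + b', fun n => ?_⟩
    simp only
    rw [hb, hb']
    ring
  | succ d ih =>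
    intro γ γ' g g' hg hg' h
    have h1 := ih _ _ _ _ (hg h) (hg' h)
    have e1 : (d + 2 : ℝ) * (γ + γ') * h = (d + 2) * γ * h + (d + 2) * γ' * h := by ring
    have e2 : (fun n => (fun n => g n + g' n) (n + h) - (fun n => g n + g' n) n)
        = fun n => (g (n + h) - g n) + (g' (n + h) - g' n) := by
      funext n
      simp only
      ring
    rw [e1, e2]
    exact h1

theorem PL_up (d : ℕ) : ∀ (γ : ℝ) (g : ℕ → ℝ), PL d γ g → PL (d + 1) 0 g := by
  induction d with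
  | zero =>
    intro γ g ⟨b, hb⟩ h
    refine ⟨γ * h, fun n => ?_⟩
    simp only
    rw [hb, hb]
    push_cast
    ring
  | succ d ih =>
    intro γ g hg h
    have h1 := ih _ _ (hg h)
    have e1 : ((d + 1 : ℕ) + 2 : ℝ) * 0 * h = 0 := by ring
    rw [e1]
    exact h1

theorem PL_top (d : ℕ) (β : ℝ) (l : ℕ → ℝ) (lam : ℝ) (hl : PL d lam l) :
    PL (d + 1) β (fun n => β * (n : ℝ) ^ (d + 2) + l n) := by
  have h1 := PL_poly (d + 1) (fun i => if i = d + 2 then β else 0)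
  have e2 : (fun n : ℕ => ∑ i ∈ range (d + 1 + 2), (fun i => if i = d + 2 then β else 0) i * (n : ℝ) ^ i)
      = (fun n : ℕ => β * (n : ℝ) ^ (d + 2)) := by
    funext n
    rw [sum_eq_single (d + 2)]
    · simp
    · intro j _ hne
      simp [hne]
    · intro hn
      exact absurd (mem_range.mpr (by omega)) hn
  rw [e2] at h1
  have h2 := PL_add (d + 1) _ _ _ _ h1 (PL_up d lam l hl)
  simpa using h2

theorem sup1 (d : ℕ) : ∃ C : ℕ, 1 ≤ C ∧ ∀ (γ : ℝ) (α : Fin (d + 1) → ℝ), 0 < γ →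
    Dio (α (Fin.last d) / γ) → ∃ Ca : ℝ, 1 ≤ Ca ∧ ∀ X K β : ℝ, 1 ≤ X → 1 ≤ K → |β| ≤ K →
      ∀ a n : ℕ, ((a + n : ℕ) : ℝ) ≤ X → X / K ≤ ‖∑ i ∈ range n, ee (β * pf d γ α (a + i))‖ →
        |β| ≤ Ca * K ^ C / X ^ (d + 2) ∨ X ≤ Ca * K ^ C := by
  obtain ⟨C0, hC01, hC0⟩ := two_coeff d
  refine ⟨4 * C0 + 3, by omega, ?_⟩
  intro γ α hγ hDio
  obtain ⟨c0, hc0, hdio⟩ := hDio
  set ρ : ℝ := α (Fin.last d) / γ with hρ
  have hC0R : (1 : ℝ) ≤ C0 := by exact_mod_cast hC01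
  set T1 : ℝ := C0 / γ with hT1
  set T2 : ℝ := (1 + |ρ|) * (γ + 1) ^ 3 * (C0 : ℝ) ^ 4 / c0 with hT2
  have hT1p : 0 ≤ T1 := by positivity
  have hT2p : 0 ≤ T2 := by positivity
  refine ⟨1 + T1 + T2, by linarith, ?_⟩
  intro X K β hX hK hβ a n hn hS
  have hX0 : 0 < X := by linarith
  have hK0 : 0 < K := by linarith
  have hsum : ∑ i ∈ range n, ee (β * pf d γ α (a + i))
      = ∑ i ∈ range n, ee (β * γ * ((a + i : ℕ) : ℝ) ^ (d + 2)
        + (fun n : ℕ => β * ∑ j : Fin (d + 1), α j * (n : ℝ) ^ ((j : ℕ) + 1)) (a + i)) := by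
    refine sum_congr rfl fun i _ => ?_
    congr 1
    unfold pf
    simp only
    ring
  rw [hsum] at hS
  obtain ⟨Q, hQ1, hQ2, hQ3, hQ4⟩ := hC0 (β * γ) (β * α (Fin.last d)) _ (PL_low d β α)
    (PL_top d (β * γ) _ _ (PL_low d β α)) X K hX hK a n hn hS
  have hQ0 : (1 : ℝ) ≤ Q := by exact_mod_cast hQ1
  set E : ℝ := C0 * K ^ C0 with hE
  have hKC : 1 ≤ K ^ C0 := one_le_pow₀ hK
  have hE1 : 1 ≤ E := by rw [hE]; nlinarith
  have hXp : 0 < X ^ (d + 2) := by positivity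
  set c : ℤ := round ((Q : ℝ) * (β * γ)) with hc
  set c' : ℤ := round ((Q : ℝ) * (β * α (Fin.last d))) with hc'
  have h3 : |Q * (β * γ) - c| ≤ E / X ^ (d + 2) := hQ3
  have h4 : |Q * (β * α (Fin.last d)) - c'| ≤ E / X := hQ4
  have hKpow : K ^ C0 ≤ K ^ (4 * C0 + 3) := pow_le_pow_right₀ hK (by omega)
  by_cases hcz : c = 0
  · left
    rw [hcz, Int.cast_zero, sub_zero, abs_mul, abs_mul, Nat.abs_cast, abs_of_pos hγ] at h3
    have h5 : |β| * γ ≤ E / X ^ (d + 2) := by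
      refine le_trans ?_ h3
      have : 0 ≤ |β| * γ := by positivity
      nlinarith
    have h6 : |β| ≤ T1 * K ^ C0 / X ^ (d + 2) := by
      rw [hT1]
      rw [le_div_iff₀ hXp] at h5 ⊢
      rw [div_mul_eq_mul_div, le_div_iff₀ hγ]
      linarith
    refine h6.trans (div_le_div_of_nonneg_right ?_ hXp.le)
    calc T1 * K ^ C0 ≤ T1 * K ^ (4 * C0 + 3) := mul_le_mul_of_nonneg_left hKpow hT1p
      _ ≤ (1 + T1 + T2) * K ^ (4 * C0 + 3) :=
        mul_le_mul_of_nonneg_right (by linarith) (by positivity)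
  · right
    set A : ℕ := c.natAbs with hA
    have hA1 : 1 ≤ A := by
      have := Int.natAbs_pos.mpr hcz
      omega
    have hAc : (A : ℝ) = |(c : ℝ)| := by
      rw [hA, Nat.cast_natAbs, Int.cast_abs]
    have hA0 : (0 : ℝ) < A := by exact_mod_cast hA1
    -- the size of c
    have hcs : (A : ℝ) ≤ (γ + 1) * (E * K) := by
      rw [hAc]
      have h5 : |(c : ℝ)| ≤ |Q * (β * γ)| + |Q * (β * γ) - c| := by
        have := abs_sub (Q * (β * γ)) (Q * (β * γ) - c)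
        have e : Q * (β * γ) - (Q * (β * γ) - c) = (c : ℝ) := by ring
        rw [e] at this
        exact this
      have h6 : |Q * (β * γ)| ≤ E * (K * γ) := by
        rw [abs_mul, abs_mul, Nat.abs_cast, abs_of_pos hγ]
        refine mul_le_mul hQ2 ?_ (by positivity) (by linarith)
        exact mul_le_mul_of_nonneg_right hβ hγ.le
      have h7 : |Q * (β * γ) - c| ≤ 1 / 2 := abs_sub_round _
      have h8 : 1 ≤ E * K := by nlinarith
      nlinarith
    -- the distance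
    have hdist : c0 / (A : ℝ) ^ 3 ≤ (1 + |ρ|) * E / X := by
      have h5 : |(c : ℝ) * ρ - c'| ≤ (1 + |ρ|) * E / X := by
        have e1 : (c : ℝ) * ρ - c' = (Q * (β * α (Fin.last d)) - c')
            - (Q * (β * γ) - c) * ρ := by
          rw [hρ]
          field_simp
          ring
        rw [e1]
        refine (abs_sub _ _).trans ?_
        rw [abs_mul]
        have h6 : E / X ^ (d + 2) ≤ E / X :=
          div_le_div_of_nonneg_left (by linarith) hX0 (le_self_pow₀ hX (by omega))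
        have h7 : |Q * (β * γ) - c| * |ρ| ≤ E / X * |ρ| :=
          mul_le_mul_of_nonneg_right (h3.trans h6) (abs_nonneg _)
        have e2 : (1 + |ρ|) * E / X = E / X + E / X * |ρ| := by ring
        rw [e2]
        linarith
      rcases lt_or_gt_of_ne hcz with hneg | hpos
      · have h6 := hdio A hA1 (-c')
        have e3 : (A : ℝ) * ρ - ((-c' : ℤ) : ℝ) = -((c : ℝ) * ρ - c') := by
          have : (A : ℝ) = -(c : ℝ) := by
            rw [hAc, abs_of_neg (by exact_mod_cast hneg)]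
          rw [this]
          push_cast
          ring
        rw [e3, abs_neg] at h6
        exact h6.trans h5
      · have h6 := hdio A hA1 c'
        have e3 : (A : ℝ) = (c : ℝ) := by
          rw [hAc, abs_of_pos (by exact_mod_cast hpos)]
        rw [e3] at h6
        rw [e3]
        exact h6.trans h5
    have h5 : X ≤ (1 + |ρ|) * E * (A : ℝ) ^ 3 / c0 := by
      rw [le_div_iff₀ hc0]
      rw [div_le_div_iff₀ (by positivity) hX0] at hdist
      linarith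
    refine h5.trans ?_
    have h6 : (A : ℝ) ^ 3 ≤ ((γ + 1) * (E * K)) ^ 3 := pow_le_pow_left₀ hA0.le hcs 3
    have h7 : (1 + |ρ|) * E * (A : ℝ) ^ 3 / c0 ≤ (1 + |ρ|) * E * ((γ + 1) * (E * K)) ^ 3 / c0 := by
      refine div_le_div_of_nonneg_right ?_ hc0.le
      exact mul_le_mul_of_nonneg_left h6 (by positivity)
    refine h7.trans ?_
    have h8 : (1 + |ρ|) * E * ((γ + 1) * (E * K)) ^ 3 / c0 = T2 * K ^ (4 * C0 + 3) := by
      rw [hT2, hE, pow_add, pow_mul']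
      ring
    rw [h8]
    exact mul_le_mul_of_nonneg_right (by linarith) (by positivity)

theorem sup2 (d : ℕ) : ∃ C : ℕ, 1 ≤ C ∧ ∀ (γ : ℝ) (α : Fin (d + 1) → ℝ), 0 < γ →
    Dio (α (Fin.last d) / γ) → ∀ σ : ℝ, 0 < σ → σ * C < 1 → ∃ X0 : ℝ, 1 ≤ X0 ∧ ∀ X β : ℝ, X0 ≤ X →
      X ^ (C * σ - (d + 2)) ≤ |β| → |β| ≤ X ^ σ → ∀ a n : ℕ, ((a + n : ℕ) : ℝ) ≤ X →
        ‖∑ i ∈ range n, ee (β * pf d γ α (a + i))‖ ≤ X ^ (1 - σ) := by
  obtain ⟨C1, hC11, hC1⟩ := sup1 d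
  refine ⟨C1 + 1, by omega, ?_⟩
  intro γ α hγ hDio σ hσ hσC
  obtain ⟨Ca, hCa1, hCa⟩ := hC1 γ α hγ hDio
  refine ⟨(Ca + 1) ^ (1 / σ), Real.one_le_rpow (by linarith) (by positivity), ?_⟩
  intro X β hX0 hβ1 hβ2 a n hn
  have h1 : 1 ≤ (Ca + 1) ^ (1 / σ) := Real.one_le_rpow (by linarith) (by positivity)
  have hX : 1 ≤ X := h1.trans hX0
  have hXp : 0 < X := by linarith
  have hXσ : Ca < X ^ σ := by
    have h2 : ((Ca + 1) ^ (1 / σ)) ^ σ ≤ X ^ σ := Real.rpow_le_rpow (by linarith) hX0 hσ.le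
    rw [← Real.rpow_mul (by linarith), one_div_mul_cancel hσ.ne', Real.rpow_one] at h2
    linarith
  by_contra hcon
  push Not at hcon
  have hK : 1 ≤ X ^ σ := Real.one_le_rpow hX hσ.le
  have e1 : X / X ^ σ = X ^ (1 - σ) := by
    rw [Real.rpow_sub hXp, Real.rpow_one]
  have hpow : (X ^ σ) ^ C1 = X ^ (C1 * σ) := by
    rw [← Real.rpow_natCast, ← Real.rpow_mul hXp.le]
    ring_nf
  rcases hCa X (X ^ σ) β hX hK hβ2 a n hn (by rw [e1]; exact hcon.le) with h | h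
  · rw [hpow] at h
    have e2 : X ^ (((C1 + 1 : ℕ) : ℝ) * σ - (d + 2)) = X ^ σ * X ^ (C1 * σ) / X ^ (d + 2) := by
      rw [← Real.rpow_natCast X (d + 2), ← Real.rpow_add hXp, ← Real.rpow_sub hXp]
      congr 1
      push_cast
      ring
    rw [e2] at hβ1
    have h3 : X ^ σ * X ^ (C1 * σ) / X ^ (d + 2) ≤ Ca * X ^ (C1 * σ) / X ^ (d + 2) := hβ1.trans h
    have hp : 0 < X ^ (d + 2) := by positivity
    rw [div_le_div_iff_of_pos_right hp] at h3
    have h4 : 0 < X ^ ((C1 : ℝ) * σ) := Real.rpow_pos_of_pos hXp _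
    have := le_of_mul_le_mul_right h3 h4
    linarith
  · rw [hpow] at h
    have h2 : X ^ σ * X ^ (C1 * σ) ≤ X := by
      rw [← Real.rpow_add hXp]
      calc X ^ (σ + C1 * σ) ≤ X ^ (1 : ℝ) := by
            apply Real.rpow_le_rpow_of_exponent_le hX
            push_cast at hσC
            linarith
        _ = X := Real.rpow_one X
    have h4 : 0 < X ^ ((C1 : ℝ) * σ) := Real.rpow_pos_of_pos hXp _
    have h5 := le_of_mul_le_mul_right (h2.trans h) h4
    linarith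

end Pool.Agent.V7H89.GP
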