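import Pool.Agent.V7H89.GP.MvC

/-!
The mean value for almost all coefficients: the average and the almost sure bound.
-/

namespace Pool.Agent.V7H89.GP

open Finset MeasureTheory
open scoped ENNReal

/-- Lebesgue measure on a box -/
noncomputable def muA (d : ℕ) (A : ℝ) : Measure (Fin (d + 1) → ℝ) :=
  Measure.pi (fun _ : Fin (d + 1) => (volume : Measure ℝ).restrict (Set.Icc (-A) A))

theorem muA_eq (d : ℕ) (A : ℝ) : muA d A = (volume : Measure (Fin (d + 1) → ℝ)).restrict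
    (Set.pi Set.univ (fun _ : Fin (d + 1) => Set.Icc (-A) A)) := by
  rw [muA, volume_pi, Measure.restrict_pi_pi]

theorem vv_le (k m P : ℕ) (hP : 1 ≤ P) (hm : m ≤ k) (p : (Fin k → ℕ) × (Fin k → ℕ))
    (hp : p ∈ (SS k P) ×ˢ (SS k P)) : |vv k m p| ≤ k * (P : ℝ) ^ k := by
  have hP1 : (1 : ℝ) ≤ P := by exact_mod_cast hP
  rw [mem_product] at hp
  unfold vv
  calc |∑ a : Fin k, ((p.1 a : ℝ) ^ m - (p.2 a : ℝ) ^ m)|
      ≤ ∑ a : Fin k, |(p.1 a : ℝ) ^ m - (p.2 a : ℝ) ^ m| := abs_sum_le_sum_abs _ _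
    _ ≤ ∑ a : Fin k, (P : ℝ) ^ k := by
        refine sum_le_sum fun a _ => ?_
        have h1 : ∀ x ∈ SS k P, 0 ≤ (x a : ℝ) ^ m ∧ (x a : ℝ) ^ m ≤ (P : ℝ) ^ k := by
          intro x hx
          have h2 := (mem_II.mp (mem_SS.mp hx a)).1.2
          refine ⟨by positivity, ?_⟩
          calc (x a : ℝ) ^ m ≤ (P : ℝ) ^ m :=
                pow_le_pow_left₀ (Nat.cast_nonneg _) (by exact_mod_cast h2) _
            _ ≤ (P : ℝ) ^ k := pow_le_pow_right₀ hP1 hm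
        have h2 := h1 p.1 hp.1
        have h3 := h1 p.2 hp.2
        rw [abs_le]
        constructor <;> linarith [h2.1, h2.2, h3.1, h3.2]
    _ = k * (P : ℝ) ^ k := by
        rw [sum_const, card_univ, Fintype.card_fin, nsmul_eq_mul]

theorem TT_meas (d : ℕ) (γ : ℝ) (p : (Fin (d + 2) → ℕ) × (Fin (d + 2) → ℕ)) :
    MeasurableSet {α : Fin (d + 1) → ℝ | |Fd d γ α p.1 - Fd d γ α p.2| ≤ d + 2} := by
  have : {α : Fin (d + 1) → ℝ | |Fd d γ α p.1 - Fd d γ α p.2| ≤ d + 2}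
      = {α | |γ * vv (d + 2) (d + 2) p + ∑ j : Fin (d + 1), α j * vv (d + 2) ((j : ℕ) + 1) p|
        ≤ d + 2} := by
    ext α
    simp only [Set.mem_ofPred_eq]
    rw [Fd_sub]
  rw [this]
  refine measurableSet_le ?_ measurable_const
  refine (Measurable.const_add ?_ _).abs
  exact Finset.measurable_fun_sum _ fun j _ => (measurable_pi_apply j).mul_const _

open scoped Classical in
theorem TT_eq (d : ℕ) (γ : ℝ) (P : ℕ) (α : Fin (d + 1) → ℝ) : (TT d γ P α : ℝ≥0∞)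
    = ∑ p ∈ (SS (d + 2) P) ×ˢ (SS (d + 2) P),
      ({α : Fin (d + 1) → ℝ | |Fd d γ α p.1 - Fd d γ α p.2| ≤ d + 2}).indicator 1 α := by
  unfold TT
  rw [card_filter]
  push_cast
  refine sum_congr rfl fun p _ => ?_
  by_cases h : |Fd d γ α p.1 - Fd d γ α p.2| ≤ d + 2
  · rw [if_pos h, Set.indicator_of_mem]
    · rfl
    · exact h
  · rw [if_neg h, Set.indicator_of_notMem]
    exact h

theorem TT_measurable (d : ℕ) (γ : ℝ) (P : ℕ) :
    Measurable (fun α : Fin (d + 1) → ℝ => (TT d γ P α : ℝ≥0∞)) := by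
  have : (fun α : Fin (d + 1) → ℝ => (TT d γ P α : ℝ≥0∞))
      = fun α => ∑ p ∈ (SS (d + 2) P) ×ˢ (SS (d + 2) P),
      ({α : Fin (d + 1) → ℝ | |Fd d γ α p.1 - Fd d γ α p.2| ≤ d + 2}).indicator 1 α := by
    funext α
    exact TT_eq d γ P α
  rw [this]
  exact Finset.measurable_fun_sum _ fun p _ => measurable_one.indicator (TT_meas d γ p)

/-- the average -/
theorem TT_mean (d : ℕ) (γ A : ℝ) (hγ : 0 < γ) (hA : 0 ≤ A) : ∃ C : ℝ, 0 ≤ C ∧ ∀ m : ℕ,
    ∫⁻ α, (TT d γ (2 ^ m) α : ℝ≥0∞) ∂(muA d A)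
      ≤ ENNReal.ofReal (C * (m + 1) * ((2 : ℝ) ^ m) ^ (d + 2)) := by
  classical
  obtain ⟨c, C1, hc, hC1, hsl⟩ := slab2 d γ A hγ hA
  obtain ⟨C2, hC2, hpairs⟩ := pairs (d + 2)
  refine ⟨2 * c * C2 * C1 * (2 * (d + 2) + 1), by positivity, ?_⟩
  intro m
  set P : ℕ := 2 ^ m with hP
  have hP1 : 1 ≤ P := Nat.one_le_two_pow
  set S : ℕ := (m + 2) * (d + 2) with hS
  set WW : (Fin (d + 2) → ℕ) × (Fin (d + 2) → ℕ) → ℝ :=
    fun p => 1 + ∑ j : Fin (d + 1), |vv (d + 2) ((j : ℕ) + 1) p| with hWW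
  have hWW1 : ∀ p, 1 ≤ WW p := fun p => by
    have : 0 ≤ ∑ j : Fin (d + 1), |vv (d + 2) ((j : ℕ) + 1) p| :=
      sum_nonneg fun _ _ => abs_nonneg _
    rw [hWW]
    simp only
    linarith
  have hd0 : (0 : ℝ) ≤ d := Nat.cast_nonneg d
  have hWS : ∀ p ∈ (SS (d + 2) P) ×ˢ (SS (d + 2) P), WW p ≤ 2 ^ S := by
    intro p hp
    have h1 : ∑ j : Fin (d + 1), |vv (d + 2) ((j : ℕ) + 1) p|
        ≤ (d + 1) * (((d + 2 : ℕ) : ℝ) * (P : ℝ) ^ (d + 2)) := by
      calc ∑ j : Fin (d + 1), |vv (d + 2) ((j : ℕ) + 1) p|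
          ≤ ∑ j : Fin (d + 1), (((d + 2 : ℕ) : ℝ) * (P : ℝ) ^ (d + 2)) :=
            sum_le_sum fun j _ => vv_le (d + 2) _ P hP1 (by have := j.2; omega) p hp
        _ = _ := by
            rw [sum_const, card_univ, Fintype.card_fin, nsmul_eq_mul]
            push_cast
            ring
    have h2 : (1 : ℝ) ≤ (P : ℝ) ^ (d + 2) := one_le_pow₀ (by exact_mod_cast hP1)
    have h3 : WW p ≤ ((d + 2 : ℕ) : ℝ) ^ 2 * (P : ℝ) ^ (d + 2) := by
      rw [hWW]
      simp only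
      push_cast at h1 ⊢
      nlinarith
    have h4 : ((d + 2 : ℕ) : ℝ) ≤ 2 ^ (d + 2) := by exact_mod_cast (Nat.lt_two_pow_self).le
    have h5 : ((d + 2 : ℕ) : ℝ) ^ 2 ≤ (2 ^ (d + 2)) ^ 2 :=
      pow_le_pow_left₀ (Nat.cast_nonneg _) h4 2
    refine h3.trans ?_
    have h6 : (P : ℝ) = 2 ^ m := by rw [hP]; push_cast; rfl
    calc ((d + 2 : ℕ) : ℝ) ^ 2 * (P : ℝ) ^ (d + 2) ≤ (2 ^ (d + 2)) ^ 2 * (P : ℝ) ^ (d + 2) :=
          mul_le_mul_of_nonneg_right h5 (by positivity)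
      _ = 2 ^ S := by
          rw [h6, hS, ← pow_mul, ← pow_mul, ← pow_add]
          congr 1
          ring
  have h1 : ∫⁻ α, (TT d γ P α : ℝ≥0∞) ∂(muA d A) = ∑ p ∈ (SS (d + 2) P) ×ˢ (SS (d + 2) P),
      (muA d A) {α | |Fd d γ α p.1 - Fd d γ α p.2| ≤ d + 2} := by
    simp only [TT_eq]
    rw [lintegral_finsetSum _ fun p _ => measurable_one.indicator (TT_meas d γ p)]
    exact sum_congr rfl fun p _ => lintegral_indicator_one (TT_meas d γ p)
  rw [h1]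
  have h2 : ∀ p ∈ (SS (d + 2) P) ×ˢ (SS (d + 2) P),
      (muA d A) {α | |Fd d γ α p.1 - Fd d γ α p.2| ≤ d + 2}
      ≤ ENNReal.ofReal (∑ s ∈ range (S + 1), (if Close (d + 2) (C1 * 2 ^ s) p.1 p.2
        then c * (2 * (1 / 2 : ℝ) ^ s) else 0)) := by
    intro p hp
    refine (hsl p (WW p) rfl).trans (ENNReal.ofReal_le_ofReal ?_)
    split_ifs with hcase
    · have h3 := inv_dyadic (WW p) S (hWW1 p) (hWS p hp)
      have h4 : c / WW p = c * (1 / WW p) := by ring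
      rw [h4]
      refine (mul_le_mul_of_nonneg_left h3 hc).trans ?_
      rw [mul_sum]
      refine sum_le_sum fun s _ => ?_
      by_cases hs : WW p ≤ (2 : ℝ) ^ s
      · rw [if_pos hs, if_pos]
        intro i hi
        rw [mem_Icc] at hi
        by_cases hi2 : i = d + 2
        · rw [hi2]
          refine hcase.trans ?_
          exact mul_le_mul_of_nonneg_left hs (by linarith)
        · have h5 : |vv (d + 2) i p| ≤ WW p := by
            have h6 : |vv (d + 2) i p| ≤ ∑ j : Fin (d + 1), |vv (d + 2) ((j : ℕ) + 1) p| := by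
              have h7 := single_le_sum (f := fun j : Fin (d + 1) => |vv (d + 2) ((j : ℕ) + 1) p|)
                (fun _ _ => abs_nonneg _) (mem_univ (⟨i - 1, by omega⟩ : Fin (d + 1)))
              simp only at h7
              have h8 : i - 1 + 1 = i := by omega
              rw [h8] at h7
              exact h7
            rw [hWW]
            simp only
            linarith
          have h6 : |vv (d + 2) i p| ≤ C1 * 2 ^ s := by
            have h9 : (0 : ℝ) < 2 ^ s := by positivity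
            nlinarith
          exact h6
      · rw [if_neg hs, mul_zero]
        split_ifs
        · positivity
        · exact le_refl 0
    · refine sum_nonneg fun s _ => ?_
      split_ifs
      · positivity
      · exact le_refl 0
  refine (sum_le_sum h2).trans ?_
  rw [← ENNReal.ofReal_sum_of_nonneg (fun p _ => sum_nonneg fun s _ => by
    split_ifs
    · positivity
    · exact le_refl 0)]
  refine ENNReal.ofReal_le_ofReal ?_
  rw [sum_comm]
  have h3 : ∀ s ∈ range (S + 1), ∑ p ∈ (SS (d + 2) P) ×ˢ (SS (d + 2) P),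
      (if Close (d + 2) (C1 * 2 ^ s) p.1 p.2 then c * (2 * (1 / 2 : ℝ) ^ s) else 0)
      ≤ 2 * c * C2 * C1 * (P : ℝ) ^ (d + 2) := by
    intro s _
    rw [← sum_filter, sum_const, nsmul_eq_mul]
    have h9 : (1 : ℝ) ≤ 2 ^ s := one_le_pow₀ (by norm_num)
    have h4 := hpairs P hP1 (C1 * 2 ^ s) (by nlinarith)
    have h5 : (1 / 2 : ℝ) ^ s * 2 ^ s = 1 := by
      rw [← mul_pow]
      norm_num
    have h6 : (0 : ℝ) ≤ c * (2 * (1 / 2 : ℝ) ^ s) := by positivity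
    refine (mul_le_mul_of_nonneg_right h4 h6).trans (le_of_eq ?_)
    calc C2 * (C1 * 2 ^ s) * (P : ℝ) ^ (d + 2) * (c * (2 * (1 / 2 : ℝ) ^ s))
        = 2 * c * C2 * C1 * (P : ℝ) ^ (d + 2) * ((1 / 2 : ℝ) ^ s * 2 ^ s) := by ring
      _ = 2 * c * C2 * C1 * (P : ℝ) ^ (d + 2) := by rw [h5, mul_one]
  refine (sum_le_sum h3).trans ?_
  rw [sum_const, card_range, nsmul_eq_mul]
  have h6 : (P : ℝ) = 2 ^ m := by rw [hP]; push_cast; rfl
  rw [h6]
  have h7 : ((S + 1 : ℕ) : ℝ) ≤ (2 * (d + 2) + 1) * (m + 1) := by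
    rw [hS]
    push_cast
    have : (0 : ℝ) ≤ m := Nat.cast_nonneg m
    nlinarith
  have h8 : 0 ≤ 2 * c * C2 * C1 * ((2 : ℝ) ^ m) ^ (d + 2) := by positivity
  calc ((S + 1 : ℕ) : ℝ) * (2 * c * C2 * C1 * ((2 : ℝ) ^ m) ^ (d + 2))
      ≤ ((2 * (d + 2) + 1) * (m + 1)) * (2 * c * C2 * C1 * ((2 : ℝ) ^ m) ^ (d + 2)) :=
        mul_le_mul_of_nonneg_right h7 h8
    _ = _ := by ring

/-- the almost sure bound in a box -/
theorem TT_ae_box (d : ℕ) (γ A ε : ℝ) (hγ : 0 < γ) (hA : 0 ≤ A) (hε : 0 < ε) :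
    ∀ᵐ α ∂(muA d A), ∃ C : ℝ, 0 ≤ C ∧ ∀ m : ℕ,
      (TT d γ (2 ^ m) α : ℝ) ≤ C * (((2 : ℝ) ^ m) ^ (d + 2) * (2 : ℝ) ^ (ε * m)) := by
  obtain ⟨C, hC0, hC⟩ := TT_mean d γ A hγ hA
  set g : ℕ → ℝ := fun m => 1 / (((2 : ℝ) ^ m) ^ (d + 2) * (2 : ℝ) ^ (ε * m)) with hg
  have hg0 : ∀ m, 0 < g m := fun m => by
    rw [hg]
    positivity
  set F : ℕ → (Fin (d + 1) → ℝ) → ℝ≥0∞ :=
    fun m α => ENNReal.ofReal (g m) * (TT d γ (2 ^ m) α : ℝ≥0∞) with hF
  have hFm : ∀ m, Measurable (F m) := fun m => (TT_measurable d γ (2 ^ m)).const_mul _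
  have hint : ∫⁻ α, ∑' m, F m α ∂(muA d A) ≠ ∞ := by
    rw [lintegral_tsum fun m => (hFm m).aemeasurable]
    have h1 : ∀ m, ∫⁻ α, F m α ∂(muA d A) ≤ ENNReal.ofReal (C * ((m + 1) * ((2 : ℝ) ^ (-ε)) ^ m)) := by
      intro m
      rw [hF]
      simp only
      rw [lintegral_const_mul _ (TT_measurable d γ (2 ^ m))]
      calc ENNReal.ofReal (g m) * ∫⁻ α, (TT d γ (2 ^ m) α : ℝ≥0∞) ∂(muA d A)
          ≤ ENNReal.ofReal (g m) * ENNReal.ofReal (C * (m + 1) * ((2 : ℝ) ^ m) ^ (d + 2)) :=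
            mul_le_mul_right (hC m) _
        _ = ENNReal.ofReal (g m * (C * (m + 1) * ((2 : ℝ) ^ m) ^ (d + 2))) := by
            rw [← ENNReal.ofReal_mul (hg0 m).le]
        _ = ENNReal.ofReal (C * ((m + 1) * ((2 : ℝ) ^ (-ε)) ^ m)) := by
            congr 1
            have e1 : ((2 : ℝ) ^ (-ε)) ^ m = 1 / (2 : ℝ) ^ (ε * m) := by
              rw [← Real.rpow_natCast, ← Real.rpow_mul (by norm_num), one_div,
                ← Real.rpow_neg (by norm_num)]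
              congr 1
              ring
            rw [e1, hg]
            have h2 : (0 : ℝ) < (2 : ℝ) ^ (ε * m) := by positivity
            field_simp
    have hsum : Summable (fun m : ℕ => C * (((m : ℝ) + 1) * ((2 : ℝ) ^ (-ε)) ^ m)) := by
      refine Summable.mul_left C ?_
      have hr : ‖(2 : ℝ) ^ (-ε)‖ < 1 := by
        rw [Real.norm_of_nonneg (by positivity)]
        exact Real.rpow_lt_one_of_one_lt_of_neg (by norm_num) (by linarith)
      have h2 := summable_pow_mul_geometric_of_norm_lt_one 1 hr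
      have h3 := summable_geometric_of_norm_lt_one hr
      have h4 := h2.add h3
      refine h4.congr fun m => ?_
      simp only [pow_one]
      ring
    exact ne_of_lt (lt_of_le_of_lt (ENNReal.tsum_le_tsum h1) hsum.tsum_ofReal_lt_top)
  have hmeas : Measurable (fun α => ∑' m, F m α) := Measurable.ennreal_tsum hFm
  have hae := ae_lt_top hmeas hint
  filter_upwards [hae] with α hα
  set M : ℝ≥0∞ := ∑' m, F m α with hM
  refine ⟨M.toReal, ENNReal.toReal_nonneg, ?_⟩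
  intro m
  have h1 : F m α ≤ M := ENNReal.le_tsum m
  have h2 : (F m α).toReal ≤ M.toReal := ENNReal.toReal_mono hα.ne h1
  have h3 : (F m α).toReal = g m * (TT d γ (2 ^ m) α : ℝ) := by
    rw [hF]
    simp only
    rw [ENNReal.toReal_mul, ENNReal.toReal_ofReal (hg0 m).le, ENNReal.toReal_natCast]
  rw [h3, hg] at h2
  simp only at h2
  rw [div_mul_eq_mul_div, one_mul, div_le_iff₀ (by positivity)] at h2
  exact h2

/-- the almost sure bound -/
theorem TT_ae (d : ℕ) (γ ε : ℝ) (hγ : 0 < γ) (hε : 0 < ε) :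
    ∀ᵐ α : Fin (d + 1) → ℝ, ∃ C : ℝ, 0 ≤ C ∧ ∀ m : ℕ,
      (TT d γ (2 ^ m) α : ℝ) ≤ C * (((2 : ℝ) ^ m) ^ (d + 2) * (2 : ℝ) ^ (ε * m)) := by
  have h1 : ∀ N : ℕ, ∀ᵐ α ∂((volume : Measure (Fin (d + 1) → ℝ)).restrict
      (Set.pi Set.univ (fun _ : Fin (d + 1) => Set.Icc (-(N : ℝ)) N))), ∃ C : ℝ, 0 ≤ C ∧ ∀ m : ℕ,
      (TT d γ (2 ^ m) α : ℝ) ≤ C * (((2 : ℝ) ^ m) ^ (d + 2) * (2 : ℝ) ^ (ε * m)) := by
    intro N
    rw [← muA_eq]
    exact TT_ae_box d γ N ε hγ (Nat.cast_nonneg N) hε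
  have h2 := (ae_restrict_iUnion_iff (μ := (volume : Measure (Fin (d + 1) → ℝ)))
    (fun N : ℕ => Set.pi Set.univ (fun _ : Fin (d + 1) => Set.Icc (-(N : ℝ)) N)) _).mpr h1
  have h3 : (⋃ N : ℕ, Set.pi Set.univ (fun _ : Fin (d + 1) => Set.Icc (-(N : ℝ)) N)) = Set.univ := by
    rw [Set.eq_univ_iff_forall]
    intro α
    rw [Set.mem_iUnion]
    obtain ⟨N, hN⟩ := exists_nat_ge (∑ j, |α j|)
    refine ⟨N, fun j _ => ?_⟩
    have h4 : |α j| ≤ N := (single_le_sum (f := fun j => |α j|) (fun _ _ => abs_nonneg _)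
      (mem_univ j)).trans hN
    exact abs_le.mp h4
  rw [h3, Measure.restrict_univ] at h2
  exact h2

end Pool.Agent.V7H89.GP
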