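import Pool.Agent.V7H89.GP.WeylA

/-!
Finite circle method: the number of representations compared with its average over a short interval.
-/

namespace Pool.Agent.V7H89.GP

open Finset MeasureTheory intervalIntegral

theorem ee_continuous : Continuous ee := by
  unfold ee
  fun_prop

theorem orth (m : ℤ) : ∫ θ in (-(1 / 2) : ℝ)..(1 / 2), ee (θ * m) = if m = 0 then 1 else 0 := by
  split_ifs with h
  · subst h
    simp only [Int.cast_zero, mul_zero, ee_zero]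
    rw [intervalIntegral.integral_const]
    norm_num
  · have hc : (2 * Real.pi * m * Complex.I : ℂ) ≠ 0 := by
      have h1 : (m : ℂ) ≠ 0 := by exact_mod_cast h
      have h2 : (Real.pi : ℂ) ≠ 0 := by exact_mod_cast Real.pi_ne_zero
      simp [h1, h2, Complex.I_ne_zero]
    have e1 : ∀ θ : ℝ, ee (θ * m) = Complex.exp ((2 * Real.pi * m * Complex.I : ℂ) * θ) := by
      intro θ
      unfold ee
      congr 1
      push_cast
      ring
    simp only [e1]
    rw [integral_exp_mul_complex hc]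
    have e2 : Complex.exp ((2 * Real.pi * m * Complex.I : ℂ) * ((1 / 2 : ℝ) : ℂ))
        = Complex.exp ((2 * Real.pi * m * Complex.I : ℂ) * ((-(1 / 2) : ℝ) : ℂ)) := by
      rw [← e1, ← e1]
      have : (1 / 2 : ℝ) * m = -(1 / 2) * m + (m : ℤ) := by ring
      rw [this, ee_add, ee_int, mul_one]
    rw [e2, sub_self, zero_div]

/-- coefficients of a trigonometric polynomial -/
theorem coef {τ : Type*} (T : Finset τ) (c : τ → ℝ) (z : τ → ℤ) (N : ℤ) :
    ∫ θ in (-(1 / 2) : ℝ)..(1 / 2), (∑ t ∈ T, (c t : ℂ) * ee (θ * z t)) * ee (-(θ * N))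
      = ((∑ t ∈ T, if z t = N then c t else 0 : ℝ) : ℂ) := by
  have e1 : ∀ θ : ℝ, (∑ t ∈ T, (c t : ℂ) * ee (θ * z t)) * ee (-(θ * N))
      = ∑ t ∈ T, (c t : ℂ) * ee (θ * ((z t - N : ℤ) : ℝ)) := by
    intro θ
    rw [sum_mul]
    refine sum_congr rfl fun t _ => ?_
    rw [mul_assoc, ← ee_add]
    congr 2
    push_cast
    ring
  simp only [e1]
  rw [intervalIntegral.integral_finsetSum]
  · push_cast
    refine sum_congr rfl fun t _ => ?_
    have h5 := orth (z t - N)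
    push_cast at h5
    rw [intervalIntegral.integral_const_mul, h5]
    by_cases h : z t = N
    · rw [if_pos (by omega), if_pos h, mul_one]
    · rw [if_neg (by omega), if_neg h, mul_zero]
      simp
  · intro t _
    apply Continuous.intervalIntegrable
    exact continuous_const.mul (ee_continuous.comp (continuous_id.mul continuous_const))

theorem trig_cont {τ : Type*} (T : Finset τ) (c : τ → ℝ) (z : τ → ℤ) :
    Continuous (fun θ : ℝ => ∑ t ∈ T, (c t : ℂ) * ee (θ * z t)) := by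
  refine continuous_finsetSum _ fun t _ => ?_
  exact continuous_const.mul (ee_continuous.comp (continuous_id.mul continuous_const))

open scoped Classical in
/-- the mean square -/
theorem mean_sq {τ : Type*} (T : Finset τ) (c : τ → ℝ) (z : τ → ℤ) (hc0 : ∀ t ∈ T, 0 ≤ c t)
    (hc1 : ∀ t ∈ T, c t ≤ 1) :
    ∫ θ in (-(1 / 2) : ℝ)..(1 / 2), ‖∑ t ∈ T, (c t : ℂ) * ee (θ * z t)‖ ^ 2
      ≤ (((T ×ˢ T).filter (fun p => z p.1 = z p.2)).card : ℝ) := by
  have e1 : ∀ θ : ℝ, ((‖∑ t ∈ T, (c t : ℂ) * ee (θ * z t)‖ ^ 2 : ℝ) : ℂ)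
      = ∑ p ∈ T ×ˢ T, ((c p.1 * c p.2 : ℝ) : ℂ) * ee (θ * ((z p.1 - z p.2 : ℤ) : ℝ)) := by
    intro θ
    have h1 : (((‖∑ t ∈ T, (c t : ℂ) * ee (θ * z t)‖ ^ 2 : ℝ)) : ℂ)
        = (∑ t ∈ T, (c t : ℂ) * ee (θ * z t)) * (starRingEnd ℂ) (∑ t ∈ T, (c t : ℂ) * ee (θ * z t)) := by
      rw [Complex.mul_conj, Complex.normSq_eq_norm_sq]
    rw [h1, map_sum, sum_mul_sum, sum_product]
    refine sum_congr rfl fun t _ => sum_congr rfl fun t' _ => ?_
    rw [map_mul, conj_ee, Complex.conj_ofReal]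
    have : ee (θ * ((z t - z t' : ℤ) : ℝ)) = ee (θ * z t) * ee (-(θ * z t')) := by
      rw [← ee_add]
      congr 1
      push_cast
      ring
    simp only
    rw [this]
    push_cast
    ring
  have e2 : ((∫ θ in (-(1 / 2) : ℝ)..(1 / 2), ‖∑ t ∈ T, (c t : ℂ) * ee (θ * z t)‖ ^ 2 : ℝ) : ℂ)
      = ((∑ p ∈ T ×ˢ T, if z p.1 - z p.2 = 0 then c p.1 * c p.2 else 0 : ℝ) : ℂ) := by
    rw [← intervalIntegral.integral_ofReal]
    simp only [e1]
    have := coef (T ×ˢ T) (fun p => c p.1 * c p.2) (fun p => z p.1 - z p.2) 0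
    rw [← this]
    refine intervalIntegral.integral_congr fun θ _ => ?_
    simp only [Int.cast_zero, mul_zero, neg_zero, ee_zero, mul_one]
  have e3 := Complex.ofReal_injective e2
  rw [e3, card_filter]
  push_cast
  refine sum_le_sum fun p hp => ?_
  rw [mem_product] at hp
  by_cases h : z p.1 = z p.2
  · rw [if_pos (by omega), if_pos h]
    exact mul_le_one₀ (hc1 _ hp.1) (hc0 _ hp.2) (hc1 _ hp.2)
  · rw [if_neg (by omega), if_neg h]

/-- the average kernel -/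
noncomputable def DL (L : ℕ) (θ : ℝ) : ℂ := (1 / (L : ℂ)) * ∑ l ∈ range L, ee (θ * l)

theorem DL_cont (L : ℕ) : Continuous (DL L) := by
  unfold DL
  refine continuous_const.mul (continuous_finsetSum _ fun l _ => ?_)
  exact ee_continuous.comp (continuous_id.mul continuous_const)

theorem DL_near (L : ℕ) (hL : 1 ≤ L) (θ : ℝ) : ‖1 - DL L θ‖ ≤ 8 * (L * |θ|) := by
  have hL0 : (0 : ℝ) < L := by exact_mod_cast hL
  have hLC : (L : ℂ) ≠ 0 := by exact_mod_cast hL0.ne'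
  unfold DL
  have e1 : 1 - (1 / (L : ℂ)) * ∑ l ∈ range L, ee (θ * l)
      = (1 / (L : ℂ)) * ∑ l ∈ range L, (1 - ee (θ * l)) := by
    rw [sum_sub_distrib, sum_const, card_range, nsmul_eq_mul]
    field_simp
  rw [e1, norm_mul, norm_div, norm_one, Complex.norm_natCast]
  have h1 : ‖∑ l ∈ range L, (1 - ee (θ * l))‖ ≤ L * (8 * (L * |θ|)) := by
    calc _ ≤ ∑ l ∈ range L, ‖1 - ee (θ * l)‖ := norm_sum_le _ _
      _ ≤ ∑ l ∈ range L, (8 * (L * |θ|)) := by
          refine sum_le_sum fun l hl => ?_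
          rw [norm_sub_rev]
          refine (ee_sub_one_le _).trans ?_
          rw [abs_mul, Nat.abs_cast]
          have hl' : (l : ℝ) ≤ L := by exact_mod_cast (mem_range.mp hl).le
          have hpi : Real.pi < 4 := by linarith [Real.pi_lt_d2]
          have h2 : |θ| * l ≤ L * |θ| := by
            rw [mul_comm]
            exact mul_le_mul_of_nonneg_right hl' (abs_nonneg _)
          have h3 : 0 ≤ |θ| * l := by positivity
          have h4 := Real.pi_pos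
          nlinarith
      _ = L * (8 * (L * |θ|)) := by rw [sum_const, card_range, nsmul_eq_mul]
  calc 1 / (L : ℝ) * ‖∑ l ∈ range L, (1 - ee (θ * l))‖ ≤ 1 / (L : ℝ) * (L * (8 * (L * |θ|))) :=
        mul_le_mul_of_nonneg_left h1 (by positivity)
    _ = 8 * (L * |θ|) := by field_simp

theorem DL_two (L : ℕ) (hL : 1 ≤ L) (θ : ℝ) : ‖1 - DL L θ‖ ≤ 2 := by
  have hL0 : (0 : ℝ) < L := by exact_mod_cast hL
  have h1 : ‖DL L θ‖ ≤ 1 := by
    unfold DL
    rw [norm_mul, norm_div, norm_one, Complex.norm_natCast]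
    have h2 : ‖∑ l ∈ range L, ee (θ * l)‖ ≤ L := by
      calc _ ≤ ∑ l ∈ range L, ‖ee (θ * l)‖ := norm_sum_le _ _
        _ = L := by simp [norm_ee]
    rw [one_div, inv_mul_le_iff₀ hL0, mul_one]
    exact h2
  calc ‖1 - DL L θ‖ ≤ ‖(1 : ℂ)‖ + ‖DL L θ‖ := norm_sub_le _ _
    _ ≤ 2 := by
        rw [norm_one]
        linarith

/-- weighted number of t with z t = N -/
noncomputable def rp {τ : Type*} (T : Finset τ) (c : τ → ℝ) (z : τ → ℤ) (N : ℤ) : ℝ :=
  ∑ t ∈ T, if z t = N then c t else 0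

/-- the difference between the number of representations and its average -/
theorem rp_diff {τ : Type*} (T : Finset τ) (c : τ → ℝ) (z : τ → ℤ) (N : ℤ) (L : ℕ) (_hL : 1 ≤ L) :
    ((rp T c z N - (1 / L) * ∑ l ∈ range L, rp T c z (N - l) : ℝ) : ℂ)
      = ∫ θ in (-(1 / 2) : ℝ)..(1 / 2),
        ((∑ t ∈ T, (c t : ℂ) * ee (θ * z t)) * (1 - DL L θ)) * ee (-(θ * N)) := by
  have hc := trig_cont T c z
  have h1 : ∀ θ : ℝ, ((∑ t ∈ T, (c t : ℂ) * ee (θ * z t)) * (1 - DL L θ)) * ee (-(θ * N))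
      = (∑ t ∈ T, (c t : ℂ) * ee (θ * z t)) * ee (-(θ * N))
        - (1 / (L : ℂ)) * ∑ l ∈ range L,
          (∑ t ∈ T, (c t : ℂ) * ee (θ * z t)) * ee (-(θ * ((N - l : ℤ) : ℝ))) := by
    intro θ
    have h2 : ∑ l ∈ range L, (∑ t ∈ T, (c t : ℂ) * ee (θ * z t)) * ee (-(θ * ((N - l : ℤ) : ℝ)))
        = (∑ t ∈ T, (c t : ℂ) * ee (θ * z t)) * (∑ l ∈ range L, ee (θ * l)) * ee (-(θ * N)) := by
      rw [mul_sum, sum_mul]
      refine sum_congr rfl fun l _ => ?_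
      have : ee (-(θ * ((N - l : ℤ) : ℝ))) = ee (θ * l) * ee (-(θ * N)) := by
        rw [← ee_add]
        congr 1
        push_cast
        ring
      rw [this]
      ring
    rw [h2]
    unfold DL
    ring
  simp only [h1]
  have hi : ∀ M : ℤ, IntervalIntegrable (fun θ : ℝ => (∑ t ∈ T, (c t : ℂ) * ee (θ * z t))
      * ee (-(θ * (M : ℝ)))) volume (-(1 / 2)) (1 / 2) := by
    intro M
    apply Continuous.intervalIntegrable
    exact hc.mul (ee_continuous.comp ((continuous_id.mul continuous_const).neg))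
  rw [intervalIntegral.integral_sub (hi N)]
  · rw [coef, intervalIntegral.integral_const_mul, intervalIntegral.integral_finsetSum]
    · have h2 : ∀ l ∈ range L, ∫ θ in (-(1 / 2) : ℝ)..(1 / 2),
          (∑ t ∈ T, (c t : ℂ) * ee (θ * z t)) * ee (-(θ * ((N - l : ℤ) : ℝ)))
          = ((rp T c z (N - l) : ℝ) : ℂ) := by
        intro l _
        rw [coef]
        rfl
      rw [sum_congr rfl h2]
      push_cast
      unfold rp
      push_cast
      ring
    · intro l _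
      exact hi (N - l)
  · apply Continuous.intervalIntegrable
    refine continuous_const.mul (continuous_finsetSum _ fun l _ => ?_)
    exact hc.mul (ee_continuous.comp ((continuous_id.mul continuous_const).neg))

/-- sums over a product of three families -/
theorem trig_prod3 {τ σ : Type*} (S0 : Finset τ) (S1 : Finset σ) (c : τ → ℝ) (W : σ → ℝ) (z : τ → ℤ)
    (a : σ → ℤ) (θ : ℝ) :
    ∑ t ∈ S0 ×ˢ (S1 ×ˢ S1), ((c t.1 * (W t.2.1 * W t.2.2) : ℝ) : ℂ)
      * ee (θ * ((z t.1 + (a t.2.1 + a t.2.2) : ℤ) : ℝ))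
      = (∑ s ∈ S0, (c s : ℂ) * ee (θ * z s)) * ((∑ x ∈ S1, (W x : ℂ) * ee (θ * a x))
        * (∑ x ∈ S1, (W x : ℂ) * ee (θ * a x))) := by
  rw [sum_product, sum_mul]
  refine sum_congr rfl fun s _ => ?_
  rw [sum_product, sum_mul_sum, mul_sum]
  refine sum_congr rfl fun x _ => ?_
  rw [mul_sum]
  refine sum_congr rfl fun y _ => ?_
  have : ee (θ * ((z s + (a x + a y) : ℤ) : ℝ)) = ee (θ * z s) * (ee (θ * a x) * ee (θ * a y)) := by
    rw [← ee_add, ← ee_add]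
    congr 1
    push_cast
    ring
  simp only
  rw [this]
  push_cast
  ring

open scoped Classical in
theorem smooth3 {τ σ : Type*} (S0 : Finset τ) (S1 : Finset σ) (c : τ → ℝ) (W : σ → ℝ) (z : τ → ℤ)
    (a : σ → ℤ) (hW0 : ∀ x ∈ S1, 0 ≤ W x) (hW1 : ∀ x ∈ S1, W x ≤ 1) (N : ℤ) (L : ℕ) (hL : 1 ≤ L)
    (B : ℝ) (hB : ∀ θ : ℝ, |θ| ≤ 1 / 2 →
      ‖∑ s ∈ S0, (c s : ℂ) * ee (θ * z s)‖ * ‖1 - DL L θ‖ ≤ B) :
    |rp (S0 ×ˢ (S1 ×ˢ S1)) (fun t => c t.1 * (W t.2.1 * W t.2.2))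
        (fun t => z t.1 + (a t.2.1 + a t.2.2)) N
      - (1 / L) * ∑ l ∈ range L, rp (S0 ×ˢ (S1 ×ˢ S1)) (fun t => c t.1 * (W t.2.1 * W t.2.2))
        (fun t => z t.1 + (a t.2.1 + a t.2.2)) (N - l)|
      ≤ B * (((S1 ×ˢ S1).filter (fun p => a p.1 = a p.2)).card : ℝ) := by
  have hB0 : 0 ≤ B := (by positivity : (0 : ℝ) ≤ ‖∑ s ∈ S0, (c s : ℂ) * ee ((0 : ℝ) * z s)‖
    * ‖1 - DL L 0‖).trans (hB 0 (by norm_num))
  have h1 := rp_diff (S0 ×ˢ (S1 ×ˢ S1)) (fun t => c t.1 * (W t.2.1 * W t.2.2))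
    (fun t => z t.1 + (a t.2.1 + a t.2.2)) N L hL
  have h2 : |rp (S0 ×ˢ (S1 ×ˢ S1)) (fun t => c t.1 * (W t.2.1 * W t.2.2))
        (fun t => z t.1 + (a t.2.1 + a t.2.2)) N
      - (1 / L) * ∑ l ∈ range L, rp (S0 ×ˢ (S1 ×ˢ S1)) (fun t => c t.1 * (W t.2.1 * W t.2.2))
        (fun t => z t.1 + (a t.2.1 + a t.2.2)) (N - l)|
      = ‖((rp (S0 ×ˢ (S1 ×ˢ S1)) (fun t => c t.1 * (W t.2.1 * W t.2.2))
        (fun t => z t.1 + (a t.2.1 + a t.2.2)) N
      - (1 / L) * ∑ l ∈ range L, rp (S0 ×ˢ (S1 ×ˢ S1)) (fun t => c t.1 * (W t.2.1 * W t.2.2))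
        (fun t => z t.1 + (a t.2.1 + a t.2.2)) (N - l) : ℝ) : ℂ)‖ := by
    rw [Complex.norm_real, Real.norm_eq_abs]
  rw [h2, h1]
  have hA := trig_cont S0 c z
  have hG := trig_cont S1 W a
  have h3 : ∀ θ : ℝ, (∑ t ∈ S0 ×ˢ (S1 ×ˢ S1), ((c t.1 * (W t.2.1 * W t.2.2) : ℝ) : ℂ)
      * ee (θ * ((z t.1 + (a t.2.1 + a t.2.2) : ℤ) : ℝ))) = _ :=
    fun θ => trig_prod3 S0 S1 c W z a θ
  simp only [h3]
  refine (intervalIntegral.norm_integral_le_integral_norm (by norm_num)).trans ?_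
  have h4 : ∫ θ in (-(1 / 2) : ℝ)..(1 / 2), ‖(∑ s ∈ S0, (c s : ℂ) * ee (θ * z s))
      * ((∑ x ∈ S1, (W x : ℂ) * ee (θ * a x)) * (∑ x ∈ S1, (W x : ℂ) * ee (θ * a x)))
      * (1 - DL L θ) * ee (-(θ * N))‖
      ≤ ∫ θ in (-(1 / 2) : ℝ)..(1 / 2), B * ‖∑ x ∈ S1, (W x : ℂ) * ee (θ * a x)‖ ^ 2 := by
    refine intervalIntegral.integral_mono_on (by norm_num) ?_ ?_ ?_
    · apply Continuous.intervalIntegrable
      refine Continuous.norm ?_
      refine Continuous.mul ?_ (ee_continuous.comp ((continuous_id.mul continuous_const).neg))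
      exact (hA.mul (hG.mul hG)).mul (continuous_const.sub (DL_cont L))
    · apply Continuous.intervalIntegrable
      exact continuous_const.mul (hG.norm.pow 2)
    · intro θ hθ
      rw [norm_mul, norm_mul, norm_mul, norm_mul, norm_ee, mul_one]
      have hθ' : |θ| ≤ 1 / 2 := abs_le.mpr hθ
      have h5 := hB θ hθ'
      calc ‖∑ s ∈ S0, (c s : ℂ) * ee (θ * z s)‖ * (‖∑ x ∈ S1, (W x : ℂ) * ee (θ * a x)‖
            * ‖∑ x ∈ S1, (W x : ℂ) * ee (θ * a x)‖) * ‖1 - DL L θ‖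
          = (‖∑ s ∈ S0, (c s : ℂ) * ee (θ * z s)‖ * ‖1 - DL L θ‖)
            * ‖∑ x ∈ S1, (W x : ℂ) * ee (θ * a x)‖ ^ 2 := by ring
        _ ≤ B * ‖∑ x ∈ S1, (W x : ℂ) * ee (θ * a x)‖ ^ 2 :=
            mul_le_mul_of_nonneg_right h5 (by positivity)
  refine h4.trans ?_
  rw [intervalIntegral.integral_const_mul]
  exact mul_le_mul_of_nonneg_left (mean_sq S1 W a hW0 hW1) hB0

end Pool.Agent.V7H89.GP
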