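import Pool.Agent.V7H89.GP.FjA

/-!
Exponential sums with the integer parts of the values of a polynomial.
-/

namespace Pool.Agent.V7H89.GP

open Finset

/-- the weight -/
noncomputable def wt (x : ℝ) : ℝ := 4 * Int.fract x * (1 - Int.fract x)

theorem wt_nonneg (x : ℝ) : 0 ≤ wt x := by
  have h1 := Int.fract_nonneg x
  have h2 := (Int.fract_lt_one x).le
  unfold wt
  have : 0 ≤ 1 - Int.fract x := by linarith
  positivity

theorem wt_le_one (x : ℝ) : wt x ≤ 1 := by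
  unfold wt
  nlinarith [sq_nonneg (2 * Int.fract x - 1)]

/-- the weight with the phase -/
noncomputable def ph (θ t : ℝ) : ℂ := ((4 * t * (1 - t) : ℝ) : ℂ) * ee (-(θ * t))

theorem ph_fract (θ x : ℝ) : ph θ (Int.fract x) * ee (θ * x) = (wt x : ℂ) * ee (θ * (⌊x⌋ : ℝ)) := by
  unfold ph wt
  rw [mul_assoc, ← ee_add]
  congr 2
  have := Int.floor_add_fract x
  have h2 : (⌊x⌋ : ℝ) = x - Int.fract x := by linarith
  rw [h2]
  ring

theorem ph_norm (θ t : ℝ) (h0 : 0 ≤ t) (h1 : t ≤ 1) : ‖ph θ t‖ ≤ 1 := by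
  unfold ph
  rw [norm_mul, norm_ee, mul_one, Complex.norm_real, Real.norm_of_nonneg]
  · nlinarith [sq_nonneg (2 * t - 1)]
  · have : 0 ≤ 1 - t := by linarith
    positivity

theorem ph_lip (θ : ℝ) (hθ : |θ| ≤ 1 / 2) (s t : ℝ) (hs0 : 0 ≤ s) (hs1 : s ≤ 1) (ht0 : 0 ≤ t)
    (ht1 : t ≤ 1) : ‖ph θ s - ph θ t‖ ≤ 8 * |s - t| := by
  unfold ph
  have e1 : ((4 * s * (1 - s) : ℝ) : ℂ) * ee (-(θ * s)) - ((4 * t * (1 - t) : ℝ) : ℂ) * ee (-(θ * t))
      = ((4 * s * (1 - s) - 4 * t * (1 - t) : ℝ) : ℂ) * ee (-(θ * s))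
        + ((4 * t * (1 - t) : ℝ) : ℂ) * (ee (-(θ * s)) - ee (-(θ * t))) := by
    push_cast
    ring
  rw [e1]
  refine (norm_add_le _ _).trans ?_
  rw [norm_mul, norm_mul, norm_ee, mul_one, Complex.norm_real, Complex.norm_real]
  have h1 : ‖4 * s * (1 - s) - 4 * t * (1 - t)‖ ≤ 4 * |s - t| := by
    have e2 : 4 * s * (1 - s) - 4 * t * (1 - t) = 4 * (s - t) * (1 - s - t) := by ring
    rw [e2, Real.norm_eq_abs, abs_mul, abs_mul, abs_of_pos (by norm_num : (0 : ℝ) < 4)]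
    have h2 : |1 - s - t| ≤ 1 := by
      rw [abs_le]
      constructor <;> linarith
    have h3 : 0 ≤ 4 * |s - t| := by positivity
    nlinarith
  have h2 : ‖4 * t * (1 - t)‖ ≤ 1 := by
    rw [Real.norm_of_nonneg]
    · nlinarith [sq_nonneg (2 * t - 1)]
    · have : 0 ≤ 1 - t := by linarith
      positivity
  have h3 : ‖ee (-(θ * s)) - ee (-(θ * t))‖ ≤ 4 * |s - t| := by
    refine (ee_sub_le _ _).trans ?_
    have e3 : -(θ * s) - -(θ * t) = -(θ * (s - t)) := by ring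
    rw [e3, abs_neg, abs_mul]
    have hpi : Real.pi < 4 := by linarith [Real.pi_lt_d2]
    have h4 : 2 * Real.pi * |θ| ≤ 4 := by
      have := abs_nonneg θ
      have := Real.pi_pos
      nlinarith
    have h5 := abs_nonneg (s - t)
    calc 2 * Real.pi * (|θ| * |s - t|) = (2 * Real.pi * |θ|) * |s - t| := by ring
      _ ≤ 4 * |s - t| := mul_le_mul_of_nonneg_right h4 h5
  have h4 : ‖4 * t * (1 - t)‖ * ‖ee (-(θ * s)) - ee (-(θ * t))‖ ≤ 1 * (4 * |s - t|) :=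
    mul_le_mul h2 h3 (norm_nonneg _) (by norm_num)
  linarith

theorem ph_circle (θ : ℝ) (hθ : |θ| ≤ 1 / 2) (x y : ℝ) :
    ‖ph θ (Int.fract x) - ph θ (Int.fract y)‖ ≤ 8 * dn (x - y) := by
  refine circle_lip (ph θ) 8 ?_ (fun s t h1 h2 h3 h4 => ph_lip θ hθ s t h1 h2 h3 h4) x y
  unfold ph
  simp

/-- a sum with integer parts in terms of exponential sums -/
theorem floor_sum (G : ℕ) (hG : 1 ≤ G) (θ : ℝ) (hθ : |θ| ≤ 1 / 2) (f : ℕ → ℝ) (n : ℕ) :
    ‖∑ i ∈ range n, (wt (f i) : ℂ) * ee (θ * (⌊f i⌋ : ℝ))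
      - ∑ l ∈ range (G ^ 2), ∑ l' ∈ range (G ^ 2), bco (G ^ 2) (fun x => ph θ (Int.fract x)) l l'
        * ∑ i ∈ range n, ee ((θ + ((l : ℝ) - l')) * f i)‖ ≤ n * (4 / G) := by
  have hG0 : (0 : ℝ) < G := by exact_mod_cast hG
  have e1 : ∑ l ∈ range (G ^ 2), ∑ l' ∈ range (G ^ 2), bco (G ^ 2) (fun x => ph θ (Int.fract x)) l l'
        * ∑ i ∈ range n, ee ((θ + ((l : ℝ) - l')) * f i)
      = ∑ i ∈ range n, (∑ l ∈ range (G ^ 2), ∑ l' ∈ range (G ^ 2),
        bco (G ^ 2) (fun x => ph θ (Int.fract x)) l l' * ee (((l : ℝ) - l') * f i)) * ee (θ * f i) := by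
    have e5 : ∀ F : ℕ → ℕ → ℕ → ℂ, ∑ i ∈ range n, ∑ l ∈ range (G ^ 2), ∑ l' ∈ range (G ^ 2), F i l l'
        = ∑ l ∈ range (G ^ 2), ∑ l' ∈ range (G ^ 2), ∑ i ∈ range n, F i l l' := by
      intro F
      rw [sum_comm]
      exact sum_congr rfl fun l _ => sum_comm
    have e6 : ∀ i ∈ range n, (∑ l ∈ range (G ^ 2), ∑ l' ∈ range (G ^ 2),
        bco (G ^ 2) (fun x => ph θ (Int.fract x)) l l' * ee (((l : ℝ) - l') * f i)) * ee (θ * f i)
        = ∑ l ∈ range (G ^ 2), ∑ l' ∈ range (G ^ 2),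
        bco (G ^ 2) (fun x => ph θ (Int.fract x)) l l' * ee ((θ + ((l : ℝ) - l')) * f i) := by
      intro i _
      rw [sum_mul]
      refine sum_congr rfl fun l _ => ?_
      rw [sum_mul]
      refine sum_congr rfl fun l' _ => ?_
      rw [mul_assoc, ← ee_add]
      congr 2
      ring
    rw [sum_congr rfl e6, e5]
    refine sum_congr rfl fun l _ => sum_congr rfl fun l' _ => ?_
    rw [mul_sum]
  rw [e1, ← sum_sub_distrib]
  calc _ ≤ ∑ i ∈ range n, ‖(wt (f i) : ℂ) * ee (θ * (⌊f i⌋ : ℝ))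
        - (∑ l ∈ range (G ^ 2), ∑ l' ∈ range (G ^ 2),
        bco (G ^ 2) (fun x => ph θ (Int.fract x)) l l' * ee (((l : ℝ) - l') * f i)) * ee (θ * f i)‖ :=
        norm_sum_le _ _
    _ ≤ ∑ i ∈ range n, (4 / G : ℝ) := by
        refine sum_le_sum fun i _ => ?_
        rw [← ph_fract, ← sub_mul, norm_mul, norm_ee, mul_one]
        have h1 := fejer G hG (fun x => ph θ (Int.fract x)) 8 (by norm_num)
          (fun x y => ph_circle θ hθ x y) (f i)
        refine h1.trans (le_of_eq ?_)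
        field_simp
        norm_num
    _ = n * (4 / G) := by rw [sum_const, card_range, nsmul_eq_mul]

theorem sum_jH (H : ℕ) : ∑ j ∈ range H, ((j : ℝ) * ((H : ℝ) - j)) = ((H : ℝ) ^ 3 - H) / 6 := by
  have h1 : ∀ n : ℕ, ∑ j ∈ range n, ((j : ℝ) * ((H : ℝ) - j))
      = H * (n * (n - 1)) / 2 - n * (n - 1) * (2 * n - 1) / 6 := by
    intro n
    induction n with
    | zero => simp
    | succ n ih =>
      rw [sum_range_succ, ih]
      push_cast
      ring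
  rw [h1 H]
  ring

/-- the mean value of the weight -/
theorem bco_diag (H : ℕ) (hH : 2 ≤ H) (l : ℕ) : ∃ r : ℝ, 1 / 2 ≤ r ∧
    bco H (fun x => ph 0 (Int.fract x)) l l = ((r / H : ℝ) : ℂ) := by
  have hH0 : (0 : ℝ) < H := by
    have : 0 < H := by omega
    exact_mod_cast this
  have hH2 : (2 : ℝ) ≤ H := by exact_mod_cast hH
  refine ⟨4 * (((H : ℝ) ^ 3 - H) / 6) / H ^ 3, ?_, ?_⟩
  · rw [le_div_iff₀ (by positivity)]
    nlinarith [mul_pos hH0 hH0]
  · unfold bco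
    have e1 : ∀ j ∈ range H, (fun x => ph 0 (Int.fract x)) ((j : ℝ) / H)
        * ee (-(((l : ℝ) - l) * ((j : ℝ) / H))) = ((4 / (H : ℝ) ^ 2 * ((j : ℝ) * ((H : ℝ) - j)) : ℝ) : ℂ) := by
      intro j hj
      have hjH : (j : ℝ) < H := by exact_mod_cast mem_range.mp hj
      have h2 : Int.fract ((j : ℝ) / H) = (j : ℝ) / H := by
        rw [Int.fract_eq_self]
        exact ⟨by positivity, by rw [div_lt_one hH0]; exact hjH⟩
      simp only
      rw [h2]
      unfold ph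
      rw [sub_self, zero_mul, neg_zero, ee_zero, mul_one, mul_one]
      congr 1
      field_simp
    rw [sum_congr rfl e1, ← Complex.ofReal_sum, ← mul_sum, sum_jH]
    push_cast
    have hHC : (H : ℂ) ≠ 0 := by exact_mod_cast hH0.ne'
    field_simp

/-- the upper bound -/
theorem floor_upper (G : ℕ) (hG : 1 ≤ G) (θ : ℝ) (hθ : |θ| ≤ 1 / 2) (f : ℕ → ℝ) (n : ℕ) (B : ℝ)
    (hB : ∀ l ∈ range (G ^ 2), ∀ l' ∈ range (G ^ 2),
      ‖∑ i ∈ range n, ee ((θ + ((l : ℝ) - l')) * f i)‖ ≤ B) :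
    ‖∑ i ∈ range n, (wt (f i) : ℂ) * ee (θ * (⌊f i⌋ : ℝ))‖ ≤ (G : ℝ) ^ 2 * B + n * (4 / G) := by
  have hG0 : (0 : ℝ) < G := by exact_mod_cast hG
  have hB0 : 0 ≤ B := (norm_nonneg _).trans (hB 0 (mem_range.mpr (by positivity)) 0
    (mem_range.mpr (by positivity)))
  have h1 := floor_sum G hG θ hθ f n
  set Z := ∑ l ∈ range (G ^ 2), ∑ l' ∈ range (G ^ 2), bco (G ^ 2) (fun x => ph θ (Int.fract x)) l l'
        * ∑ i ∈ range n, ee ((θ + ((l : ℝ) - l')) * f i) with hZ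
  have h2 : ‖Z‖ ≤ (G : ℝ) ^ 2 * B := by
    calc ‖Z‖ ≤ ∑ l ∈ range (G ^ 2), ‖∑ l' ∈ range (G ^ 2), bco (G ^ 2) (fun x => ph θ (Int.fract x)) l l'
        * ∑ i ∈ range n, ee ((θ + ((l : ℝ) - l')) * f i)‖ := norm_sum_le _ _
      _ ≤ ∑ l ∈ range (G ^ 2), ∑ l' ∈ range (G ^ 2), ‖bco (G ^ 2) (fun x => ph θ (Int.fract x)) l l'
        * ∑ i ∈ range n, ee ((θ + ((l : ℝ) - l')) * f i)‖ := sum_le_sum fun l _ => norm_sum_le _ _
      _ ≤ ∑ l ∈ range (G ^ 2), ∑ l' ∈ range (G ^ 2), (1 / ((G ^ 2 : ℕ) : ℝ)) * B := by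
          refine sum_le_sum fun l hl => sum_le_sum fun l' hl' => ?_
          rw [norm_mul]
          refine mul_le_mul ?_ (hB l hl l' hl') (norm_nonneg _) (by positivity)
          refine bco_norm (G ^ 2) _ (Nat.one_le_pow _ _ hG) (fun x => ?_) l l'
          exact ph_norm θ _ (Int.fract_nonneg x) (Int.fract_lt_one x).le
      _ = (G : ℝ) ^ 2 * B := by
          rw [sum_const, sum_const, card_range, nsmul_eq_mul, nsmul_eq_mul]
          push_cast
          field_simp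
  have h3 := norm_sub_norm_le (∑ i ∈ range n, (wt (f i) : ℂ) * ee (θ * (⌊f i⌋ : ℝ))) Z
  linarith

/-- the lower bound -/
theorem floor_lower (G : ℕ) (hG : 2 ≤ G) (f : ℕ → ℝ) (n : ℕ) (B : ℝ)
    (hB : ∀ l ∈ range (G ^ 2), ∀ l' ∈ range (G ^ 2), l ≠ l' →
      ‖∑ i ∈ range n, ee (((l : ℝ) - l') * f i)‖ ≤ B) :
    (n : ℝ) / 2 - (G : ℝ) ^ 2 * B - n * (4 / G) ≤ ∑ i ∈ range n, wt (f i) := by
  have hG0 : (0 : ℝ) < G := by
    have : 0 < G := by omega
    exact_mod_cast this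
  have hB0 : 0 ≤ B := (norm_nonneg _).trans (hB 0 (mem_range.mpr (by positivity)) 1
    (mem_range.mpr (by nlinarith)) (by omega))
  have h1 := floor_sum G (by omega) 0 (by norm_num) f n
  have e0 : ∑ i ∈ range n, (wt (f i) : ℂ) * ee (0 * (⌊f i⌋ : ℝ)) = ((∑ i ∈ range n, wt (f i) : ℝ) : ℂ) := by
    push_cast
    refine sum_congr rfl fun i _ => ?_
    rw [zero_mul, ee_zero, mul_one]
  rw [e0] at h1
  -- the diagonal
  set D : ℕ → ℕ → ℂ := fun l l' => bco (G ^ 2) (fun x => ph 0 (Int.fract x)) l l'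
        * ∑ i ∈ range n, ee ((0 + ((l : ℝ) - l')) * f i) with hD
  have hsplit : ∑ l ∈ range (G ^ 2), ∑ l' ∈ range (G ^ 2), D l l'
      = ∑ l ∈ range (G ^ 2), D l l
        + ∑ l ∈ range (G ^ 2), ∑ l' ∈ (range (G ^ 2)).erase l, D l l' := by
    rw [← sum_add_distrib]
    refine sum_congr rfl fun l hl => ?_
    rw [add_sum_erase _ _ hl]
  have hoff : ‖∑ l ∈ range (G ^ 2), ∑ l' ∈ (range (G ^ 2)).erase l, D l l'‖ ≤ (G : ℝ) ^ 2 * B := by
    calc _ ≤ ∑ l ∈ range (G ^ 2), ‖∑ l' ∈ (range (G ^ 2)).erase l, D l l'‖ := norm_sum_le _ _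
      _ ≤ ∑ l ∈ range (G ^ 2), ∑ l' ∈ (range (G ^ 2)).erase l, ‖D l l'‖ :=
          sum_le_sum fun l _ => norm_sum_le _ _
      _ ≤ ∑ l ∈ range (G ^ 2), ∑ l' ∈ (range (G ^ 2)).erase l, (1 / ((G ^ 2 : ℕ) : ℝ)) * B := by
          refine sum_le_sum fun l hl => sum_le_sum fun l' hl' => ?_
          rw [hD]
          simp only
          rw [norm_mul, zero_add]
          refine mul_le_mul ?_ (hB l hl l' (mem_of_mem_erase hl') (ne_of_mem_erase hl').symm)
            (norm_nonneg _) (by positivity)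
          refine bco_norm (G ^ 2) _ (Nat.one_le_pow _ _ (by omega)) (fun x => ?_) l l'
          exact ph_norm 0 _ (Int.fract_nonneg x) (Int.fract_lt_one x).le
      _ ≤ ∑ l ∈ range (G ^ 2), ∑ l' ∈ range (G ^ 2), (1 / ((G ^ 2 : ℕ) : ℝ)) * B := by
          refine sum_le_sum fun l _ => ?_
          exact sum_le_sum_of_subset_of_nonneg (erase_subset _ _) fun _ _ _ => by positivity
      _ = (G : ℝ) ^ 2 * B := by
          rw [sum_const, sum_const, card_range, nsmul_eq_mul, nsmul_eq_mul]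
          push_cast
          field_simp
  have hG2 : 2 ≤ G ^ 2 := by nlinarith
  have hdiag : ∃ s : ℝ, (n : ℝ) / 2 ≤ s ∧ ∑ l ∈ range (G ^ 2), D l l = ((s : ℝ) : ℂ) := by
    have h4 := fun l => bco_diag (G ^ 2) hG2 l
    choose r hr1 hr2 using h4
    refine ⟨∑ l ∈ range (G ^ 2), r l / ((G ^ 2 : ℕ) : ℝ) * n, ?_, ?_⟩
    · calc (n : ℝ) / 2 = ∑ l ∈ range (G ^ 2), (1 / 2) / ((G ^ 2 : ℕ) : ℝ) * n := by
            rw [sum_const, card_range, nsmul_eq_mul]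
            push_cast
            field_simp
        _ ≤ _ := by
            refine sum_le_sum fun l _ => ?_
            refine mul_le_mul_of_nonneg_right ?_ (Nat.cast_nonneg n)
            exact div_le_div_of_nonneg_right (hr1 l) (Nat.cast_nonneg _)
    · push_cast
      refine sum_congr rfl fun l _ => ?_
      rw [hD]
      simp only
      rw [hr2 l, sub_self, zero_add]
      simp only [zero_mul, ee_zero, sum_const, card_range, nsmul_eq_mul, mul_one]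
      push_cast
      ring
  obtain ⟨s, hs1, hs2⟩ := hdiag
  rw [hsplit, hs2] at h1
  have h5 : ‖((∑ i ∈ range n, wt (f i) - s : ℝ) : ℂ)‖ ≤ n * (4 / G) + (G : ℝ) ^ 2 * B := by
    have e2 : ((∑ i ∈ range n, wt (f i) - s : ℝ) : ℂ) = (((∑ i ∈ range n, wt (f i) : ℝ) : ℂ)
        - ((s : ℂ) + ∑ l ∈ range (G ^ 2), ∑ l' ∈ (range (G ^ 2)).erase l, D l l'))
        + ∑ l ∈ range (G ^ 2), ∑ l' ∈ (range (G ^ 2)).erase l, D l l' := by
      push_cast
      ring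
    rw [e2]
    exact (norm_add_le _ _).trans (add_le_add h1 hoff)
  rw [Complex.norm_real, Real.norm_eq_abs] at h5
  have h6 := (abs_le.mp h5).1
  linarith

end Pool.Agent.V7H89.GP
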