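import Pool.Agent.V7H89.GP.AsA
import Pool.Agent.V7H89.GP.FjB
import Pool.Agent.V7H89.GP.MvD

/-!
Assembly, first part: sizes of the values, sums over short intervals, the average.
-/

namespace Pool.Agent.V7H89.GP

open Finset

/-- a constant for the size of the polynomial -/
noncomputable def Kf (d : ℕ) (γ : ℝ) (α : Fin (d + 1) → ℝ) : ℝ := γ + ∑ j, |α j|

theorem Kf_pos (d : ℕ) (γ : ℝ) (hγ : 0 < γ) (α : Fin (d + 1) → ℝ) : 0 < Kf d γ α := by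
  have : 0 ≤ ∑ j, |α j| := sum_nonneg fun _ _ => abs_nonneg _
  unfold Kf
  linarith

theorem low_le (d : ℕ) (α : Fin (d + 1) → ℝ) (n : ℕ) (hn : 1 ≤ n) :
    |∑ j : Fin (d + 1), α j * (n : ℝ) ^ ((j : ℕ) + 1)| ≤ (∑ j, |α j|) * (n : ℝ) ^ (d + 1) := by
  have hn1 : (1 : ℝ) ≤ n := by exact_mod_cast hn
  calc _ ≤ ∑ j : Fin (d + 1), |α j * (n : ℝ) ^ ((j : ℕ) + 1)| := abs_sum_le_sum_abs _ _
    _ ≤ ∑ j : Fin (d + 1), |α j| * (n : ℝ) ^ (d + 1) := by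
        refine sum_le_sum fun j _ => ?_
        rw [abs_mul, abs_of_nonneg (by positivity : (0 : ℝ) ≤ (n : ℝ) ^ ((j : ℕ) + 1))]
        refine mul_le_mul_of_nonneg_left ?_ (abs_nonneg _)
        exact pow_le_pow_right₀ hn1 (by have := j.2; omega)
    _ = _ := by rw [sum_mul]

theorem pf_le (d : ℕ) (γ : ℝ) (hγ : 0 < γ) (α : Fin (d + 1) → ℝ) (n : ℕ) (hn : 1 ≤ n) :
    |pf d γ α n| ≤ Kf d γ α * (n : ℝ) ^ (d + 2) := by
  have hn1 : (1 : ℝ) ≤ n := by exact_mod_cast hn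
  have h1 := low_le d α n hn
  have h2 : (n : ℝ) ^ (d + 1) ≤ (n : ℝ) ^ (d + 2) := pow_le_pow_right₀ hn1 (by omega)
  have h3 : 0 ≤ ∑ j, |α j| := sum_nonneg fun _ _ => abs_nonneg _
  unfold pf Kf
  refine (abs_add_le _ _).trans ?_
  rw [abs_of_nonneg (by positivity : 0 ≤ γ * (n : ℝ) ^ (d + 2)), add_mul]
  have h4 := mul_le_mul_of_nonneg_left h2 h3
  linarith

theorem pf_ge (d : ℕ) (γ : ℝ) (hγ : 0 < γ) (α : Fin (d + 1) → ℝ) (n : ℕ) (hn : 1 ≤ n) :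
    γ * (n : ℝ) ^ (d + 2) - Kf d γ α * (n : ℝ) ^ (d + 1) ≤ pf d γ α n := by
  have h1 := (abs_le.mp (low_le d α n hn)).1
  have h2 : 0 ≤ γ * (n : ℝ) ^ (d + 1) := by positivity
  unfold pf Kf
  rw [add_mul]
  linarith

theorem pow_diff (n m : ℕ) : ((n : ℝ) + 1) ^ m - (n : ℝ) ^ m ≤ m * ((n : ℝ) + 1) ^ (m - 1) := by
  have h1 := (Commute.all ((n : ℝ) + 1) (n : ℝ)).geom_sum₂_mul m
  have h2 : ((n : ℝ) + 1) - n = 1 := by ring
  rw [h2, mul_one] at h1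
  rw [← h1]
  calc ∑ i ∈ range m, ((n : ℝ) + 1) ^ i * (n : ℝ) ^ (m - 1 - i)
      ≤ ∑ i ∈ range m, ((n : ℝ) + 1) ^ (m - 1) := by
        refine sum_le_sum fun i hi => ?_
        calc ((n : ℝ) + 1) ^ i * (n : ℝ) ^ (m - 1 - i)
            ≤ ((n : ℝ) + 1) ^ i * ((n : ℝ) + 1) ^ (m - 1 - i) := by
              refine mul_le_mul_of_nonneg_left ?_ (by positivity)
              exact pow_le_pow_left₀ (Nat.cast_nonneg n) (by linarith) _
          _ = ((n : ℝ) + 1) ^ (m - 1) := by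
              rw [← pow_add]
              congr 1
              have := mem_range.mp hi
              omega
    _ = m * ((n : ℝ) + 1) ^ (m - 1) := by rw [sum_const, card_range, nsmul_eq_mul]

theorem pf_lip (d : ℕ) (γ : ℝ) (hγ : 0 < γ) (α : Fin (d + 1) → ℝ) (n : ℕ) (R : ℝ) (hR : 1 ≤ R)
    (hn : (n : ℝ) + 1 ≤ R) :
    |pf d γ α (n + 1) - pf d γ α n| ≤ (d + 2) * Kf d γ α * R ^ (d + 1) := by
  have hmono : ∀ m : ℕ, 1 ≤ m → m ≤ d + 2 →
      |((n : ℝ) + 1) ^ m - (n : ℝ) ^ m| ≤ (d + 2) * R ^ (d + 1) := by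
    intro m hm1 hm2
    have h0 : (n : ℝ) ^ m ≤ ((n : ℝ) + 1) ^ m := pow_le_pow_left₀ (Nat.cast_nonneg n) (by linarith) _
    rw [abs_of_nonneg (by linarith)]
    refine (pow_diff n m).trans ?_
    have h1 : ((n : ℝ) + 1) ^ (m - 1) ≤ R ^ (d + 1) :=
      (pow_le_pow_left₀ (by positivity) hn _).trans (pow_le_pow_right₀ hR (by omega))
    have h2 : (m : ℝ) ≤ d + 2 := by exact_mod_cast hm2
    exact mul_le_mul h2 h1 (by positivity) (by positivity)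
  unfold pf Kf
  push_cast
  have e1 : γ * ((n : ℝ) + 1) ^ (d + 2) + ∑ j : Fin (d + 1), α j * ((n : ℝ) + 1) ^ ((j : ℕ) + 1)
      - (γ * (n : ℝ) ^ (d + 2) + ∑ j : Fin (d + 1), α j * (n : ℝ) ^ ((j : ℕ) + 1))
      = γ * (((n : ℝ) + 1) ^ (d + 2) - (n : ℝ) ^ (d + 2))
        + ∑ j : Fin (d + 1), α j * (((n : ℝ) + 1) ^ ((j : ℕ) + 1) - (n : ℝ) ^ ((j : ℕ) + 1)) := by
    have : ∑ j : Fin (d + 1), α j * (((n : ℝ) + 1) ^ ((j : ℕ) + 1) - (n : ℝ) ^ ((j : ℕ) + 1))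
        = ∑ j : Fin (d + 1), α j * ((n : ℝ) + 1) ^ ((j : ℕ) + 1)
          - ∑ j : Fin (d + 1), α j * (n : ℝ) ^ ((j : ℕ) + 1) := by
      rw [← sum_sub_distrib]
      exact sum_congr rfl fun j _ => by ring
    rw [this]
    ring
  rw [e1]
  refine (abs_add_le _ _).trans ?_
  rw [abs_mul, abs_of_pos hγ]
  have h1 := mul_le_mul_of_nonneg_left (hmono (d + 2) (by omega) (le_refl _)) hγ.le
  have h2 : |∑ j : Fin (d + 1), α j * (((n : ℝ) + 1) ^ ((j : ℕ) + 1) - (n : ℝ) ^ ((j : ℕ) + 1))|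
      ≤ (∑ j, |α j|) * ((d + 2) * R ^ (d + 1)) := by
    calc _ ≤ ∑ j : Fin (d + 1), |α j * (((n : ℝ) + 1) ^ ((j : ℕ) + 1) - (n : ℝ) ^ ((j : ℕ) + 1))| :=
          abs_sum_le_sum_abs _ _
      _ ≤ ∑ j : Fin (d + 1), |α j| * ((d + 2) * R ^ (d + 1)) := by
          refine sum_le_sum fun j _ => ?_
          rw [abs_mul]
          exact mul_le_mul_of_nonneg_left (hmono _ (by omega) (by have := j.2; omega)) (abs_nonneg _)
      _ = _ := by rw [sum_mul]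
  nlinarith

/-- the lower bound for the weights of an interval of n <= R -/
theorem short_lower (d : ℕ) (γ : ℝ) (α : Fin (d + 1) → ℝ) (C : ℕ) (_hC1 : 1 ≤ C) (σ : ℝ) (_hσ : 0 < σ)
    (hσC : σ * C < 1) (X0 : ℝ) (hX0 : 1 ≤ X0)
    (hsup : ∀ X β : ℝ, X0 ≤ X → X ^ (C * σ - (d + 2)) ≤ |β| → |β| ≤ X ^ σ → ∀ a n : ℕ,
      ((a + n : ℕ) : ℝ) ≤ X → ‖∑ i ∈ range n, ee (β * pf d γ α (a + i))‖ ≤ X ^ (1 - σ))
    (X : ℝ) (hX : X0 ≤ X) (hX2 : 256 ≤ X ^ σ) (a n : ℕ) (han : ((a + n : ℕ) : ℝ) ≤ X) :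
    (n : ℝ) / 4 - 256 * X ^ (1 - σ) ≤ ∑ i ∈ range n, wt (pf d γ α (a + i)) := by
  have hX1 : 1 ≤ X := hX0.trans hX
  have hd0 : (0 : ℝ) ≤ d := Nat.cast_nonneg d
  have h1 := floor_lower 16 (by norm_num) (fun i => pf d γ α (a + i)) n (X ^ (1 - σ)) (by
    intro l hl l' hl' hne
    have hl2 := mem_range.mp hl
    have hl2' := mem_range.mp hl'
    have h2 : ((l : ℝ) - l') = (((l : ℤ) - l' : ℤ) : ℝ) := by push_cast; ring
    have h3 : (l : ℤ) - l' ≠ 0 := by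
      intro h
      apply hne
      omega
    refine hsup X ((l : ℝ) - l') hX ?_ ?_ a n han
    · have h4 : (1 : ℝ) ≤ |(l : ℝ) - l'| := by
        rw [h2, ← Int.cast_abs]
        exact_mod_cast Int.one_le_abs h3
      refine le_trans ?_ h4
      apply Real.rpow_le_one_of_one_le_of_nonpos hX1
      have : (C : ℝ) * σ < 1 := by linarith
      linarith
    · refine le_trans ?_ hX2
      rw [h2, ← Int.cast_abs]
      have : |(l : ℤ) - l'| ≤ 256 := by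
        rw [abs_le]
        constructor <;> omega
      exact_mod_cast this)
  refine le_trans (le_of_eq ?_) h1
  norm_num
  ring

/-- the upper bound for the exponential sum with integer parts -/
theorem A0_upper (d : ℕ) (γ : ℝ) (α : Fin (d + 1) → ℝ) (C : ℕ) (_hC1 : 1 ≤ C) (σ : ℝ) (hσ : 0 < σ)
    (hσC : σ * C < 1) (X0 : ℝ) (hX0 : 1 ≤ X0)
    (hsup : ∀ X β : ℝ, X0 ≤ X → X ^ (C * σ - (d + 2)) ≤ |β| → |β| ≤ X ^ σ → ∀ a n : ℕ,
      ((a + n : ℕ) : ℝ) ≤ X → ‖∑ i ∈ range n, ee (β * pf d γ α (a + i))‖ ≤ X ^ (1 - σ))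
    (X : ℝ) (hX : X0 ≤ X) (hX2 : 2 ≤ X ^ (σ / 4)) (hX3 : 2 ≤ X) (a n : ℕ) (han : ((a + n : ℕ) : ℝ) ≤ X)
    (θ : ℝ) (hθ : |θ| ≤ 1 / 2) (hθ2 : X ^ (C * σ - (d + 2)) ≤ |θ|) :
    ‖∑ i ∈ range n, (wt (pf d γ α (a + i)) : ℂ) * ee (θ * (⌊pf d γ α (a + i)⌋ : ℝ))‖
      ≤ 9 * X ^ (1 - σ / 4) := by
  have hX1 : 1 ≤ X := hX0.trans hX
  have hXp : 0 < X := by linarith
  have hd0 : (0 : ℝ) ≤ d := Nat.cast_nonneg d
  set g : ℝ := X ^ (σ / 4) with hg
  set G : ℕ := ⌊g⌋₊ with hG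
  have hG1 : 1 ≤ G := Nat.le_floor (by push_cast; linarith)
  have hGR : (1 : ℝ) ≤ G := by exact_mod_cast hG1
  have hGg : (G : ℝ) ≤ g := Nat.floor_le (by linarith)
  have hGg2 : g / 2 ≤ G := by
    have := Nat.lt_floor_add_one g
    have h2 : g < G + 1 := this
    linarith
  have hg2 : g ^ 2 = X ^ (σ / 2) := by
    rw [hg, ← Real.rpow_natCast, ← Real.rpow_mul hXp.le]
    congr 1
    push_cast
    ring
  have hgσ : g ^ 2 ≤ X ^ σ := by
    rw [hg2]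
    exact Real.rpow_le_rpow_of_exponent_le hX1 (by linarith)
  have h1 := floor_upper G hG1 θ hθ (fun i => pf d γ α (a + i)) n (X ^ (1 - σ)) (by
    intro l hl l' hl'
    have hl2 := mem_range.mp hl
    have hl2' := mem_range.mp hl'
    have h2 : ((l : ℝ) - l') = (((l : ℤ) - l' : ℤ) : ℝ) := by push_cast; ring
    have hle : |(l : ℝ) - l'| ≤ (G : ℝ) ^ 2 - 1 := by
      have h5 : |(l : ℤ) - l'| ≤ (G : ℤ) ^ 2 - 1 := by
        have e1 : (l : ℤ) < (G : ℤ) ^ 2 := by exact_mod_cast hl2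
        have e2 : (l' : ℤ) < (G : ℤ) ^ 2 := by exact_mod_cast hl2'
        rw [abs_le]
        constructor <;> omega
      rw [h2, ← Int.cast_abs]
      have h6 : ((|(l : ℤ) - l'| : ℤ) : ℝ) ≤ (((G : ℤ) ^ 2 - 1 : ℤ) : ℝ) := by exact_mod_cast h5
      push_cast at h6 ⊢
      exact h6
    have hGG : (G : ℝ) ^ 2 ≤ g ^ 2 := pow_le_pow_left₀ (by linarith) hGg 2
    refine hsup X (θ + ((l : ℝ) - l')) hX ?_ ?_ a n han
    · by_cases h3 : (l : ℤ) - l' = 0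
      · have : (l : ℝ) - l' = 0 := by rw [h2, h3]; simp
        rw [this, add_zero]
        exact hθ2
      · have h4 : (1 : ℝ) ≤ |(l : ℝ) - l'| := by
          rw [h2, ← Int.cast_abs]
          exact_mod_cast Int.one_le_abs h3
        have h5 : (1 / 2 : ℝ) ≤ |θ + ((l : ℝ) - l')| := by
          have h6 := abs_sub (θ + ((l : ℝ) - l')) θ
          rw [add_sub_cancel_left] at h6
          linarith
        refine le_trans ?_ h5
        have h7 : X ^ ((C : ℝ) * σ - (d + 2)) ≤ X ^ (-1 : ℝ) := by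
          apply Real.rpow_le_rpow_of_exponent_le hX1
          have : (C : ℝ) * σ < 1 := by linarith
          linarith
        refine h7.trans ?_
        rw [Real.rpow_neg_one, one_div]
        exact inv_anti₀ (by norm_num) hX3
    · have := abs_add_le θ ((l : ℝ) - l')
      linarith)
  refine h1.trans ?_
  have h2 : (G : ℝ) ^ 2 * X ^ (1 - σ) ≤ X ^ (1 - σ / 4) := by
    calc (G : ℝ) ^ 2 * X ^ (1 - σ) ≤ g ^ 2 * X ^ (1 - σ) := by
          refine mul_le_mul_of_nonneg_right ?_ (by positivity)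
          exact pow_le_pow_left₀ (by linarith) hGg 2
      _ = X ^ (σ / 2 + (1 - σ)) := by rw [hg2, ← Real.rpow_add hXp]
      _ ≤ X ^ (1 - σ / 4) := Real.rpow_le_rpow_of_exponent_le hX1 (by linarith)
  have h3 : (n : ℝ) * (4 / G) ≤ 8 * X ^ (1 - σ / 4) := by
    have hn : (n : ℝ) ≤ X := by
      refine le_trans ?_ han
      push_cast
      linarith [(Nat.cast_nonneg a : (0 : ℝ) ≤ a)]
    have h4 : (4 : ℝ) / G ≤ 8 / g := by
      rw [div_le_div_iff₀ (by linarith) (by linarith)]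
      linarith
    have h5 : X ^ (1 - σ / 4) = X / g := by
      rw [hg, Real.rpow_sub hXp, Real.rpow_one]
    calc (n : ℝ) * (4 / G) ≤ X * (8 / g) :=
          mul_le_mul hn h4 (by positivity) hXp.le
      _ = 8 * (X / g) := by ring
      _ = 8 * X ^ (1 - σ / 4) := by rw [h5]
  linarith

/-- the average from below -/
theorem avg_lower {τ σ : Type*} (S0 : Finset τ) (S1 : Finset σ) (c : τ → ℝ) (W : σ → ℝ) (z : τ → ℤ)
    (a : σ → ℤ) (hc : ∀ s ∈ S0, 0 ≤ c s) (hW0 : ∀ x ∈ S1, 0 ≤ W x) (N : ℤ) (L : ℕ) (κ : ℝ)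
    (hκ : ∀ x ∈ S1, ∀ y ∈ S1, κ ≤ ∑ s ∈ S0, if 0 ≤ N - (a x + a y) - z s ∧
      N - (a x + a y) - z s < L then c s else 0) :
    (1 / L) * (κ * (∑ x ∈ S1, W x) ^ 2)
      ≤ (1 / L) * ∑ l ∈ range L, rp (S0 ×ˢ (S1 ×ˢ S1)) (fun t => c t.1 * (W t.2.1 * W t.2.2))
        (fun t => z t.1 + (a t.2.1 + a t.2.2)) (N - l) := by
  refine mul_le_mul_of_nonneg_left ?_ (by positivity)
  unfold rp
  rw [sum_comm, sum_product_right, sq, sum_mul_sum, mul_sum, sum_product]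
  refine sum_le_sum fun x hx => ?_
  rw [mul_sum]
  refine sum_le_sum fun y hy => ?_
  have hWW : 0 ≤ W x * W y := mul_nonneg (hW0 x hx) (hW0 y hy)
  refine (mul_le_mul_of_nonneg_right (hκ x hx y hy) hWW).trans ?_
  rw [sum_mul]
  refine sum_le_sum fun s hs => ?_
  have hnn : 0 ≤ c s * (W x * W y) := mul_nonneg (hc s hs) hWW
  split_ifs with h
  · set l0 : ℕ := (N - (a x + a y) - z s).toNat with hl0
    have h1 : (l0 : ℤ) = N - (a x + a y) - z s := Int.toNat_of_nonneg h.1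
    have h2 : l0 < L := by omega
    have h3 := single_le_sum (f := fun l : ℕ => if z s + (a x + a y) = N - (l : ℤ) then
      c s * (W x * W y) else 0) (s := range L) (fun l _ => by
        split_ifs
        · exact hnn
        · exact le_refl 0) (mem_range.mpr h2)
    rw [if_pos (by omega)] at h3
    exact h3
  · rw [zero_mul]
    refine sum_nonneg fun l _ => ?_
    split_ifs
    · exact hnn
    · exact le_refl 0

end Pool.Agent.V7H89.GP
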