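import Pool.Agent.V7H89.GP.AsB

/-!
Assembly, second part: the families at the scale P = 2^m.
-/

namespace Pool.Agent.V7H89.GP

open Finset

theorem II_sub (k P a i : ℕ) (hk : 1 ≤ k) (ha : a < k) (hP : 1 ≤ P) (hi : i < P / (2 * k)) :
    ((2 * a + 1) * P + (2 * k - 1)) / (2 * k) + i ∈ II k P a := by
  have hq : 0 < 2 * k := by omega
  set q : ℕ := 2 * k with hqd
  set t : ℕ := (2 * a + 1) * P with ht
  set u : ℕ := (t + (q - 1)) / q with hu
  have h1 := Nat.div_add_mod (t + (q - 1)) q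
  rw [← hu] at h1
  have h2 := Nat.mod_lt (t + (q - 1)) hq
  have h3 : q * (i + 1) ≤ P := by
    have h4 : i + 1 ≤ P / q := hi
    calc q * (i + 1) ≤ q * (P / q) := Nat.mul_le_mul_left _ h4
      _ ≤ P := Nat.mul_div_le P q
  have ht1 : 1 ≤ t := by
    rw [ht]
    nlinarith
  have h5 : t ≤ q * (u + i) := by
    rw [Nat.mul_add]
    omega
  have h6 : q * (u + i) ≤ t + P := by
    rw [Nat.mul_add] at h3 ⊢
    omega
  have h7 : t + P = (2 * a + 2) * P := by rw [ht]; ring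
  have h8 : (2 * a + 2) * P ≤ q * P := Nat.mul_le_mul_right _ (by omega)
  rw [mem_II]
  refine ⟨⟨?_, ?_⟩, h5, ?_⟩
  · by_contra h
    have : u + i = 0 := Nat.lt_one_iff.mp (not_le.mp h)
    rw [this, Nat.mul_zero] at h5
    omega
  · have : q * (u + i) ≤ q * P := by omega
    exact Nat.le_of_mul_le_mul_left this hq
  · rw [← h7]
    exact h6

theorem II_lower (k P a : ℕ) (hk : 1 ≤ k) (ha : a < k) (hP : 1 ≤ P) (g : ℕ → ℝ) (hg : ∀ n, 0 ≤ g n) :
    ∑ i ∈ range (P / (2 * k)), g (((2 * a + 1) * P + (2 * k - 1)) / (2 * k) + i)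
      ≤ ∑ n ∈ II k P a, g n := by
  set u : ℕ := ((2 * a + 1) * P + (2 * k - 1)) / (2 * k) with hu
  have h1 : ∑ i ∈ range (P / (2 * k)), g (u + i)
      = ∑ n ∈ (range (P / (2 * k))).image (fun i => u + i), g n := by
    rw [sum_image]
    intro x _ y _ hxy
    simpa using hxy
  rw [h1]
  refine sum_le_sum_of_subset_of_nonneg ?_ fun n _ _ => hg n
  intro n hn
  obtain ⟨i, hi, rfl⟩ := mem_image.mp hn
  exact II_sub k P a i hk ha hP (mem_range.mp hi)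

theorem SS_lower (k P : ℕ) (g : ℕ → ℝ) (b : ℝ) (hb : 0 ≤ b)
    (h : ∀ a : Fin k, b ≤ ∑ n ∈ II k P a, g n) :
    b ^ k ≤ ∑ x ∈ SS k P, ∏ a, g (x a) := by
  rw [SS, ← prod_univ_sum]
  calc b ^ k = ∏ a : Fin k, b := by simp
    _ ≤ _ := prod_le_prod (fun _ _ => hb) fun a _ => h a

/-- the integer parts of the values of a tuple -/
noncomputable def az (d : ℕ) (γ : ℝ) (α : Fin (d + 1) → ℝ) (x : Fin (d + 2) → ℕ) : ℤ :=
  ∑ a, ⌊pf d γ α (x a)⌋

open scoped Classical in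
theorem az_card (d : ℕ) (γ : ℝ) (α : Fin (d + 1) → ℝ) (P : ℕ) :
    ((SS (d + 2) P ×ˢ SS (d + 2) P).filter (fun p => az d γ α p.1 = az d γ α p.2)).card
      ≤ TT d γ P α := by
  unfold TT
  refine card_le_card ?_
  intro p hp
  rw [mem_filter] at hp ⊢
  refine ⟨hp.1, ?_⟩
  have h1 : ∀ x : Fin (d + 2) → ℕ, Fd d γ α x - (az d γ α x : ℝ)
      = ∑ a, Int.fract (pf d γ α (x a)) := by
    intro x
    unfold Fd az
    push_cast
    rw [← sum_sub_distrib]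
    rfl
  have h2 : ∀ x : Fin (d + 2) → ℕ, 0 ≤ Fd d γ α x - (az d γ α x : ℝ) ∧
      Fd d γ α x - (az d γ α x : ℝ) ≤ d + 2 := by
    intro x
    rw [h1]
    refine ⟨sum_nonneg fun a _ => Int.fract_nonneg _, ?_⟩
    calc ∑ a, Int.fract (pf d γ α (x a)) ≤ ∑ a : Fin (d + 2), (1 : ℝ) :=
          sum_le_sum fun a _ => (Int.fract_lt_one _).le
      _ = d + 2 := by simp
  have h3 := h2 p.1
  have h4 := h2 p.2
  rw [hp.2] at h3
  rw [abs_le]
  constructor <;> linarith [h3.1, h3.2, h4.1, h4.2]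

/-- the values of tuples -/
theorem az_bounds (d : ℕ) (γ : ℝ) (hγ : 0 < γ) (α : Fin (d + 1) → ℝ) (P : ℕ)
    (hbig : 2 * (d + 2) * Kf d γ α ≤ γ * P) (x : Fin (d + 2) → ℕ) (hx : x ∈ SS (d + 2) P) :
    0 ≤ az d γ α x ∧ (az d γ α x : ℝ) ≤ (d + 2) * (Kf d γ α * (P : ℝ) ^ (d + 2)) := by
  have hK := Kf_pos d γ hγ α
  have h1 : ∀ a, 0 ≤ pf d γ α (x a) ∧ pf d γ α (x a) ≤ Kf d γ α * (P : ℝ) ^ (d + 2) := by
    intro a
    have h2 := mem_II.mp (mem_SS.mp hx a)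
    have hn1 : (1 : ℝ) ≤ x a := by exact_mod_cast h2.1.1
    constructor
    · have h3 := pf_ge d γ hγ α (x a) h2.1.1
      refine le_trans ?_ h3
      have h4 : (P : ℝ) ≤ 2 * (d + 2) * x a := by
        have h5 : (P : ℝ) ≤ ((2 * (a : ℕ) + 1 : ℕ) : ℝ) * P := by
          have : (1 : ℝ) ≤ ((2 * (a : ℕ) + 1 : ℕ) : ℝ) := by exact_mod_cast (by omega)
          have hP0 : (0 : ℝ) ≤ P := Nat.cast_nonneg P
          nlinarith
        have h6 : ((2 * (a : ℕ) + 1 : ℕ) : ℝ) * P ≤ 2 * ((d + 2 : ℕ) : ℝ) * x a := by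
          exact_mod_cast h2.2.1
        push_cast at h6
        push_cast at h5
        linarith
      have h7 : Kf d γ α ≤ γ * x a := by
        have h8 : 2 * ((d : ℝ) + 2) * Kf d γ α ≤ 2 * (d + 2) * (γ * x a) := by
          calc 2 * ((d : ℝ) + 2) * Kf d γ α ≤ γ * P := hbig
            _ ≤ γ * (2 * (d + 2) * x a) := mul_le_mul_of_nonneg_left h4 hγ.le
            _ = _ := by ring
        exact le_of_mul_le_mul_left h8 (by positivity)
      have h9 : γ * (x a : ℝ) ^ (d + 2) - Kf d γ α * (x a : ℝ) ^ (d + 1)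
          = (γ * x a - Kf d γ α) * (x a : ℝ) ^ (d + 1) := by ring
      rw [h9]
      exact mul_nonneg (by linarith) (by positivity)
    · refine (le_abs_self _).trans ((pf_le d γ hγ α (x a) h2.1.1).trans ?_)
      refine mul_le_mul_of_nonneg_left ?_ hK.le
      exact pow_le_pow_left₀ (by linarith) (by exact_mod_cast h2.1.2) _
  constructor
  · unfold az
    exact sum_nonneg fun a _ => Int.floor_nonneg.mpr (h1 a).1
  · unfold az
    push_cast
    calc ∑ a, (⌊pf d γ α (x a)⌋ : ℝ) ≤ ∑ a : Fin (d + 2), Kf d γ α * (P : ℝ) ^ (d + 2) :=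
          sum_le_sum fun a _ => (Int.floor_le _).trans (h1 a).2
      _ = _ := by
          rw [sum_const, card_univ, Fintype.card_fin, nsmul_eq_mul]
          push_cast
          ring

theorem pf_back (d : ℕ) (γ : ℝ) (hγ : 0 < γ) (α : Fin (d + 1) → ℝ) (R : ℝ) (hR : 1 ≤ R) (U : ℕ)
    (hU : (U : ℝ) ≤ R) : ∀ t : ℕ, t ≤ U →
    pf d γ α U - t * ((d + 2) * Kf d γ α * R ^ (d + 1)) ≤ pf d γ α (U - t) := by
  intro t
  induction t with
  | zero => intro _; simp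
  | succ t ih =>
    intro ht
    have h1 := ih (by omega)
    have h2 : ((U - (t + 1) : ℕ) : ℝ) + 1 ≤ R := by
      have : ((U - (t + 1) : ℕ) : ℝ) + 1 ≤ (U : ℝ) := by exact_mod_cast (by omega : U - (t + 1) + 1 ≤ U)
      linarith
    have h3 := pf_lip d γ hγ α (U - (t + 1)) R hR h2
    have h4 : U - (t + 1) + 1 = U - t := by omega
    rw [h4] at h3
    have h5 := (abs_le.mp h3).2
    push_cast
    linarith

/-- the window of values near M -/
theorem window_lower (d : ℕ) (γ : ℝ) (hγ : 0 < γ) (α : Fin (d + 1) → ℝ) (X Y P L : ℕ) (R : ℝ)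
    (hR : 1 ≤ R) (hXR : (X : ℝ) ≤ R) (M : ℤ) (hP : 1 ≤ P)
    (hM1 : Kf d γ α * (P : ℝ) ^ (d + 2) ≤ M) (hM2 : (M : ℝ) < pf d γ α X) (hX : 1 ≤ X) (hYP : Y ≤ P)
    (hL : (Y : ℝ) * ((d + 2) * Kf d γ α * R ^ (d + 1)) + 1 ≤ L) :
    ∃ a : ℕ, a + Y ≤ X ∧ 1 ≤ a ∧ ∑ i ∈ range Y, wt (pf d γ α (a + i)) ≤
      ∑ s ∈ range X, if 0 ≤ M - ⌊pf d γ α (1 + s)⌋ ∧ M - ⌊pf d γ α (1 + s)⌋ < L then
        wt (pf d γ α (1 + s)) else 0 := by
  classical
  have hK := Kf_pos d γ hγ α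
  have hex : ∃ n : ℕ, 1 ≤ n ∧ (M : ℝ) < pf d γ α n := ⟨X, hX, hM2⟩
  set U := Nat.find hex with hU
  obtain ⟨hU1, hU2⟩ := Nat.find_spec hex
  rw [← hU] at hU1 hU2
  have hUX : U ≤ X := Nat.find_min' hex ⟨hX, hM2⟩
  have hUmin : ∀ n, 1 ≤ n → n < U → pf d γ α n ≤ M := by
    intro n hn hnU
    by_contra h
    push Not at h
    exact Nat.find_min hex hnU ⟨hn, h⟩
  have hUP : P < U := by
    have h1 : Kf d γ α * (P : ℝ) ^ (d + 2) < Kf d γ α * (U : ℝ) ^ (d + 2) :=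
      lt_of_le_of_lt hM1 (lt_of_lt_of_le hU2 ((le_abs_self _).trans (pf_le d γ hγ α U hU1)))
    have h2 : (P : ℝ) ^ (d + 2) < (U : ℝ) ^ (d + 2) := lt_of_mul_lt_mul_left h1 hK.le
    have h3 : (P : ℝ) < U := lt_of_pow_lt_pow_left₀ (d + 2) (Nat.cast_nonneg _) h2
    exact_mod_cast h3
  have hUR : (U : ℝ) ≤ R := le_trans (by exact_mod_cast hUX) hXR
  refine ⟨U - Y, by omega, by omega, ?_⟩
  rw [← sum_filter]
  have h1 : ∑ i ∈ range Y, wt (pf d γ α (U - Y + i))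
      = ∑ s ∈ (range Y).image (fun i => U - Y - 1 + i), wt (pf d γ α (1 + s)) := by
    rw [sum_image]
    · refine sum_congr rfl fun i _ => ?_
      have : 1 + (U - Y - 1 + i) = U - Y + i := by omega
      rw [this]
    · intro x _ y _ hxy
      simpa using hxy
  rw [h1]
  refine sum_le_sum_of_subset_of_nonneg ?_ fun n _ _ => wt_nonneg _
  intro s hs
  obtain ⟨i, hi, rfl⟩ := mem_image.mp hs
  have hiY := mem_range.mp hi
  have e1 : 1 + (U - Y - 1 + i) = U - (Y - i) := by omega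
  rw [mem_filter, mem_range]
  refine ⟨by omega, ?_⟩
  rw [e1]
  have h2 : pf d γ α (U - (Y - i)) ≤ M := hUmin _ (by omega) (by omega)
  have h3 := pf_back d γ hγ α R hR U hUR (Y - i) (by omega)
  have h4 : ((Y - i : ℕ) : ℝ) * ((d + 2) * Kf d γ α * R ^ (d + 1))
      ≤ (Y : ℝ) * ((d + 2) * Kf d γ α * R ^ (d + 1)) := by
    refine mul_le_mul_of_nonneg_right ?_ (by positivity)
    exact_mod_cast Nat.sub_le Y i
  have h5 : ⌊pf d γ α (U - (Y - i))⌋ ≤ M := by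
    have : (⌊pf d γ α (U - (Y - i))⌋ : ℝ) ≤ M := (Int.floor_le _).trans h2
    exact_mod_cast this
  constructor
  · omega
  · have h6 : pf d γ α (U - (Y - i)) < ⌊pf d γ α (U - (Y - i))⌋ + 1 := Int.lt_floor_add_one _
    have h7 : (M : ℝ) - ⌊pf d γ α (U - (Y - i))⌋ < L := by linarith
    have h8 : ((M - ⌊pf d γ α (U - (Y - i))⌋ : ℤ) : ℝ) < ((L : ℤ) : ℝ) := by
      push_cast
      exact h7
    exact_mod_cast h8

end Pool.Agent.V7H89.GP
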