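import Pool.Agent.V7H89.GP.AsC

/-!
Assembly, third part: all integers of the size P^k are sums of 2k + 1 values.
-/

namespace Pool.Agent.V7H89.GP

open Finset Filter

theorem ev (Kc a : ℝ) (ha : 0 < a) : ∀ᶠ m : ℕ in atTop, Kc ≤ ((2 : ℝ) ^ m) ^ a := by
  have h1 : Tendsto (fun m : ℕ => ((2 : ℝ) ^ m)) atTop atTop :=
    tendsto_pow_atTop_atTop_of_one_lt (by norm_num)
  exact ((tendsto_rpow_atTop ha).comp h1).eventually_ge_atTop Kc

theorem alg1 (Rd R1 D1 bb : ℝ) (h1 : 0 < Rd) (h2 : 0 < R1) (h3 : 0 < D1) :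
    (1 / (2 * (Rd * R1))) * (R1 / (16 * D1) * bb) = bb / (32 * D1 * Rd) := by
  field_simp
  ring

theorem alg2 (d : ℕ) (p kk D1 c : ℝ) (h1 : 0 < p) (h2 : 0 < kk) (h3 : 0 < D1) (h4 : 0 < c) :
    ((p / kk) ^ (d + 2)) ^ 2 / (32 * D1 * (c * p) ^ (d + 1))
      = p ^ (d + 3) / (32 * D1 * kk ^ (2 * (d + 2)) * c ^ (d + 1)) := by
  have e1 : ((p / kk) ^ (d + 2)) ^ 2 = p ^ (d + 3) * p ^ (d + 1) / kk ^ (2 * (d + 2)) := by
    rw [← pow_mul, div_pow, ← pow_add]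
    congr 2 <;> ring
  rw [e1, mul_pow]
  field_simp

/-- the bound for the special variable, for all frequencies -/
theorem special_upper (d : ℕ) (γ : ℝ) (α : Fin (d + 1) → ℝ) (C : ℕ) (hC1 : 1 ≤ C) (σ η : ℝ)
    (hσ : 0 < σ) (hσC : σ * C < 1) (hη : η = (C + 1) * σ) (X0 : ℝ) (hX0 : 1 ≤ X0)
    (hsup : ∀ X β : ℝ, X0 ≤ X → X ^ (C * σ - (d + 2)) ≤ |β| → |β| ≤ X ^ σ → ∀ a n : ℕ,
      ((a + n : ℕ) : ℝ) ≤ X → ‖∑ i ∈ range n, ee (β * pf d γ α (a + i))‖ ≤ X ^ (1 - σ))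
    (R : ℝ) (hR : X0 ≤ R) (hR2 : 2 ≤ R ^ (σ / 4)) (hR3 : 2 ≤ R) (X L : ℕ) (hXR : ((1 + X : ℕ) : ℝ) ≤ R)
    (hL1 : 1 ≤ L) (hL : (L : ℝ) ≤ 2 * R ^ ((d + 2) - η)) (θ : ℝ) (hθ : |θ| ≤ 1 / 2) :
    ‖∑ s ∈ range X, (wt (pf d γ α (1 + s)) : ℂ) * ee (θ * (⌊pf d γ α (1 + s)⌋ : ℝ))‖
      * ‖1 - DL L θ‖ ≤ 18 * R ^ (1 - σ / 4) := by
  have hR1 : 1 ≤ R := hX0.trans hR
  have hR0 : 0 < R := by linarith
  by_cases hc : R ^ (C * σ - (d + 2)) ≤ |θ|
  · have h1 := A0_upper d γ α C hC1 σ hσ hσC X0 hX0 hsup R hR hR2 hR3 1 X hXR θ hθ hc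
    have h2 := DL_two L hL1 θ
    calc _ ≤ (9 * R ^ (1 - σ / 4)) * 2 := mul_le_mul h1 h2 (norm_nonneg _) (by positivity)
      _ = _ := by ring
  · push Not at hc
    have h1 : ‖∑ s ∈ range X, (wt (pf d γ α (1 + s)) : ℂ) * ee (θ * (⌊pf d γ α (1 + s)⌋ : ℝ))‖ ≤ R := by
      calc _ ≤ ∑ s ∈ range X, ‖(wt (pf d γ α (1 + s)) : ℂ) * ee (θ * (⌊pf d γ α (1 + s)⌋ : ℝ))‖ :=
            norm_sum_le _ _
        _ ≤ ∑ s ∈ range X, 1 := by
            refine sum_le_sum fun s _ => ?_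
            rw [norm_mul, norm_ee, mul_one, Complex.norm_real, Real.norm_of_nonneg (wt_nonneg _)]
            exact wt_le_one _
        _ = X := by simp
        _ ≤ R := by
            refine le_trans ?_ hXR
            push_cast
            linarith
    have h2 := DL_near L hL1 θ
    have h3 : (L : ℝ) * |θ| ≤ 2 * R ^ (-σ) := by
      calc (L : ℝ) * |θ| ≤ (2 * R ^ ((d + 2) - η)) * R ^ (C * σ - (d + 2)) :=
            mul_le_mul hL hc.le (abs_nonneg _) (by positivity)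
        _ = 2 * R ^ (-σ) := by
            rw [mul_assoc, ← Real.rpow_add hR0]
            congr 2
            rw [hη]
            ring
    have h4 : ‖1 - DL L θ‖ ≤ 16 * R ^ (-σ) := by linarith
    calc _ ≤ R * (16 * R ^ (-σ)) := mul_le_mul h1 h4 (norm_nonneg _) hR0.le
      _ = 16 * R ^ (1 - σ) := by
          have : R ^ (1 - σ) = R * R ^ (-σ) := by
            rw [sub_eq_add_neg, Real.rpow_add hR0, Real.rpow_one]
          rw [this]
          ring
      _ ≤ 18 * R ^ (1 - σ / 4) := by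
          have h5 : R ^ (1 - σ) ≤ R ^ (1 - σ / 4) :=
            Real.rpow_le_rpow_of_exponent_le hR1 (by linarith)
          have h6 : 0 ≤ R ^ (1 - σ / 4) := by positivity
          linarith

theorem scale (d : ℕ) : ∃ ε : ℝ, 0 < ε ∧ ∀ (γ : ℝ) (α : Fin (d + 1) → ℝ), 0 < γ →
    Dio (α (Fin.last d) / γ) →
    (∃ CT : ℝ, 0 ≤ CT ∧ ∀ m : ℕ,
      (TT d γ (2 ^ m) α : ℝ) ≤ CT * (((2 : ℝ) ^ m) ^ (d + 2) * (2 : ℝ) ^ (ε * m))) →
    ∃ A : ℝ, 0 < A ∧ ∃ m0 : ℕ, ∀ m ≥ m0, ∀ N : ℤ, A * ((2 : ℝ) ^ m) ^ (d + 2) ≤ N →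
      (N : ℝ) < A * ((2 : ℝ) ^ (m + 1)) ^ (d + 2) →
      ∃ s : ℕ, ∃ x ∈ SS (d + 2) (2 ^ m), ∃ y ∈ SS (d + 2) (2 ^ m),
        ⌊pf d γ α (1 + s)⌋ + (az d γ α x + az d γ α y) = N := by
  classical
  obtain ⟨C, hC1, hC⟩ := sup2 d
  have hCR : (1 : ℝ) ≤ C := by exact_mod_cast hC1
  set η : ℝ := 1 / (4 * C) with hη
  set σ1 : ℝ := 2 * η with hσ1
  set σ : ℝ := η / (C + 1) with hσ
  have hη0 : 0 < η := by rw [hη]; positivity
  have hησ : η = (C + 1) * σ := by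
    rw [hσ]
    field_simp
  have hσ0 : 0 < σ := by rw [hσ]; positivity
  have hηC : η * C = 1 / 4 := by
    rw [hη]
    field_simp
  have hσ10 : 0 < σ1 := by rw [hσ1]; positivity
  have hσ1C : σ1 * C < 1 := by rw [hσ1]; linarith
  have hση : σ ≤ η := by
    rw [hσ]
    exact div_le_self hη0.le (by linarith)
  have hσC : σ * C < 1 := by
    have : σ * C ≤ η * C := mul_le_mul_of_nonneg_right hση (by linarith)
    linarith
  have hη14 : η ≤ 1 / 4 := by nlinarith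
  refine ⟨σ / 8, by positivity, ?_⟩
  intro γ α hγ hDio hTT
  obtain ⟨CT, hCT0, hCT⟩ := hTT
  obtain ⟨X0, hX0, hsupA⟩ := hC γ α hγ hDio σ hσ0 hσC
  obtain ⟨X1, hX1, hsupB⟩ := hC γ α hγ hDio σ1 hσ10 hσ1C
  set K : ℝ := Kf d γ α with hK
  have hK0 : 0 < K := Kf_pos d γ hγ α
  set A : ℝ := (2 * (d + 2) + 1) * K with hA
  have hd0 : (0 : ℝ) ≤ d := Nat.cast_nonneg d
  have hA0 : 0 < A := by rw [hA]; positivity
  set c' : ℕ := ⌈2 * A / γ⌉₊ + 1 with hc'
  set c2 : ℕ := 2 * c' with hc2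
  have hc'1 : 1 ≤ c' := by omega
  have hc'A : 2 * A / γ ≤ c' := by
    rw [hc']
    push_cast
    linarith [Nat.le_ceil (2 * A / γ)]
  set D1 : ℝ := 2 * (d + 2) * K + 1 with hD1
  have hD11 : 1 ≤ D1 := by
    rw [hD1]
    have : 0 ≤ 2 * ((d : ℝ) + 2) * K := by positivity
    linarith
  set kk : ℝ := 32 * (d + 2) with hkk
  set C5 : ℝ := 32 * D1 * kk ^ (2 * (d + 2)) * ((c2 : ℝ) + 1) ^ (d + 1) with hC5
  have hkk0 : 0 < kk := by rw [hkk]; positivity
  have hC50 : 0 < C5 := by rw [hC5]; positivity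
  have hc2R : (2 : ℝ) ≤ c2 := by
    rw [hc2]
    push_cast
    have : (1 : ℝ) ≤ c' := by exact_mod_cast hc'1
    linarith
  -- the conditions on m
  have hev : ∀ᶠ m : ℕ in atTop,
      (max X0 X1 ≤ ((2 : ℝ) ^ m) ^ (1 : ℝ)) ∧ (256 * (32 * (d + 2) * (c2 + 1)) ≤ ((2 : ℝ) ^ m) ^ σ1)
      ∧ (2 ≤ ((2 : ℝ) ^ m) ^ (σ / 4)) ∧ (2 * (d + 2) * K / γ + 2 * K / γ + 4 * (d + 2)
        ≤ ((2 : ℝ) ^ m) ^ (1 : ℝ)) ∧ (D1 ≤ ((2 : ℝ) ^ m) ^ (1 - η))
      ∧ (4096 * D1 + (c2 + 1) ≤ ((2 : ℝ) ^ m) ^ η)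
      ∧ (18 * (c2 + 1) * CT * C5 + 1 ≤ ((2 : ℝ) ^ m) ^ (σ / 8)) :=
    (ev _ 1 (by norm_num)).and ((ev _ σ1 hσ10).and ((ev _ (σ / 4) (by positivity)).and
      ((ev _ 1 (by norm_num)).and ((ev _ (1 - η) (by linarith)).and ((ev _ η hη0).and
      (ev _ (σ / 8) (by positivity)))))))
  obtain ⟨m0, hm0⟩ := eventually_atTop.mp hev
  refine ⟨A, hA0, m0, ?_⟩
  intro m hm N hN1 hN2
  obtain ⟨E1, E2, E3, E4, E5, E6, E7⟩ := hm0 m hm
  rw [Real.rpow_one] at E1 E4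
  set p : ℝ := (2 : ℝ) ^ m with hp
  set P : ℕ := 2 ^ m with hP
  have hPp : (P : ℝ) = p := by rw [hP, hp]; push_cast; rfl
  have hP1 : 1 ≤ P := Nat.one_le_two_pow
  have hp1 : 1 ≤ p := by rw [← hPp]; exact_mod_cast hP1
  have hp0 : 0 < p := by linarith
  set X : ℕ := c2 * P with hX
  have hXp : (X : ℝ) = c2 * p := by rw [hX]; push_cast; rw [hPp]
  set R : ℝ := c2 * p + 1 with hR
  have hpR : p ≤ R := by rw [hR]; nlinarith
  have hRp : R ≤ (c2 + 1) * p := by rw [hR]; nlinarith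
  have hR1 : 1 ≤ R := hp1.trans hpR
  have hR0 : 0 < R := by linarith
  have hRX0 : X0 ≤ R := (le_max_left _ _).trans (E1.trans hpR)
  have hRX1 : X1 ≤ R := (le_max_right _ _).trans (E1.trans hpR)
  have hX1R : ((1 + X : ℕ) : ℝ) ≤ R := by
    push_cast
    rw [hXp, hR]
    linarith
  have hRmono : ∀ a : ℝ, 0 ≤ a → p ^ a ≤ R ^ a := fun a ha => Real.rpow_le_rpow hp0.le hpR ha
  have hRσ1 : 256 * (32 * (d + 2) * (c2 + 1)) ≤ R ^ σ1 := E2.trans (hRmono _ hσ10.le)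
  have hR256 : 256 ≤ R ^ σ1 := by
    refine le_trans ?_ hRσ1
    nlinarith
  have hR4 : 2 ≤ R ^ (σ / 4) := E3.trans (hRmono _ (by positivity))
  have hq1 : 0 ≤ 2 * ((d : ℝ) + 2) * K / γ := by positivity
  have hq2 : 0 ≤ 2 * K / γ := by positivity
  have hR3 : 2 ≤ R := by
    have : (2 : ℝ) ≤ 4 * (d + 2) := by linarith
    linarith
  have hRη : 4096 * D1 ≤ R ^ η := by
    have := E6.trans (hRmono _ hη0.le)
    have : (0 : ℝ) ≤ (c2 : ℝ) + 1 := by positivity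
    linarith
  have hp4 : 4 * ((d : ℝ) + 2) ≤ p := by linarith
  -- the weights of short intervals
  have hshort : ∀ a n : ℕ, ((a + n : ℕ) : ℝ) ≤ R →
      (n : ℝ) / 4 - 256 * R ^ (1 - σ1) ≤ ∑ i ∈ range n, wt (pf d γ α (a + i)) :=
    fun a n h => short_lower d γ α C hC1 σ1 hσ10 hσ1C X1 hX1 hsupB R hRX1 hR256 a n h
  -- the tuples
  set b : ℝ := p / kk with hb
  have hb0 : 0 ≤ b := by positivity
  have hRpow1 : R ^ (1 - σ1) = R / R ^ σ1 := by rw [Real.rpow_sub hR0, Real.rpow_one]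
  have htup : ∀ a : Fin (d + 2), b ≤ ∑ n ∈ II (d + 2) P a, wt (pf d γ α n) := by
    intro a
    refine le_trans ?_ (II_lower (d + 2) P a (by omega) a.2 hP1 (fun n => wt (pf d γ α n))
      (fun n => wt_nonneg _))
    set n : ℕ := P / (2 * (d + 2)) with hn
    set u : ℕ := ((2 * (a : ℕ) + 1) * P + (2 * (d + 2) - 1)) / (2 * (d + 2)) with hu
    have h4P : 4 * (d + 2) ≤ P := by
      have : ((4 * (d + 2) : ℕ) : ℝ) ≤ P := by
        rw [hPp]
        push_cast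
        exact hp4
      exact_mod_cast this
    have hn1 : 1 ≤ n := by
      rw [hn, Nat.one_le_div_iff (by omega)]
      omega
    have hnP : P ≤ 4 * (d + 2) * n := by
      have h1 := Nat.div_add_mod P (2 * (d + 2))
      have h2 := Nat.mod_lt P (show 0 < 2 * (d + 2) by omega)
      rw [← hn] at h1
      have h3 : 2 * (d + 2) * 1 ≤ 2 * (d + 2) * n := Nat.mul_le_mul_left _ hn1
      have h4 : 4 * (d + 2) * n = 2 * (2 * (d + 2) * n) := by ring
      omega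
    have hun : u + (n - 1) ≤ P := by
      have := II_sub (d + 2) P a (n - 1) (by omega) a.2 hP1 (by omega)
      exact (mem_II.mp this).1.2
    have hunR : ((u + n : ℕ) : ℝ) ≤ R := by
      have h1 : u + n ≤ P + 1 := by omega
      have h2 : ((u + n : ℕ) : ℝ) ≤ ((P + 1 : ℕ) : ℝ) := by exact_mod_cast h1
      push_cast at h2
      rw [hPp] at h2
      push_cast
      rw [hR]
      nlinarith
    refine le_trans ?_ (hshort u n hunR)
    have h5 : p / (4 * (d + 2)) ≤ n := by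
      rw [div_le_iff₀ (by positivity)]
      have : (P : ℝ) ≤ ((4 * (d + 2) * n : ℕ) : ℝ) := by exact_mod_cast hnP
      rw [hPp] at this
      push_cast at this
      linarith
    have h6 : 256 * R ^ (1 - σ1) ≤ p / (32 * (d + 2)) := by
      rw [hRpow1, mul_div_assoc', div_le_div_iff₀ (by positivity) (by positivity)]
      calc 256 * R * (32 * (d + 2)) ≤ 256 * ((c2 + 1) * p) * (32 * (d + 2)) := by
            refine mul_le_mul_of_nonneg_right ?_ (by positivity)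
            linarith
        _ = p * (256 * (32 * (d + 2) * (c2 + 1))) := by ring
        _ ≤ p * R ^ σ1 := mul_le_mul_of_nonneg_left hRσ1 hp0.le
    have h7 : p / (4 * ((d : ℝ) + 2)) / 4 = 2 * (p / (32 * (d + 2))) := by
      field_simp
      norm_num
    have h8 : b = p / (32 * (d + 2)) := by rw [hb, hkk]
    rw [h8]
    linarith
  have hW := SS_lower (d + 2) P (fun n => wt (pf d γ α n)) b hb0 htup
  -- the length of the average
  have hRk : R ^ (((d : ℝ) + 2) - η) = R ^ (d + 1) * R ^ (1 - η) := by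
    rw [← Real.rpow_natCast R (d + 1), ← Real.rpow_add hR0]
    congr 1
    push_cast
    ring
  have hRk2 : 2 ≤ R ^ (((d : ℝ) + 2) - η) := by
    calc (2 : ℝ) ≤ R ^ (1 : ℝ) := by rw [Real.rpow_one]; exact hR3
      _ ≤ R ^ (((d : ℝ) + 2) - η) := Real.rpow_le_rpow_of_exponent_le hR1 (by linarith)
  set L : ℕ := ⌈R ^ (((d : ℝ) + 2) - η)⌉₊ with hL
  have hLlow : R ^ (((d : ℝ) + 2) - η) ≤ L := Nat.le_ceil _
  have hLup : (L : ℝ) ≤ 2 * R ^ (((d : ℝ) + 2) - η) := by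
    have := Nat.ceil_lt_add_one (show 0 ≤ R ^ (((d : ℝ) + 2) - η) by positivity)
    linarith
  have hL1 : 1 ≤ L := by
    have : (0 : ℝ) < L := by linarith
    exact_mod_cast this
  have hL0 : (0 : ℝ) < L := by exact_mod_cast hL1
  -- the short interval
  set y0 : ℝ := R ^ (1 - η) / D1 with hy0
  have hR1η : D1 ≤ R ^ (1 - η) := E5.trans (hRmono _ (by linarith))
  have hy01 : 1 ≤ y0 := by
    rw [hy0, le_div_iff₀ (by linarith)]
    linarith
  set Y : ℕ := ⌊y0⌋₊ with hY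
  have hYup : (Y : ℝ) ≤ y0 := Nat.floor_le (by linarith)
  have hYlow : y0 / 2 ≤ Y := by
    have h1 := Nat.lt_floor_add_one y0
    have h2 : (1 : ℝ) ≤ Y := by
      have : 1 ≤ Y := Nat.le_floor (by push_cast; exact hy01)
      exact_mod_cast this
    have h3 : y0 < Y + 1 := h1
    linarith
  have hYL : (Y : ℝ) * ((d + 2) * K * R ^ (d + 1)) + 1 ≤ L := by
    have h1 : (Y : ℝ) * ((d + 2) * K) ≤ R ^ (1 - η) / 2 := by
      calc (Y : ℝ) * ((d + 2) * K) ≤ y0 * ((d + 2) * K) :=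
            mul_le_mul_of_nonneg_right hYup (by positivity)
        _ = R ^ (1 - η) * ((d + 2) * K / D1) := by rw [hy0]; ring
        _ ≤ R ^ (1 - η) * (1 / 2) := by
            refine mul_le_mul_of_nonneg_left ?_ (by positivity)
            rw [div_le_div_iff₀ (by linarith) (by norm_num), hD1]
            linarith
        _ = R ^ (1 - η) / 2 := by ring
    have h2 : (Y : ℝ) * ((d + 2) * K * R ^ (d + 1)) ≤ R ^ (((d : ℝ) + 2) - η) / 2 := by
      calc (Y : ℝ) * ((d + 2) * K * R ^ (d + 1)) = (Y * ((d + 2) * K)) * R ^ (d + 1) := by ring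
        _ ≤ (R ^ (1 - η) / 2) * R ^ (d + 1) := mul_le_mul_of_nonneg_right h1 (by positivity)
        _ = R ^ (((d : ℝ) + 2) - η) / 2 := by rw [hRk]; ring
    linarith
  have hYP : Y ≤ P := by
    have h1 : (Y : ℝ) ≤ P := by
      rw [hPp]
      refine hYup.trans ?_
      have h2 : y0 ≤ R ^ (1 - η) := by
        rw [hy0]
        exact div_le_self (by positivity) hD11
      refine h2.trans ?_
      rw [Real.rpow_sub hR0, Real.rpow_one, div_le_iff₀ (by positivity)]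
      have h3 : ((c2 : ℝ) + 1) ≤ R ^ η := by
        have := E6.trans (hRmono _ hη0.le)
        linarith
      calc R ≤ (c2 + 1) * p := hRp
        _ ≤ R ^ η * p := mul_le_mul_of_nonneg_right h3 hp0.le
        _ = p * R ^ η := by ring
    exact_mod_cast h1
  -- the sum over the special variable
  set κ : ℝ := R ^ (1 - η) / (16 * D1) with hκ
  have hκ0 : 0 ≤ κ := by positivity
  have hκY : κ ≤ (Y : ℝ) / 4 - 256 * R ^ (1 - σ1) := by
    have h1 : R ^ (1 - η) = R ^ (1 - σ1) * R ^ η := by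
      rw [← Real.rpow_add hR0]
      congr 1
      rw [hσ1]
      ring
    have h2 : 256 * R ^ (1 - σ1) ≤ R ^ (1 - η) / (16 * D1) := by
      rw [le_div_iff₀ (by positivity), h1]
      have h3 : 0 < R ^ (1 - σ1) := by positivity
      calc 256 * R ^ (1 - σ1) * (16 * D1) = R ^ (1 - σ1) * (4096 * D1) := by ring
        _ ≤ R ^ (1 - σ1) * R ^ η := mul_le_mul_of_nonneg_left hRη h3.le
    have h4 : y0 / 2 / 4 = 2 * κ := by
      rw [hy0, hκ]
      field_simp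
      norm_num
    linarith
  have hbig : 2 * (d + 2) * Kf d γ α ≤ γ * P := by
    rw [hPp]
    have h1 : 2 * ((d : ℝ) + 2) * K / γ ≤ p := by linarith
    rw [div_le_iff₀ hγ] at h1
    linarith
  have hpfX : A * ((2 : ℝ) ^ (m + 1)) ^ (d + 2) ≤ pf d γ α X := by
    have hX1' : 1 ≤ X := by
      have : (0 : ℝ) < X := by rw [hXp]; positivity
      exact_mod_cast this
    have h1 := pf_ge d γ hγ α X hX1'
    refine le_trans ?_ h1
    have h2 : K ≤ γ / 2 * X := by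
      have h3 : 2 * K / γ ≤ p := by linarith
      rw [div_le_iff₀ hγ] at h3
      rw [hXp]
      nlinarith
    have h4 : γ * (X : ℝ) ^ (d + 2) - Kf d γ α * (X : ℝ) ^ (d + 1)
        = (γ * X - K) * (X : ℝ) ^ (d + 1) := by ring
    rw [h4]
    have h5 : γ / 2 * X * (X : ℝ) ^ (d + 1) ≤ (γ * X - K) * (X : ℝ) ^ (d + 1) :=
      mul_le_mul_of_nonneg_right (by linarith) (by positivity)
    refine le_trans ?_ h5
    have h6 : γ / 2 * X * (X : ℝ) ^ (d + 1) = γ / 2 * (c' : ℝ) ^ (d + 2) * (2 * p) ^ (d + 2) := by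
      rw [hXp, hc2]
      push_cast
      ring
    rw [h6]
    have h7 : (2 : ℝ) ^ (m + 1) = 2 * p := by rw [hp]; ring
    rw [h7]
    refine mul_le_mul_of_nonneg_right ?_ (by positivity)
    have h8 : (c' : ℝ) ≤ (c' : ℝ) ^ (d + 2) := le_self_pow₀ (by exact_mod_cast hc'1) (by omega)
    have h9 : A ≤ γ / 2 * c' := by
      rw [div_le_iff₀ hγ] at hc'A
      linarith
    have h10 : γ / 2 * (c' : ℝ) ≤ γ / 2 * (c' : ℝ) ^ (d + 2) :=
      mul_le_mul_of_nonneg_left h8 (by positivity)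
    linarith
  have hX1' : 1 ≤ X := by
    have : (0 : ℝ) < X := by rw [hXp]; positivity
    exact_mod_cast this
  have hXR : (X : ℝ) ≤ R := by rw [hXp, hR]; linarith
  have hκall : ∀ x ∈ SS (d + 2) P, ∀ y ∈ SS (d + 2) P,
      κ ≤ ∑ s ∈ range X, if 0 ≤ N - (az d γ α x + az d γ α y) - ⌊pf d γ α (1 + s)⌋ ∧
        N - (az d γ α x + az d γ α y) - ⌊pf d γ α (1 + s)⌋ < L then wt (pf d γ α (1 + s)) else 0 := by
    intro x hx y hy
    have hbx := az_bounds d γ hγ α P hbig x hx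
    have hby := az_bounds d γ hγ α P hbig y hy
    rw [hPp] at hbx hby
    have hx0 : (0 : ℝ) ≤ az d γ α x := by exact_mod_cast hbx.1
    have hy0' : (0 : ℝ) ≤ az d γ α y := by exact_mod_cast hby.1
    obtain ⟨a, ha1, _, ha3⟩ := window_lower d γ hγ α X Y P L R hR1 hXR
      (N - (az d γ α x + az d γ α y)) hP1 (by
        rw [hPp]
        push_cast
        have h1 : A * p ^ (d + 2) = (2 * (d + 2) + 1) * (K * p ^ (d + 2)) := by rw [hA]; ring
        rw [h1] at hN1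
        have h2 : Kf d γ α * p ^ (d + 2) = K * p ^ (d + 2) := rfl
        rw [h2]
        have h3 := hbx.2
        have h4 := hby.2
        rw [h2] at h3 h4
        linarith) (by
        push_cast
        linarith) hX1' hYP hYL
    refine le_trans ?_ ha3
    refine hκY.trans (hshort a Y ?_)
    have : ((a + Y : ℕ) : ℝ) ≤ X := by exact_mod_cast ha1
    linarith
  -- the average from below
  set W : (Fin (d + 2) → ℕ) → ℝ := fun x => ∏ a, wt (pf d γ α (x a)) with hWdef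
  have hW0 : ∀ x ∈ SS (d + 2) P, 0 ≤ W x := fun x _ => prod_nonneg fun a _ => wt_nonneg _
  have hW1 : ∀ x ∈ SS (d + 2) P, W x ≤ 1 := fun x _ =>
    prod_le_one (fun a _ => wt_nonneg _) fun a _ => wt_le_one _
  have hlow := avg_lower (range X) (SS (d + 2) P) (fun s => wt (pf d γ α (1 + s))) W
    (fun s => ⌊pf d γ α (1 + s)⌋) (az d γ α) (fun s _ => wt_nonneg _) hW0 N L κ hκall
  have hB := fun θ hθ => special_upper d γ α C hC1 σ η hσ0 hσC hησ X0 hX0 hsupA R hRX0 hR4 hR3 X L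
    hX1R hL1 hLup θ hθ
  have hdiff := smooth3 (range X) (SS (d + 2) P) (fun s => wt (pf d γ α (1 + s))) W
    (fun s => ⌊pf d γ α (1 + s)⌋) (az d γ α) hW0 hW1 N L hL1 (18 * R ^ (1 - σ / 4)) hB
  -- the comparison
  have hcard : ((((SS (d + 2) P) ×ˢ (SS (d + 2) P)).filter
      (fun p => az d γ α p.1 = az d γ α p.2)).card : ℝ) ≤ CT * (p ^ (d + 2) * p ^ (σ / 8)) := by
    have h1 : ((((SS (d + 2) P) ×ˢ (SS (d + 2) P)).filter
      (fun p => az d γ α p.1 = az d γ α p.2)).card : ℝ) ≤ (TT d γ P α : ℝ) := by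
      exact_mod_cast az_card d γ α P
    refine h1.trans ((hCT m).trans (le_of_eq ?_))
    have h2 : (2 : ℝ) ^ (σ / 8 * m) = p ^ (σ / 8) := by
      rw [hp, ← Real.rpow_natCast 2 m, ← Real.rpow_mul (by norm_num)]
      congr 1
      ring
    rw [h2]
  have herr : 18 * R ^ (1 - σ / 4) * ((((SS (d + 2) P) ×ˢ (SS (d + 2) P)).filter
      (fun p => az d γ α p.1 = az d γ α p.2)).card : ℝ)
      ≤ 18 * (c2 + 1) * CT * p ^ (d + 3) / p ^ (σ / 8) := by
    have h1 : R ^ (1 - σ / 4) ≤ (c2 + 1) * p ^ (1 - σ / 4) := by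
      calc R ^ (1 - σ / 4) ≤ ((c2 + 1) * p) ^ (1 - σ / 4) :=
            Real.rpow_le_rpow hR0.le hRp (by linarith)
        _ = (c2 + 1) ^ (1 - σ / 4) * p ^ (1 - σ / 4) := Real.mul_rpow (by positivity) hp0.le
        _ ≤ (c2 + 1) * p ^ (1 - σ / 4) := by
            refine mul_le_mul_of_nonneg_right ?_ (by positivity)
            calc ((c2 : ℝ) + 1) ^ (1 - σ / 4) ≤ ((c2 : ℝ) + 1) ^ (1 : ℝ) :=
                  Real.rpow_le_rpow_of_exponent_le (by linarith) (by linarith)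
              _ = c2 + 1 := Real.rpow_one _
    calc _ ≤ 18 * ((c2 + 1) * p ^ (1 - σ / 4)) * (CT * (p ^ (d + 2) * p ^ (σ / 8))) := by
          refine mul_le_mul ?_ hcard (Nat.cast_nonneg _) (by positivity)
          linarith
      _ = 18 * (c2 + 1) * CT * (p ^ (d + 2) * (p ^ (1 - σ / 4) * p ^ (σ / 8))) := by ring
      _ = 18 * (c2 + 1) * CT * p ^ (d + 3) / p ^ (σ / 8) := by
          have h2 : p ^ (1 - σ / 4) * p ^ (σ / 8) = p / p ^ (σ / 8) := by
            rw [← Real.rpow_add hp0, show 1 - σ / 4 + σ / 8 = 1 - σ / 8 by ring,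
              Real.rpow_sub hp0, Real.rpow_one]
          rw [h2]
          ring
  have hmain : p ^ (d + 3) / C5 ≤ (1 / L) * (κ * (∑ x ∈ SS (d + 2) P, W x) ^ 2) := by
    have h1 : b ^ (d + 2) ≤ ∑ x ∈ SS (d + 2) P, W x := hW
    have h2 : (b ^ (d + 2)) ^ 2 ≤ (∑ x ∈ SS (d + 2) P, W x) ^ 2 :=
      pow_le_pow_left₀ (by positivity) h1 2
    have h3 : 1 / (2 * R ^ (((d : ℝ) + 2) - η)) ≤ 1 / (L : ℝ) :=
      one_div_le_one_div_of_le hL0 hLup
    have h4 : (1 / (2 * R ^ (((d : ℝ) + 2) - η))) * (κ * (b ^ (d + 2)) ^ 2)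
        ≤ (1 / L) * (κ * (∑ x ∈ SS (d + 2) P, W x) ^ 2) :=
      mul_le_mul h3 (mul_le_mul_of_nonneg_left h2 hκ0) (by positivity) (by positivity)
    refine le_trans ?_ h4
    have h5 : (1 / (2 * R ^ (((d : ℝ) + 2) - η))) * (κ * (b ^ (d + 2)) ^ 2)
        = (b ^ (d + 2)) ^ 2 / (32 * D1 * R ^ (d + 1)) := by
      rw [hRk, hκ]
      exact alg1 _ _ _ _ (by positivity) (by positivity) (by positivity)
    rw [h5]
    have h6 : R ^ (d + 1) ≤ ((c2 + 1) * p) ^ (d + 1) := pow_le_pow_left₀ hR0.le hRp _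
    have h7 : (b ^ (d + 2)) ^ 2 / (32 * D1 * ((c2 + 1) * p) ^ (d + 1))
        ≤ (b ^ (d + 2)) ^ 2 / (32 * D1 * R ^ (d + 1)) := by
      refine div_le_div_of_nonneg_left (by positivity) (by positivity) ?_
      exact mul_le_mul_of_nonneg_left h6 (by positivity)
    refine le_trans (le_of_eq ?_) h7
    rw [hb, hC5]
    exact (alg2 d p kk D1 ((c2 : ℝ) + 1) hp0 hkk0 (by positivity) (by positivity)).symm
  have hfinal : 18 * (c2 + 1) * CT * p ^ (d + 3) / p ^ (σ / 8) < p ^ (d + 3) / C5 := by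
    rw [div_lt_div_iff₀ (by positivity) hC50]
    have hpp : 0 < p ^ (d + 3) := by positivity
    calc 18 * (c2 + 1) * CT * p ^ (d + 3) * C5 = p ^ (d + 3) * (18 * (c2 + 1) * CT * C5) := by ring
      _ < p ^ (d + 3) * p ^ (σ / 8) := mul_lt_mul_of_pos_left (by linarith) hpp
  have hpos : 0 < rp (range X ×ˢ (SS (d + 2) P ×ˢ SS (d + 2) P))
      (fun t => wt (pf d γ α (1 + t.1)) * (W t.2.1 * W t.2.2))
      (fun t => ⌊pf d γ α (1 + t.1)⌋ + (az d γ α t.2.1 + az d γ α t.2.2)) N := by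
    have h1 := (abs_le.mp hdiff).1
    linarith
  unfold rp at hpos
  obtain ⟨t, ht, htpos⟩ := exists_lt_of_sum_lt (s := range X ×ˢ (SS (d + 2) P ×ˢ SS (d + 2) P))
    (f := fun _ => (0 : ℝ)) (by simpa using hpos)
  rw [mem_product, mem_product] at ht
  by_cases hz : ⌊pf d γ α (1 + t.1)⌋ + (az d γ α t.2.1 + az d γ α t.2.2) = N
  · exact ⟨t.1, t.2.1, ht.2.1, t.2.2, ht.2.2, hz⟩
  · rw [if_neg hz] at htpos
    exact absurd htpos (lt_irrefl _)

end Pool.Agent.V7H89.GP
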