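import Pool.Agent.V7H89.GP.AsD
import Pool.Agent.V7H18.RP.DioAE

/-!
The theorem for all large integers.
-/

namespace Pool.Agent.V7H89.GP

open Finset Filter MeasureTheory

/-- a scale for N -/
theorem exists_scale (A : ℝ) (hA : 0 < A) (k m0 : ℕ) (hk : 1 ≤ k) (N : ℝ)
    (hN : A * ((2 : ℝ) ^ m0) ^ k ≤ N) : ∃ m ≥ m0, A * ((2 : ℝ) ^ m) ^ k ≤ N ∧
      N < A * ((2 : ℝ) ^ (m + 1)) ^ k := by
  classical
  have hex : ∃ m : ℕ, m0 ≤ m ∧ N < A * ((2 : ℝ) ^ (m + 1)) ^ k := by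
    obtain ⟨n, hn⟩ := exists_nat_gt (N / A)
    refine ⟨max m0 n, le_max_left _ _, ?_⟩
    rw [div_lt_iff₀ hA] at hn
    refine lt_of_lt_of_le hn ?_
    rw [mul_comm]
    refine mul_le_mul_of_nonneg_left ?_ hA.le
    have h1 : (n : ℝ) ≤ 2 ^ n := by exact_mod_cast (Nat.lt_two_pow_self).le
    have h2 : (2 : ℝ) ^ n ≤ 2 ^ (max m0 n + 1) :=
      pow_le_pow_right₀ (by norm_num) (by have := le_max_right m0 n; omega)
    have h3 : (2 : ℝ) ^ (max m0 n + 1) ≤ ((2 : ℝ) ^ (max m0 n + 1)) ^ k :=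
      le_self_pow₀ (one_le_pow₀ (by norm_num)) (by omega)
    linarith
  set m := Nat.find hex with hm
  obtain ⟨h1, h2⟩ := Nat.find_spec hex
  rw [← hm] at h1 h2
  refine ⟨m, h1, ?_, h2⟩
  by_contra h
  push Not at h
  rcases Nat.lt_or_ge m0 m with h3 | h3
  · have h4 := Nat.find_min hex (show m - 1 < Nat.find hex by omega)
    apply h4
    refine ⟨by omega, ?_⟩
    have : m - 1 + 1 = m := by omega
    rw [this]
    exact h
  · have : m = m0 := by omega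
    rw [this] at h
    linarith

/-- joining the tuples -/
theorem join (k : ℕ) (g : ℕ → ℤ) (n0 : ℕ) (x y : Fin k → ℕ) (h0 : 1 ≤ n0) (hx : ∀ a, 1 ≤ x a)
    (hy : ∀ a, 1 ≤ y a) : ∃ n : Fin (2 * k + 1) → ℕ, (∀ i, 1 ≤ n i) ∧
      ∑ i, g (n i) = g n0 + (∑ a, g (x a) + ∑ a, g (y a)) := by
  have he : 2 * k + 1 = k + k + 1 := by ring
  set n' : Fin (k + k + 1) → ℕ := Fin.cons n0 (Fin.append x y) with hn'
  have hn1 : ∀ i : Fin (k + k + 1), 1 ≤ n' i := by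
    intro i
    rw [hn']
    refine Fin.cases ?_ (fun j => ?_) i
    · rw [Fin.cons_zero]
      exact h0
    · rw [Fin.cons_succ]
      refine Fin.addCases (fun a => ?_) (fun a => ?_) j
      · rw [Fin.append_left]
        exact hx a
      · rw [Fin.append_right]
        exact hy a
  refine ⟨fun i => n' (finCongr he i), fun i => hn1 _, ?_⟩
  · rw [Equiv.sum_comp (finCongr he) (fun i => g (n' i)), Fin.sum_univ_succ, Fin.sum_univ_add, hn']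
    simp only [Fin.cons_zero, Fin.cons_succ, Fin.append_left, Fin.append_right]

theorem final_d (d : ℕ) (γ : ℝ) (hγ : 0 < γ) : ∀ᵐ α : Fin (d + 1) → ℝ, ∃ N0 : ℕ, ∀ N : ℕ, N0 ≤ N →
    ∃ n : Fin (2 * (d + 2) + 1) → ℕ, (∀ i, 1 ≤ n i) ∧ ∑ i, ⌊pf d γ α (n i)⌋ = (N : ℤ) := by
  obtain ⟨ε, hε, hsc⟩ := scale d
  filter_upwards [TT_ae d γ ε hγ hε, Pool.Agent.V7H18.RP.dio_ae d γ hγ] with α h1 h2
  obtain ⟨A, hA, m0, hm0⟩ := hsc γ α hγ h2 h1
  refine ⟨⌈A * ((2 : ℝ) ^ m0) ^ (d + 2)⌉₊, ?_⟩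
  intro N hN
  have hN' : A * ((2 : ℝ) ^ m0) ^ (d + 2) ≤ (N : ℝ) :=
    (Nat.le_ceil _).trans (by exact_mod_cast hN)
  obtain ⟨m, hm, h3, h4⟩ := exists_scale A hA (d + 2) m0 (by omega) N hN'
  obtain ⟨s, x, hx, y, hy, h5⟩ := hm0 m hm (N : ℤ) (by push_cast; exact h3) (by push_cast; exact h4)
  obtain ⟨n, hn1, hn2⟩ := join (d + 2) (fun n => ⌊pf d γ α n⌋) (1 + s) x y (by omega)
    (fun a => (mem_II.mp (mem_SS.mp hx a)).1.1) (fun a => (mem_II.mp (mem_SS.mp hy a)).1.1)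
  refine ⟨n, hn1, ?_⟩
  rw [← h5]
  exact hn2

end Pool.Agent.V7H89.GP
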