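import Pool.Agent.V7H89.GP.WeylD

/-!
Fejer approximation of Lipschitz functions on the circle by sums of e(h x), in a finite form, and
the exponential sums with the integer parts of f(n).
-/

namespace Pool.Agent.V7H89.GP

open Finset

/-- the kernel |sum over l < H of e(l y)|^2 / H -/
noncomputable def fk (H : ℕ) (y : ℝ) : ℝ := ‖∑ l ∈ range H, ee (l * y)‖ ^ 2 / H

theorem fk_nonneg (H : ℕ) (y : ℝ) : 0 ≤ fk H y := by
  unfold fk
  positivity

theorem fk_dn (H : ℕ) (y : ℝ) (hH : 1 ≤ H) : dn y ^ 2 * fk H y ≤ 1 / (4 * H) := by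
  have hH0 : (0 : ℝ) < H := by exact_mod_cast hH
  have h1 := geom y 0 H
  have h2 : ∑ i ∈ range H, ee (y * i + 0) = ∑ l ∈ range H, ee (l * y) :=
    sum_congr rfl fun i _ => by
      congr 1
      ring
  rw [h2] at h1
  have h3 : dn y * ‖∑ l ∈ range H, ee (l * y)‖ ≤ 1 / 2 := by linarith
  have h4 : (dn y * ‖∑ l ∈ range H, ee (l * y)‖) ^ 2 ≤ (1 / 2) ^ 2 :=
    pow_le_pow_left₀ (mul_nonneg (dn_nonneg _) (norm_nonneg _)) h3 2
  unfold fk
  rw [← mul_div_assoc, div_le_div_iff₀ hH0 (by positivity)]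
  rw [mul_pow] at h4
  nlinarith

theorem fk_expand (H : ℕ) (y : ℝ) : ((fk H y : ℝ) : ℂ)
    = (1 / (H : ℂ)) * ∑ l ∈ range H, ∑ l' ∈ range H, ee (((l : ℝ) - l') * y) := by
  unfold fk
  push_cast
  have h1 : ((‖∑ l ∈ range H, ee (l * y)‖ : ℂ)) ^ 2
      = (∑ l ∈ range H, ee (l * y)) * (starRingEnd ℂ) (∑ l ∈ range H, ee (l * y)) := by
    rw [Complex.mul_conj, Complex.normSq_eq_norm_sq]
    push_cast
    rfl
  rw [h1, map_sum, sum_mul_sum, div_eq_mul_one_div, mul_comm]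
  congr 1
  refine sum_congr rfl fun l _ => sum_congr rfl fun l' _ => ?_
  rw [conj_ee, ← ee_add]
  congr 1
  ring

theorem root_sum (H : ℕ) (m : ℤ) (hm : m ≠ 0) (hm2 : |m| < H) :
    ∑ j ∈ range H, ee ((m : ℝ) * (j / H)) = 0 := by
  have hH : 0 < H := by
    have := abs_nonneg m
    omega
  have hH0 : (H : ℝ) ≠ 0 := by exact_mod_cast hH.ne'
  have h1 : (∑ j ∈ range H, ee ((m : ℝ) * (j / H))) * (ee ((m : ℝ) / H) - 1) = 0 := by
    have h2 : ∀ n : ℕ, (∑ j ∈ range n, ee ((m : ℝ) * (j / H))) * (ee ((m : ℝ) / H) - 1)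
        = ee ((m : ℝ) * (n / H)) - 1 := by
      intro n
      induction n with
      | zero => simp [ee_zero]
      | succ n ih =>
        rw [sum_range_succ, add_mul, ih]
        have h3 : ee ((m : ℝ) * (((n + 1 : ℕ) : ℝ) / H)) = ee ((m : ℝ) * (n / H)) * ee ((m : ℝ) / H) := by
          rw [← ee_add]
          congr 1
          push_cast
          ring
        rw [h3]
        ring
    rw [h2 H]
    have h4 : (m : ℝ) * ((H : ℝ) / H) = (m : ℤ) := by
      rw [div_self hH0]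
      simp
    rw [h4, ee_int, sub_self]
  rcases mul_eq_zero.mp h1 with h | h
  · exact h
  · exfalso
    have h5 : 4 * dn ((m : ℝ) / H) ≤ ‖ee ((m : ℝ) / H) - 1‖ := ee_ge _
    rw [h, norm_zero] at h5
    have h6 : dn ((m : ℝ) / H) = 0 := le_antisymm (by linarith) (dn_nonneg _)
    unfold dn at h6
    rw [abs_eq_zero, sub_eq_zero] at h6
    set t : ℤ := round ((m : ℝ) / H) with ht
    have h7 : (m : ℝ) = t * H := by
      rw [div_eq_iff hH0] at h6
      exact h6
    have h8 : m = t * (H : ℤ) := by exact_mod_cast h7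
    have h9 : t ≠ 0 := by
      intro h0
      rw [h0, zero_mul] at h8
      exact hm h8
    have h10 : (H : ℤ) ≤ |m| := by
      rw [h8, abs_mul, Nat.abs_cast]
      have : 1 ≤ |t| := Int.one_le_abs h9
      nlinarith
    omega

theorem fk_sum (H : ℕ) (x : ℝ) (hH : 1 ≤ H) : ∑ j ∈ range H, fk H (x - j / H) = H := by
  have hHC : (H : ℂ) ≠ 0 := by
    have : H ≠ 0 := by omega
    exact_mod_cast this
  have h1 : ((∑ j ∈ range H, fk H (x - j / H) : ℝ) : ℂ) = (H : ℂ) := by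
    push_cast
    have e1 : ∀ j ∈ range H, ((fk H (x - j / H) : ℝ) : ℂ)
        = (1 / (H : ℂ)) * ∑ l ∈ range H, ∑ l' ∈ range H, ee (((l : ℝ) - l') * x)
          * ee ((((l' : ℤ) - (l : ℤ) : ℤ) : ℝ) * (j / H)) := by
      intro j _
      rw [fk_expand]
      congr 1
      refine sum_congr rfl fun l _ => sum_congr rfl fun l' _ => ?_
      rw [← ee_add]
      congr 1
      push_cast
      ring
    rw [sum_congr rfl e1, ← mul_sum, sum_comm]
    have e2 : ∀ l ∈ range H, ∑ j ∈ range H, ∑ l' ∈ range H, ee (((l : ℝ) - l') * x)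
          * ee ((((l' : ℤ) - (l : ℤ) : ℤ) : ℝ) * (j / H)) = H := by
      intro l hl
      rw [sum_comm]
      rw [sum_eq_single l]
      · simp [ee_zero]
      · intro l' hl' hne
        rw [← mul_sum, root_sum H ((l' : ℤ) - l) ?_ ?_, mul_zero]
        · intro h
          apply hne
          omega
        · have := mem_range.mp hl
          have := mem_range.mp hl'
          rw [abs_lt]
          constructor <;> omega
      · intro h
        exact absurd hl h
    rw [sum_congr rfl e2, sum_const, card_range, nsmul_eq_mul]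
    field_simp
  exact_mod_cast h1

/-- the coefficients -/
noncomputable def bco (H : ℕ) (ψ : ℝ → ℂ) (l l' : ℕ) : ℂ :=
  (1 / (H : ℂ)) * ((1 / (H : ℂ)) * ∑ j ∈ range H, ψ (j / H) * ee (-(((l : ℝ) - l') * (j / H))))

theorem bco_norm (H : ℕ) (ψ : ℝ → ℂ) (hH : 1 ≤ H) (hψ : ∀ x, ‖ψ x‖ ≤ 1) (l l' : ℕ) :
    ‖bco H ψ l l'‖ ≤ 1 / H := by
  have hH0 : (0 : ℝ) < H := by exact_mod_cast hH
  unfold bco
  rw [norm_mul, norm_mul, norm_div, norm_one, Complex.norm_natCast]
  have h1 : ‖∑ j ∈ range H, ψ (j / H) * ee (-(((l : ℝ) - l') * (j / H)))‖ ≤ H := by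
    calc _ ≤ ∑ j ∈ range H, ‖ψ (j / H) * ee (-(((l : ℝ) - l') * (j / H)))‖ := norm_sum_le _ _
      _ ≤ ∑ j ∈ range H, 1 := sum_le_sum fun j _ => by
          rw [norm_mul, norm_ee, mul_one]
          exact hψ _
      _ = H := by simp
  have h2 : 1 / (H : ℝ) * ‖∑ j ∈ range H, ψ (j / H) * ee (-(((l : ℝ) - l') * (j / H)))‖ ≤ 1 := by
    rw [one_div, inv_mul_le_iff₀ hH0, mul_one]
    exact h1
  calc 1 / (H : ℝ) * (1 / H * ‖∑ j ∈ range H, ψ (j / H) * ee (-(((l : ℝ) - l') * (j / H)))‖)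
      ≤ 1 / (H : ℝ) * 1 := mul_le_mul_of_nonneg_left h2 (by positivity)
    _ = 1 / H := mul_one _

theorem fejer (G : ℕ) (hG : 1 ≤ G) (ψ : ℝ → ℂ) (Lam : ℝ) (hLam : 0 ≤ Lam)
    (hψ : ∀ x y, ‖ψ x - ψ y‖ ≤ Lam * dn (x - y)) (x : ℝ) :
    ‖ψ x - ∑ l ∈ range (G ^ 2), ∑ l' ∈ range (G ^ 2), bco (G ^ 2) ψ l l' * ee (((l : ℝ) - l') * x)‖
      ≤ Lam / (2 * G) := by
  set H : ℕ := G ^ 2 with hH
  have hG0 : (0 : ℝ) < G := by exact_mod_cast hG
  have hH1 : 1 ≤ H := Nat.one_le_pow _ _ hG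
  have hH0 : (0 : ℝ) < H := by exact_mod_cast hH1
  have hHC : (H : ℂ) ≠ 0 := by exact_mod_cast hH0.ne'
  have e1 : ∑ l ∈ range H, ∑ l' ∈ range H, bco H ψ l l' * ee (((l : ℝ) - l') * x)
      = (1 / (H : ℂ)) * ∑ j ∈ range H, ψ (j / H) * ((fk H (x - j / H) : ℝ) : ℂ) := by
    have e2 : ∀ j ∈ range H, ψ (j / H) * ((fk H (x - j / H) : ℝ) : ℂ)
        = ∑ l ∈ range H, ∑ l' ∈ range H, (1 / (H : ℂ)) * (ψ (j / H)
          * ee (-(((l : ℝ) - l') * (j / H)))) * ee (((l : ℝ) - l') * x) := by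
      intro j _
      rw [fk_expand, mul_sum, mul_sum]
      refine sum_congr rfl fun l _ => ?_
      rw [mul_sum, mul_sum]
      refine sum_congr rfl fun l' _ => ?_
      have : ee (((l : ℝ) - l') * (x - j / H))
          = ee (-(((l : ℝ) - l') * (j / H))) * ee (((l : ℝ) - l') * x) := by
        rw [← ee_add]
        congr 1
        ring
      rw [this]
      ring
    have e5 : ∀ F : ℕ → ℕ → ℕ → ℂ, ∑ j ∈ range H, ∑ l ∈ range H, ∑ l' ∈ range H, F j l l'
        = ∑ l ∈ range H, ∑ l' ∈ range H, ∑ j ∈ range H, F j l l' := by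
      intro F
      rw [sum_comm]
      exact sum_congr rfl fun l _ => sum_comm
    rw [sum_congr rfl e2, e5, mul_sum]
    refine sum_congr rfl fun l _ => ?_
    rw [mul_sum]
    refine sum_congr rfl fun l' _ => ?_
    unfold bco
    rw [mul_sum, mul_sum, sum_mul, mul_sum]
    refine sum_congr rfl fun j _ => ?_
    ring
  rw [e1]
  have e3 : ψ x = (1 / (H : ℂ)) * ∑ j ∈ range H, ψ x * ((fk H (x - j / H) : ℝ) : ℂ) := by
    rw [← mul_sum, ← Complex.ofReal_sum, fk_sum H x hH1]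
    push_cast
    field_simp
  rw [e3, ← mul_sub, ← sum_sub_distrib, norm_mul, norm_div, norm_one, Complex.norm_natCast]
  have e4 : ∀ j ∈ range H, ‖ψ x * ((fk H (x - j / H) : ℝ) : ℂ) - ψ (j / H) * ((fk H (x - j / H) : ℝ) : ℂ)‖
      ≤ Lam * (1 / (4 * G)) * fk H (x - j / H) + Lam * (1 / (4 * G)) := by
    intro j _
    rw [← sub_mul, norm_mul, Complex.norm_real, Real.norm_of_nonneg (fk_nonneg _ _)]
    set t := dn (x - j / H) with ht
    have h1 : t ≤ 1 / (4 * G) + G * t ^ 2 := by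
      have : 0 ≤ (2 * G * t - 1) ^ 2 := sq_nonneg _
      have h2 : 1 / (4 * (G : ℝ)) + G * t ^ 2 - t = (2 * G * t - 1) ^ 2 / (4 * G) := by
        field_simp
        ring
      have h3 : 0 ≤ (2 * G * t - 1) ^ 2 / (4 * (G : ℝ)) := by positivity
      linarith
    have h2 := fk_dn H (x - j / H) hH1
    have h3 : t * fk H (x - j / H) ≤ 1 / (4 * G) * fk H (x - j / H) + 1 / (4 * G) := by
      calc t * fk H (x - j / H) ≤ (1 / (4 * G) + G * t ^ 2) * fk H (x - j / H) :=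
            mul_le_mul_of_nonneg_right h1 (fk_nonneg _ _)
        _ = 1 / (4 * G) * fk H (x - j / H) + G * (t ^ 2 * fk H (x - j / H)) := by ring
        _ ≤ 1 / (4 * G) * fk H (x - j / H) + G * (1 / (4 * H)) := by
            have := mul_le_mul_of_nonneg_left h2 hG0.le
            linarith
        _ = 1 / (4 * G) * fk H (x - j / H) + 1 / (4 * G) := by
            rw [hH]
            push_cast
            field_simp
    calc ‖ψ x - ψ (j / H)‖ * fk H (x - j / H) ≤ (Lam * t) * fk H (x - j / H) :=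
          mul_le_mul_of_nonneg_right (hψ _ _) (fk_nonneg _ _)
      _ = Lam * (t * fk H (x - j / H)) := by ring
      _ ≤ Lam * (1 / (4 * G) * fk H (x - j / H) + 1 / (4 * G)) :=
          mul_le_mul_of_nonneg_left h3 hLam
      _ = _ := by ring
  have h5 : ‖∑ j ∈ range H, (ψ x * ((fk H (x - j / H) : ℝ) : ℂ) - ψ (j / H)
      * ((fk H (x - j / H) : ℝ) : ℂ))‖ ≤ H * (Lam * (1 / (2 * G))) := by
    calc _ ≤ ∑ j ∈ range H, ‖ψ x * ((fk H (x - j / H) : ℝ) : ℂ) - ψ (j / H)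
          * ((fk H (x - j / H) : ℝ) : ℂ)‖ := norm_sum_le _ _
      _ ≤ ∑ j ∈ range H, (Lam * (1 / (4 * G)) * fk H (x - j / H) + Lam * (1 / (4 * G))) :=
          sum_le_sum e4
      _ = Lam * (1 / (4 * G)) * H + H * (Lam * (1 / (4 * G))) := by
          rw [sum_add_distrib, ← mul_sum, fk_sum H x hH1, sum_const, card_range, nsmul_eq_mul]
      _ = H * (Lam * (1 / (2 * G))) := by
          field_simp
          ring
  calc 1 / (H : ℝ) * ‖∑ j ∈ range H, (ψ x * ((fk H (x - j / H) : ℝ) : ℂ) - ψ (j / H)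
      * ((fk H (x - j / H) : ℝ) : ℂ))‖ ≤ 1 / (H : ℝ) * (H * (Lam * (1 / (2 * G)))) :=
        mul_le_mul_of_nonneg_left h5 (by positivity)
    _ = Lam / (2 * G) := by field_simp

/-- Lipschitz functions on [0, 1] with equal values at 0 and 1 -/
theorem circle_lip (φ : ℝ → ℂ) (Lam : ℝ) (h01 : φ 0 = φ 1)
    (hφ : ∀ s t, 0 ≤ s → s ≤ 1 → 0 ≤ t → t ≤ 1 → ‖φ s - φ t‖ ≤ Lam * |s - t|) (x y : ℝ) :
    ‖φ (Int.fract x) - φ (Int.fract y)‖ ≤ Lam * dn (x - y) := by
  -- the local version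
  have key : ∀ x y : ℝ, x ≤ y → y - x ≤ 1 / 2 →
      ‖φ (Int.fract x) - φ (Int.fract y)‖ ≤ Lam * (y - x) := by
    intro x y hxy hd
    have hx0 := Int.fract_nonneg x
    have hx1 := (Int.fract_lt_one x).le
    have hy0 := Int.fract_nonneg y
    have hy1 := (Int.fract_lt_one y).le
    have ex := Int.floor_add_fract x
    have ey := Int.floor_add_fract y
    have hfl : ⌊x⌋ ≤ ⌊y⌋ := Int.floor_le_floor hxy
    by_cases he : ⌊x⌋ = ⌊y⌋
    · refine (hφ _ _ hx0 hx1 hy0 hy1).trans (le_of_eq ?_)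
      congr 1
      rw [abs_sub_comm, abs_of_nonneg]
      · rw [he] at ex
        linarith
      · rw [he] at ex
        linarith
    · have h1 : ⌊x⌋ + 1 ≤ ⌊y⌋ := by omega
      have h2 : (⌊x⌋ : ℝ) + 1 ≤ ⌊y⌋ := by exact_mod_cast h1
      have h3 : ⌊y⌋ ≤ ⌊x⌋ + 1 := by
        by_contra h
        push Not at h
        have : (⌊x⌋ : ℝ) + 2 ≤ ⌊y⌋ := by exact_mod_cast (by omega : ⌊x⌋ + 2 ≤ ⌊y⌋)
        linarith
      have h4 : (⌊y⌋ : ℝ) = ⌊x⌋ + 1 := by
        have : ⌊y⌋ = ⌊x⌋ + 1 := by omega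
        rw [this]
        push_cast
        ring
      have h5 : φ (Int.fract x) - φ (Int.fract y)
          = (φ (Int.fract x) - φ 1) + (φ 0 - φ (Int.fract y)) := by rw [h01]; ring
      rw [h5]
      refine (norm_add_le _ _).trans ?_
      have h6 := hφ (Int.fract x) 1 hx0 hx1 (by norm_num) (le_refl _)
      have h7 := hφ 0 (Int.fract y) (le_refl _) (by norm_num) hy0 hy1
      rw [abs_sub_comm, abs_of_nonneg (by linarith)] at h6
      rw [abs_sub_comm, abs_of_nonneg (by linarith)] at h7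
      have h8 : Lam * (1 - Int.fract x) + Lam * (Int.fract y - 0) = Lam * (y - x) := by
        rw [← mul_add]
        congr 1
        linarith
      linarith
  set n : ℤ := round (x - y) with hn
  have h1 : Int.fract y = Int.fract (y + n) := (Int.fract_add_intCast y n).symm
  rw [h1]
  have h2 : dn (x - y) = |x - (y + n)| := by
    unfold dn
    rw [← hn]
    congr 1
    ring
  have h3 : |x - (y + n)| ≤ 1 / 2 := by
    rw [← h2]
    exact dn_le_half _
  rw [h2]
  rcases le_total x (y + n) with h | h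
  · rw [abs_sub_comm, abs_of_nonneg (by linarith)] at h3 ⊢
    exact key _ _ h h3
  · rw [abs_of_nonneg (by linarith)] at h3 ⊢
    rw [norm_sub_rev]
    exact key _ _ h h3

end Pool.Agent.V7H89.GP
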