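import Mathlib

/-!
Points in separated intervals are determined, with a Lipschitz bound, by consecutive power sums.
-/

namespace Pool.Agent.V7H89.GP

open Finset Matrix

/-- the matrix of divided differences of the powers i + 1, ..., i + r -/
noncomputable def MM (i r : ℕ) (p : (Fin r → ℝ) × (Fin r → ℝ)) : Matrix (Fin r) (Fin r) ℝ :=
  Matrix.of fun j b => ∑ l ∈ range (i + 1 + j), (p.1 b) ^ l * (p.2 b) ^ (i + 1 + j - 1 - l)

theorem MM_mulVec (i r : ℕ) (p : (Fin r → ℝ) × (Fin r → ℝ)) (j : Fin r) :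
    (MM i r p *ᵥ (fun b => p.1 b - p.2 b)) j
      = ∑ b, ((p.1 b) ^ (i + 1 + (j : ℕ)) - (p.2 b) ^ (i + 1 + (j : ℕ))) := by
  rw [Matrix.mulVec, dotProduct]
  refine sum_congr rfl fun b _ => ?_
  rw [MM, Matrix.of_apply]
  exact geom_sum₂_mul (p.1 b) (p.2 b) (i + 1 + j)

theorem MM_det (i r : ℕ) (p : (Fin r → ℝ) × (Fin r → ℝ)) (a b : Fin r → ℝ) (ha : ∀ c, 0 < a c)
    (h1 : ∀ c, p.1 c ∈ Set.Icc (a c) (b c)) (h2 : ∀ c, p.2 c ∈ Set.Icc (a c) (b c))
    (hsep : ∀ c c', c ≠ c' → Disjoint (Set.Icc (a c) (b c)) (Set.Icc (a c') (b c'))) :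
    (MM i r p).det ≠ 0 := by
  intro hdet
  obtain ⟨v, hv0, hv⟩ := Matrix.exists_vecMul_eq_zero_iff.mpr hdet
  -- zeros of the derivative
  have hz : ∀ c : Fin r, ∃ z ∈ Set.Icc (a c) (b c),
      ∑ j : Fin r, v j * ((i + 1 + (j : ℕ) : ℕ) : ℝ) * z ^ (i + (j : ℕ)) = 0 := by
    intro c
    have hvc : ∑ j : Fin r, v j * ∑ l ∈ range (i + 1 + j), (p.1 c) ^ l * (p.2 c) ^ (i + 1 + j - 1 - l)
        = 0 := by
      have := congrFun hv c
      rw [Matrix.vecMul, dotProduct] at this
      simpa [MM] using this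
    by_cases hpc : p.1 c = p.2 c
    · refine ⟨p.1 c, h1 c, ?_⟩
      rw [← hvc]
      refine sum_congr rfl fun j _ => ?_
      rw [mul_assoc]
      congr 1
      rw [← hpc]
      have : ∀ l ∈ range (i + 1 + (j : ℕ)), (p.1 c) ^ l * (p.1 c) ^ (i + 1 + (j : ℕ) - 1 - l)
          = (p.1 c) ^ (i + (j : ℕ)) := by
        intro l hl
        rw [← pow_add]
        congr 1
        have := mem_range.mp hl
        omega
      rw [sum_congr rfl this, sum_const, card_range, nsmul_eq_mul]
    · set φ : ℝ → ℝ := fun x => ∑ j : Fin r, v j * x ^ (i + 1 + (j : ℕ)) with hφ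
      have hφeq : φ (p.1 c) - φ (p.2 c) = 0 := by
        have e1 : φ (p.1 c) - φ (p.2 c) = (∑ j : Fin r, v j * ∑ l ∈ range (i + 1 + j),
            (p.1 c) ^ l * (p.2 c) ^ (i + 1 + j - 1 - l)) * (p.1 c - p.2 c) := by
          rw [hφ]
          simp only
          rw [← sum_sub_distrib, sum_mul]
          refine sum_congr rfl fun j _ => ?_
          rw [mul_assoc, geom_sum₂_mul]
          ring
        rw [e1, hvc, zero_mul]
      have hder : ∀ x, HasDerivAt φ (∑ j : Fin r, v j * ((i + 1 + (j : ℕ) : ℕ) : ℝ)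
          * x ^ (i + (j : ℕ))) x := by
        intro x
        rw [hφ]
        apply HasDerivAt.fun_sum
        intro j _
        have h3 := (hasDerivAt_pow (i + 1 + (j : ℕ)) x).const_mul (v j)
        have e : i + 1 + (j : ℕ) - 1 = i + (j : ℕ) := by omega
        rw [e, ← mul_assoc] at h3
        exact h3
      have hcont : Continuous φ := continuous_iff_continuousAt.mpr fun x => (hder x).continuousAt
      rcases lt_or_gt_of_ne hpc with hlt | hlt
      · obtain ⟨z, hz, hz0⟩ := exists_hasDerivAt_eq_zero hlt hcont.continuousOn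
          (by linarith) (fun x _ => hder x)
        exact ⟨z, ⟨(h1 c).1.trans hz.1.le, hz.2.le.trans (h2 c).2⟩, hz0⟩
      · obtain ⟨z, hz, hz0⟩ := exists_hasDerivAt_eq_zero hlt hcont.continuousOn
          (by linarith) (fun x _ => hder x)
        exact ⟨z, ⟨(h2 c).1.trans hz.1.le, hz.2.le.trans (h1 c).2⟩, hz0⟩
  choose z hz1 hz2 using hz
  have hinj : Function.Injective z := by
    intro c c' he
    by_contra hne
    have := Set.disjoint_left.mp (hsep c c' hne) (hz1 c)
    rw [he] at this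
    exact this (hz1 c')
  have hz0 : ∀ c, 0 < z c := fun c => lt_of_lt_of_le (ha c) (hz1 c).1
  have hvan : (Matrix.vandermonde z).det ≠ 0 := Matrix.det_vandermonde_ne_zero_iff.mpr hinj
  set w : Fin r → ℝ := fun j => v j * ((i + 1 + (j : ℕ) : ℕ) : ℝ) with hw
  have hmw : Matrix.vandermonde z *ᵥ w = 0 := by
    funext c
    rw [Matrix.mulVec, dotProduct]
    simp only [Matrix.vandermonde_apply, Pi.zero_apply]
    have h3 := hz2 c
    have h4 : ∑ j : Fin r, v j * ((i + 1 + (j : ℕ) : ℕ) : ℝ) * z c ^ (i + (j : ℕ))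
        = z c ^ i * ∑ j : Fin r, z c ^ (j : ℕ) * w j := by
      rw [mul_sum]
      refine sum_congr rfl fun j _ => ?_
      rw [hw, pow_add]
      ring
    rw [h4] at h3
    have h5 : z c ^ i ≠ 0 := pow_ne_zero _ (hz0 c).ne'
    exact (mul_eq_zero.mp h3).resolve_left h5
  have hw0 := Matrix.eq_zero_of_mulVec_eq_zero hvan hmw
  apply hv0
  funext j
  have h3 := congrFun hw0 j
  rw [hw] at h3
  simp only [Pi.zero_apply] at h3
  have h4 : ((i + 1 + (j : ℕ) : ℕ) : ℝ) ≠ 0 := by
    have : i + 1 + (j : ℕ) ≠ 0 := by omega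
    exact_mod_cast this
  exact (mul_eq_zero.mp h3).resolve_right h4

theorem MM_cont (i r : ℕ) : Continuous (MM i r) := by
  refine continuous_matrix fun j b => ?_
  simp only [MM, Matrix.of_apply]
  refine continuous_finsetSum _ fun l _ => ?_
  refine Continuous.mul ?_ ?_
  · exact ((continuous_apply b).comp continuous_fst).pow _
  · exact ((continuous_apply b).comp continuous_snd).pow _

theorem lip (i r : ℕ) (a b : Fin r → ℝ) (ha : ∀ c, 0 < a c)
    (hsep : ∀ c c', c ≠ c' → Disjoint (Set.Icc (a c) (b c)) (Set.Icc (a c') (b c'))) :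
    ∃ C : ℝ, 0 ≤ C ∧ ∀ t t' : Fin r → ℝ, (∀ c, t c ∈ Set.Icc (a c) (b c)) →
      (∀ c, t' c ∈ Set.Icc (a c) (b c)) → ∀ c, |t c - t' c| ≤
        C * ∑ j : Fin r, |∑ e, ((t e) ^ (i + 1 + (j : ℕ)) - (t' e) ^ (i + 1 + (j : ℕ)))| := by
  set K : Set ((Fin r → ℝ) × (Fin r → ℝ)) :=
    (Set.pi Set.univ fun c => Set.Icc (a c) (b c)) ×ˢ (Set.pi Set.univ fun c => Set.Icc (a c) (b c))
    with hK
  have hKc : IsCompact K :=
    (isCompact_univ_pi fun c => isCompact_Icc).prod (isCompact_univ_pi fun c => isCompact_Icc)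
  have hdet : ∀ p ∈ K, (MM i r p).det ≠ 0 := by
    intro p hp
    rw [hK, Set.mem_prod] at hp
    exact MM_det i r p a b ha (fun c => hp.1 c (Set.mem_univ c)) (fun c => hp.2 c (Set.mem_univ c))
      hsep
  set F : ((Fin r → ℝ) × (Fin r → ℝ)) → ℝ := fun p =>
    (∑ c, ∑ j, |(MM i r p).adjugate c j|) / |(MM i r p).det| with hF
  have hcontF : ContinuousOn F K := by
    rw [hF]
    refine ContinuousOn.div ?_ ?_ ?_
    · refine Continuous.continuousOn ?_
      refine continuous_finsetSum _ fun c _ => continuous_finsetSum _ fun j _ => ?_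
      exact ((MM_cont i r).matrix_adjugate.matrix_elem c j).abs
    · exact ((MM_cont i r).matrix_det).abs.continuousOn
    · intro p hp
      exact abs_ne_zero.mpr (hdet p hp)
  obtain ⟨C, hC⟩ := hKc.exists_bound_of_continuousOn hcontF
  refine ⟨max C 0, le_max_right _ _, ?_⟩
  intro t t' ht ht' c
  set p : (Fin r → ℝ) × (Fin r → ℝ) := (t, t') with hp
  have hpK : p ∈ K := by
    rw [hK, Set.mem_prod]
    exact ⟨fun c _ => ht c, fun c _ => ht' c⟩
  have hd := hdet p hpK
  have hFp : F p ≤ max C 0 := ((le_abs_self _).trans (hC p hpK)).trans (le_max_left _ _)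
  have hadj : (MM i r p).det * (t c - t' c) = ∑ j, (MM i r p).adjugate c j
      * ∑ e, ((t e) ^ (i + 1 + (j : ℕ)) - (t' e) ^ (i + 1 + (j : ℕ))) := by
    have h3 : (MM i r p).adjugate *ᵥ (MM i r p *ᵥ (fun b => p.1 b - p.2 b))
        = (MM i r p).det • (fun b => p.1 b - p.2 b) := by
      rw [Matrix.mulVec_mulVec, Matrix.adjugate_mul, Matrix.smul_mulVec, Matrix.one_mulVec]
    have h4 := congrFun h3 c
    simp only [Pi.smul_apply, smul_eq_mul] at h4
    rw [← h4, Matrix.mulVec, dotProduct]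
    refine sum_congr rfl fun j _ => ?_
    rw [MM_mulVec]
  have habs : |(MM i r p).det| * |t c - t' c| ≤ (∑ c, ∑ j, |(MM i r p).adjugate c j|)
      * ∑ j : Fin r, |∑ e, ((t e) ^ (i + 1 + (j : ℕ)) - (t' e) ^ (i + 1 + (j : ℕ)))| := by
    rw [← abs_mul, hadj]
    refine (abs_sum_le_sum_abs _ _).trans ?_
    rw [mul_sum]
    refine sum_le_sum fun j _ => ?_
    rw [abs_mul]
    refine mul_le_mul_of_nonneg_right ?_ (abs_nonneg _)
    have h5 : |(MM i r p).adjugate c j| ≤ ∑ j, |(MM i r p).adjugate c j| :=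
      single_le_sum (f := fun j => |(MM i r p).adjugate c j|) (fun _ _ => abs_nonneg _) (mem_univ j)
    have h6 : ∑ j, |(MM i r p).adjugate c j| ≤ ∑ c, ∑ j, |(MM i r p).adjugate c j| :=
      single_le_sum (f := fun c => ∑ j, |(MM i r p).adjugate c j|)
        (fun _ _ => sum_nonneg fun _ _ => abs_nonneg _) (mem_univ c)
    exact h5.trans h6
  have hdp : 0 < |(MM i r p).det| := abs_pos.mpr hd
  have h7 : |t c - t' c| ≤ F p
      * ∑ j : Fin r, |∑ e, ((t e) ^ (i + 1 + (j : ℕ)) - (t' e) ^ (i + 1 + (j : ℕ)))| := by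
    rw [hF]
    simp only
    rw [div_mul_eq_mul_div, le_div_iff₀ hdp]
    linarith
  exact h7.trans (mul_le_mul_of_nonneg_right hFp (sum_nonneg fun _ _ => abs_nonneg _))

/-- counting -/
theorem count_le (k : ℕ) : ∀ (A : Finset (Fin k → ℕ)) (B : Fin k → ℕ),
    (∀ x ∈ A, ∀ x' ∈ A, ∀ a, (∀ b < a, x b = x' b) → x a ≤ x' a + B a) →
    A.card ≤ ∏ a, (B a + 1) := by
  induction k with
  | zero =>
    intro A B _
    rw [Finset.prod_of_isEmpty]
    exact Finset.card_le_one_of_subsingleton A
  | succ k ih =>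
    intro A B h
    rcases A.eq_empty_or_nonempty with rfl | hne
    · simp
    rw [Fin.prod_univ_succ, mul_comm]
    have h1 : (A.image (fun x => x 0)).card ≤ B 0 + 1 := by
      have hne' : (A.image (fun x => x 0)).Nonempty := hne.image _
      set m := (A.image (fun x => x 0)).min' hne' with hm
      obtain ⟨x0, hx0, hx0m⟩ := mem_image.mp (min'_mem _ hne')
      have h2 : A.image (fun x => x 0) ⊆ Icc m (m + B 0) := by
        intro y hy
        rw [mem_Icc]
        refine ⟨min'_le _ _ hy, ?_⟩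
        obtain ⟨x, hx, hxy⟩ := mem_image.mp hy
        have h3 := h x hx x0 hx0 0 (fun b hb => absurd hb (Fin.not_lt_zero b))
        have e1 : x 0 = y := hxy
        have e2 : x0 0 = m := hx0m
        rw [e1, e2] at h3
        exact h3
      have h3 := card_le_card h2
      rw [Nat.card_Icc] at h3
      omega
    have h2 : A.card ≤ (∏ a : Fin k, (B a.succ + 1)) * (A.image (fun x => x 0)).card := by
      refine card_le_mul_card_image A _ ?_
      intro c _
      have h3 := ih ((A.filter (fun x => x 0 = c)).image (fun x => Fin.tail x))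
        (fun a => B a.succ) ?_
      · have h4 : ((A.filter (fun x => x 0 = c)).image (fun x => Fin.tail x)).card
            = (A.filter (fun x => x 0 = c)).card := by
          apply card_image_of_injOn
          intro x hx x' hx' he
          have hx0 := (mem_filter.mp (mem_coe.mp hx)).2
          have hx0' := (mem_filter.mp (mem_coe.mp hx')).2
          funext a
          refine Fin.cases ?_ (fun a => ?_) a
          · rw [hx0, hx0']
          · exact congrFun he a
        rw [h4] at h3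
        exact h3
      · intro y hy y' hy' a hb
        obtain ⟨x, hx, hxy⟩ := mem_image.mp hy
        obtain ⟨x', hx', hxy'⟩ := mem_image.mp hy'
        have hx0 := mem_filter.mp hx
        have hx0' := mem_filter.mp hx'
        have h5 := h x hx0.1 x' hx0'.1 a.succ ?_
        · rw [← hxy, ← hxy']
          exact h5
        · intro b hb'
          revert hb'
          refine Fin.cases ?_ (fun b => ?_) b
          · intro _
            rw [hx0.2, hx0'.2]
          · intro hb'
            have := hb b (Fin.succ_lt_succ_iff.mp hb')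
            rw [← hxy, ← hxy'] at this
            exact this
    exact h2.trans (Nat.mul_le_mul_left _ h1)

end Pool.Agent.V7H89.GP
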