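import Pool.Agent.V7H89.GP.MvA

/-!
The number of pairs of tuples, with coordinates in separated intervals, whose power sums of the
orders 1, ..., k differ by at most V is at most C V P^k.
-/

namespace Pool.Agent.V7H89.GP

open Finset

/-- the interval for the coordinate a: ((2a+1)P/(2k), (2a+2)P/(2k)) -/
def II (k P a : ℕ) : Finset ℕ :=
  (Icc 1 P).filter (fun n => (2 * a + 1) * P ≤ 2 * k * n ∧ 2 * k * n ≤ (2 * a + 2) * P)

/-- the tuples -/
def SS (k P : ℕ) : Finset (Fin k → ℕ) := Fintype.piFinset (fun a => II k P a)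

theorem mem_II {k P a n : ℕ} : n ∈ II k P a ↔ (1 ≤ n ∧ n ≤ P) ∧ (2 * a + 1) * P ≤ 2 * k * n ∧
    2 * k * n ≤ (2 * a + 2) * P := by
  rw [II, mem_filter, mem_Icc]

theorem mem_SS {k P : ℕ} {x : Fin k → ℕ} : x ∈ SS k P ↔ ∀ a : Fin k, x a ∈ II k P a := by
  rw [SS, Fintype.mem_piFinset]

theorem card_SS (k P : ℕ) : (SS k P).card ≤ P ^ k := by
  rw [SS, Fintype.card_piFinset]
  calc ∏ a : Fin k, (II k P a).card ≤ ∏ a : Fin k, P := by
        refine prod_le_prod (fun _ _ => Nat.zero_le _) fun a _ => ?_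
        refine (card_filter_le _ _).trans ?_
        simp
    _ = P ^ k := by simp

/-- the endpoints of the scaled intervals -/
theorem II_scaled {k P a n : ℕ} (hP : 1 ≤ P) (hk : 1 ≤ k) (h : n ∈ II k P a) :
    (n : ℝ) / P ∈ Set.Icc ((2 * (a : ℝ) + 1) / (2 * k)) ((2 * (a : ℝ) + 2) / (2 * k)) := by
  rw [mem_II] at h
  have hP0 : (0 : ℝ) < P := by exact_mod_cast hP
  have hk0 : (0 : ℝ) < k := by exact_mod_cast hk
  have h1 : ((2 * a + 1 : ℕ) : ℝ) * P ≤ 2 * k * n := by exact_mod_cast h.2.1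
  have h2 : 2 * (k : ℝ) * n ≤ ((2 * a + 2 : ℕ) : ℝ) * P := by exact_mod_cast h.2.2
  push_cast at h1 h2
  constructor
  · rw [div_le_div_iff₀ (by positivity) hP0]
    linarith
  · rw [div_le_div_iff₀ hP0 (by positivity)]
    linarith

/-- an extension of a function on Fin k by zero -/
noncomputable def ext (k : ℕ) (x : Fin k → ℝ) (n : ℕ) : ℝ := if h : n < k then x ⟨n, h⟩ else 0

theorem sum_ext (k : ℕ) (g : Fin k → ℝ) : ∑ a : Fin k, g a = ∑ n ∈ range k, ext k g n := by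
  rw [← Fin.sum_univ_eq_sum_range (fun n => ext k g n) k]
  refine sum_congr rfl fun a _ => ?_
  rw [ext, dif_pos a.2]

theorem lip_SS_one (k i : ℕ) (hi : i < k) : ∃ C : ℝ, 0 ≤ C ∧ ∀ P : ℕ, 1 ≤ P → ∀ V : ℝ, 0 ≤ V →
    ∀ x ∈ SS k P, ∀ x' ∈ SS k P, (∀ b : Fin k, (b : ℕ) < i → x b = x' b) →
    (∀ m ∈ Icc 1 k, |∑ a : Fin k, ((x a : ℝ) ^ m - (x' a : ℝ) ^ m)| ≤ V) →
    |(x ⟨i, hi⟩ : ℝ) - (x' ⟨i, hi⟩ : ℝ)| ≤ C * V / (P : ℝ) ^ i := by
  obtain ⟨r, hr⟩ : ∃ r, k = i + (r + 1) := ⟨k - i - 1, by omega⟩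
  have hk1 : 1 ≤ k := by omega
  have hk0 : (0 : ℝ) < k := by exact_mod_cast hk1
  obtain ⟨C, hC0, hC⟩ := lip i (r + 1)
    (fun c => (2 * ((i + (c : ℕ) : ℕ) : ℝ) + 1) / (2 * k))
    (fun c => (2 * ((i + (c : ℕ) : ℕ) : ℝ) + 2) / (2 * k))
    (fun c => by positivity)
    (by
      intro c c' hne
      rw [Set.disjoint_left]
      intro y hy hy'
      have hne' : (c : ℕ) ≠ (c' : ℕ) := fun h => hne (Fin.ext h)
      have hA : ∀ c c' : ℕ, c < c' → y ≤ (2 * ((i + c : ℕ) : ℝ) + 2) / (2 * k) →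
          (2 * ((i + c' : ℕ) : ℝ) + 1) / (2 * k) ≤ y → False := by
        intro c c' hlt h1 h2
        have h3 := h2.trans h1
        rw [div_le_div_iff_of_pos_right (by positivity)] at h3
        have h4 : ((i + c : ℕ) : ℝ) + 1 ≤ ((i + c' : ℕ) : ℝ) := by exact_mod_cast (by omega)
        linarith
      rcases lt_or_gt_of_ne hne' with h | h
      · exact hA _ _ h hy.2 hy'.1
      · exact hA _ _ h hy'.2 hy.1)
  refine ⟨C * (r + 1), by positivity, ?_⟩
  intro P hP V hV x hx x' hx' hagree hpow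
  have hP0 : (0 : ℝ) < P := by exact_mod_cast hP
  have hlt : ∀ c : Fin (r + 1), i + (c : ℕ) < k := fun c => by have := c.2; omega
  set t : Fin (r + 1) → ℝ := fun c => (x ⟨i + c, hlt c⟩ : ℝ) / P with ht
  set t' : Fin (r + 1) → ℝ := fun c => (x' ⟨i + c, hlt c⟩ : ℝ) / P with ht'
  have h1 := hC t t' (fun c => II_scaled hP hk1 (mem_SS.mp hx ⟨i + c, hlt c⟩))
    (fun c => II_scaled hP hk1 (mem_SS.mp hx' ⟨i + c, hlt c⟩)) 0
  have hsum : ∀ m : ℕ, ∑ e : Fin (r + 1), ((t e) ^ m - (t' e) ^ m)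
      = (∑ a : Fin k, ((x a : ℝ) ^ m - (x' a : ℝ) ^ m)) / (P : ℝ) ^ m := by
    intro m
    rw [sum_ext k (fun a => (x a : ℝ) ^ m - (x' a : ℝ) ^ m)]
    have e1 : range k = range (i + (r + 1)) := by rw [hr]
    rw [e1, sum_range_add]
    have e2 : ∑ n ∈ range i, ext k (fun a => (x a : ℝ) ^ m - (x' a : ℝ) ^ m) n = 0 := by
      refine sum_eq_zero fun n hn => ?_
      have hn' := mem_range.mp hn
      rw [ext, dif_pos (by omega), hagree ⟨n, by omega⟩ hn', sub_self]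
    rw [e2, zero_add, ← Fin.sum_univ_eq_sum_range
      (fun n => ext k (fun a => (x a : ℝ) ^ m - (x' a : ℝ) ^ m) (i + n)) (r + 1), sum_div]
    refine sum_congr rfl fun c _ => ?_
    rw [ext, dif_pos (hlt c), ht, ht']
    simp only
    rw [div_pow, div_pow]
    ring
  have h2 : ∑ j : Fin (r + 1), |∑ e, ((t e) ^ (i + 1 + (j : ℕ)) - (t' e) ^ (i + 1 + (j : ℕ)))|
      ≤ (r + 1) * (V / (P : ℝ) ^ (i + 1)) := by
    calc ∑ j : Fin (r + 1), |∑ e, ((t e) ^ (i + 1 + (j : ℕ)) - (t' e) ^ (i + 1 + (j : ℕ)))|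
        ≤ ∑ j : Fin (r + 1), V / (P : ℝ) ^ (i + 1) := by
          refine sum_le_sum fun j _ => ?_
          rw [hsum, abs_div, abs_of_pos (by positivity : (0 : ℝ) < (P : ℝ) ^ (i + 1 + (j : ℕ)))]
          have h3 := hpow (i + 1 + (j : ℕ)) (mem_Icc.mpr ⟨by omega, by have := j.2; omega⟩)
          calc |∑ a : Fin k, ((x a : ℝ) ^ (i + 1 + (j : ℕ)) - (x' a : ℝ) ^ (i + 1 + (j : ℕ)))|
                / (P : ℝ) ^ (i + 1 + (j : ℕ)) ≤ V / (P : ℝ) ^ (i + 1 + (j : ℕ)) :=
                div_le_div_of_nonneg_right h3 (by positivity)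
            _ ≤ V / (P : ℝ) ^ (i + 1) := by
                refine div_le_div_of_nonneg_left hV (by positivity) ?_
                exact pow_le_pow_right₀ (by exact_mod_cast hP) (by omega)
      _ = (r + 1) * (V / (P : ℝ) ^ (i + 1)) := by
          rw [sum_const, card_univ, Fintype.card_fin, nsmul_eq_mul]
          push_cast
          ring
  have h4 : t 0 - t' 0 = ((x ⟨i, hi⟩ : ℝ) - (x' ⟨i, hi⟩ : ℝ)) / P := by
    rw [ht, ht']
    simp only [Fin.val_zero, add_zero]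
    rw [sub_div]
  rw [h4, abs_div, abs_of_pos hP0, div_le_iff₀ hP0] at h1
  refine h1.trans ?_
  have h5 : C * (∑ j : Fin (r + 1), |∑ e, ((t e) ^ (i + 1 + (j : ℕ)) - (t' e) ^ (i + 1 + (j : ℕ)))|)
      * P ≤ C * ((r + 1) * (V / (P : ℝ) ^ (i + 1))) * P :=
    mul_le_mul_of_nonneg_right (mul_le_mul_of_nonneg_left h2 hC0) hP0.le
  refine h5.trans (le_of_eq ?_)
  rw [pow_succ]
  field_simp

theorem lip_SS (k : ℕ) : ∃ C : ℝ, 0 ≤ C ∧ ∀ P : ℕ, 1 ≤ P → ∀ V : ℝ, 0 ≤ V →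
    ∀ x ∈ SS k P, ∀ x' ∈ SS k P,
    (∀ m ∈ Icc 1 k, |∑ a : Fin k, ((x a : ℝ) ^ m - (x' a : ℝ) ^ m)| ≤ V) →
    ∀ a : Fin k, (∀ b < a, x b = x' b) →
    |(x a : ℝ) - (x' a : ℝ)| ≤ C * V / (P : ℝ) ^ (a : ℕ) := by
  have h := fun a : Fin k => lip_SS_one k a a.2
  choose C hC0 hC using h
  refine ⟨∑ a, C a, sum_nonneg fun a _ => hC0 a, ?_⟩
  intro P hP V hV x hx x' hx' hpow a hagree
  have h1 := hC a P hP V hV x hx x' hx' (fun b hb => hagree b (Fin.lt_def.mpr hb)) hpow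
  refine h1.trans ?_
  have hP0 : (0 : ℝ) < P := by exact_mod_cast hP
  refine div_le_div_of_nonneg_right ?_ (by positivity)
  exact mul_le_mul_of_nonneg_right (single_le_sum (f := C) (fun a _ => hC0 a) (mem_univ a)) hV

theorem prod_bd (C P : ℝ) (hC : 0 ≤ C) (hP : 1 ≤ P) (k : ℕ) : ∀ V : ℝ, 1 ≤ V →
    ∏ a : Fin k, (1 + min P (C * V / P ^ (a : ℕ))) ≤ (2 + C) ^ k * V := by
  induction k with
  | zero =>
    intro V hV
    simpa using hV
  | succ k ih =>
    intro V hV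
    have hP0 : 0 < P := by linarith
    rw [Fin.prod_univ_succ]
    simp only [Fin.val_zero, pow_zero, div_one, Fin.val_succ]
    have e1 : ∀ W : ℝ, ∏ a : Fin k, (1 + min P (C * W / P ^ ((a : ℕ) + 1)))
        = ∏ a : Fin k, (1 + min P (C * (W / P) / P ^ (a : ℕ))) := by
      intro W
      refine prod_congr rfl fun a _ => ?_
      congr 2
      rw [pow_succ]
      field_simp
    rw [e1]
    have hprod0 : 0 ≤ ∏ a : Fin k, (1 + min P (C * (V / P) / P ^ (a : ℕ))) :=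
      prod_nonneg fun a _ => by
        have : 0 ≤ min P (C * (V / P) / P ^ (a : ℕ)) := le_min hP0.le (by positivity)
        linarith
    by_cases hVP : P ≤ V
    · have h1 := ih (V / P) (by rw [le_div_iff₀ hP0]; linarith)
      have h2 : 1 + min P (C * V) ≤ 2 * P := by
        have := min_le_left P (C * V)
        linarith
      calc (1 + min P (C * V)) * ∏ a : Fin k, (1 + min P (C * (V / P) / P ^ (a : ℕ)))
          ≤ (2 * P) * ((2 + C) ^ k * (V / P)) := mul_le_mul h2 h1 hprod0 (by positivity)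
        _ = 2 * ((2 + C) ^ k * V) := by field_simp
        _ ≤ (2 + C) * ((2 + C) ^ k * V) := mul_le_mul_of_nonneg_right (by linarith) (by positivity)
        _ = (2 + C) ^ (k + 1) * V := by ring
    · push Not at hVP
      have h1 := ih 1 (le_refl 1)
      have h3 : ∏ a : Fin k, (1 + min P (C * (V / P) / P ^ (a : ℕ)))
          ≤ ∏ a : Fin k, (1 + min P (C * 1 / P ^ (a : ℕ))) := by
        refine prod_le_prod (fun a _ => by
          have : 0 ≤ min P (C * (V / P) / P ^ (a : ℕ)) := le_min hP0.le (by positivity)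
          linarith) fun a _ => ?_
        have h4 : C * (V / P) / P ^ (a : ℕ) ≤ C * 1 / P ^ (a : ℕ) := by
          refine div_le_div_of_nonneg_right ?_ (by positivity)
          refine mul_le_mul_of_nonneg_left ?_ hC
          rw [div_le_one hP0]
          exact hVP.le
        have := min_le_min_left P h4
        linarith
      have h2 : 1 + min P (C * V) ≤ (2 + C) * V := by
        have := min_le_right P (C * V)
        nlinarith
      calc (1 + min P (C * V)) * ∏ a : Fin k, (1 + min P (C * (V / P) / P ^ (a : ℕ)))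
          ≤ ((2 + C) * V) * ((2 + C) ^ k * 1) := mul_le_mul h2 (h3.trans h1) hprod0 (by positivity)
        _ = (2 + C) ^ (k + 1) * V := by ring

/-- the power sums differ by at most V -/
def Close (k : ℕ) (V : ℝ) (x y : Fin k → ℕ) : Prop :=
  ∀ m ∈ Icc 1 k, |∑ a : Fin k, ((x a : ℝ) ^ m - (y a : ℝ) ^ m)| ≤ V

open scoped Classical in
/-- the number of pairs -/
theorem pairs (k : ℕ) : ∃ C : ℝ, 1 ≤ C ∧ ∀ P : ℕ, 1 ≤ P → ∀ V : ℝ, 1 ≤ V →
    ((((SS k P) ×ˢ (SS k P)).filter (fun p : (Fin k → ℕ) × (Fin k → ℕ) =>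
      Close k V p.1 p.2)).card : ℝ) ≤ C * V * (P : ℝ) ^ k := by
  obtain ⟨C, hC0, hC⟩ := lip_SS k
  refine ⟨(2 + 2 * C) ^ k, one_le_pow₀ (by linarith), ?_⟩
  intro P hP V hV
  have hP0 : (0 : ℝ) < P := by exact_mod_cast hP
  have hP1 : (1 : ℝ) ≤ P := by exact_mod_cast hP
  -- the fibre over y
  have hfib : ∀ y ∈ SS k P, ((((SS k P).filter (fun x : Fin k → ℕ => Close k V x y)).card : ℝ)) ≤ (2 + 2 * C) ^ k * V := by
    intro y hy
    set A := (SS k P).filter (fun x : Fin k → ℕ => Close k V x y) with hA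
    set B : Fin k → ℕ := fun a => ⌊min (P : ℝ) ((2 * C) * V / (P : ℝ) ^ (a : ℕ))⌋₊ with hB
    have h1 := count_le k A B (by
      intro x hx x' hx' a hagree
      rw [hA, mem_filter] at hx hx'
      have h2 := hC P hP (2 * V) (by linarith) x hx.1 x' hx'.1 (by
        intro m hm
        have e1 : ∑ a : Fin k, ((x a : ℝ) ^ m - (x' a : ℝ) ^ m)
            = ∑ a : Fin k, ((x a : ℝ) ^ m - (y a : ℝ) ^ m)
              - ∑ a : Fin k, ((x' a : ℝ) ^ m - (y a : ℝ) ^ m) := by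
          rw [← sum_sub_distrib]
          refine sum_congr rfl fun a _ => by ring
        rw [e1]
        refine (abs_sub _ _).trans ?_
        linarith [hx.2 m hm, hx'.2 m hm]) a hagree
      by_cases hle : x a ≤ x' a
      · omega
      · push Not at hle
        have h3 : (((x a - x' a : ℕ)) : ℝ) ≤ min (P : ℝ) ((2 * C) * V / (P : ℝ) ^ (a : ℕ)) := by
          refine le_min ?_ ?_
          · have := (mem_II.mp (mem_SS.mp hx.1 a)).1.2
            exact_mod_cast (by omega : x a - x' a ≤ P)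
          · rw [Nat.cast_sub hle.le]
            refine (le_abs_self _).trans (h2.trans (le_of_eq ?_))
            ring
        have h4 : x a - x' a ≤ B a := Nat.le_floor h3
        omega)
    calc ((A.card : ℝ)) ≤ ((∏ a, (B a + 1) : ℕ) : ℝ) := by exact_mod_cast h1
      _ = ∏ a, ((B a : ℝ) + 1) := by push_cast; rfl
      _ ≤ ∏ a : Fin k, (1 + min (P : ℝ) ((2 * C) * V / (P : ℝ) ^ (a : ℕ))) := by
          refine prod_le_prod (fun a _ => by positivity) fun a _ => ?_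
          have : (B a : ℝ) ≤ min (P : ℝ) ((2 * C) * V / (P : ℝ) ^ (a : ℕ)) :=
            Nat.floor_le (le_min hP0.le (by positivity))
          linarith
      _ ≤ (2 + 2 * C) ^ k * V := prod_bd (2 * C) P (by linarith) hP1 k V hV
  have hsum : (((SS k P) ×ˢ (SS k P)).filter (fun p : (Fin k → ℕ) × (Fin k → ℕ) =>
      Close k V p.1 p.2)).card
      ≤ ∑ y ∈ SS k P, ((SS k P).filter (fun x : Fin k → ℕ => Close k V x y)).card := by
    rw [card_filter, sum_product_right]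
    refine sum_le_sum fun y _ => ?_
    rw [card_filter]
  calc ((((SS k P) ×ˢ (SS k P)).filter (fun p : (Fin k → ℕ) × (Fin k → ℕ) =>
      Close k V p.1 p.2)).card : ℝ)
      ≤ ((∑ y ∈ SS k P, ((SS k P).filter (fun x : Fin k → ℕ => Close k V x y)).card : ℕ) : ℝ) := by exact_mod_cast hsum
    _ = ∑ y ∈ SS k P, ((((SS k P).filter (fun x : Fin k → ℕ => Close k V x y)).card : ℝ)) := by push_cast; rfl
    _ ≤ ∑ y ∈ SS k P, ((2 + 2 * C) ^ k * V) := sum_le_sum hfib
    _ = (SS k P).card * ((2 + 2 * C) ^ k * V) := by rw [sum_const, nsmul_eq_mul]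
    _ ≤ (P : ℝ) ^ k * ((2 + 2 * C) ^ k * V) := by
        refine mul_le_mul_of_nonneg_right ?_ (by positivity)
        exact_mod_cast card_SS k P
    _ = (2 + 2 * C) ^ k * V * (P : ℝ) ^ k := by ring

end Pool.Agent.V7H89.GP
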