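import Pool.Agent.V7H89.GP.MvB
import Pool.Agent.V7H89.GP.WeylD

/-!
The mean value for almost all coefficients.
-/

namespace Pool.Agent.V7H89.GP

open Finset MeasureTheory
open scoped ENNReal

/-- the measure of a slab in a box -/
theorem slab (r : ℕ) (A : ℝ) (hA : 0 ≤ A) (v : Fin (r + 1) → ℝ) (w R : ℝ) (hR : 0 ≤ R)
    (j0 : Fin (r + 1)) (hv : v j0 ≠ 0) :
    (Measure.pi (fun _ : Fin (r + 1) => (volume : Measure ℝ).restrict (Set.Icc (-A) A)))
      {α | |w + ∑ j, α j * v j| ≤ R} ≤ ENNReal.ofReal ((2 * A) ^ r * (2 * (R / |v j0|))) := by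
  set S : Set (Fin (r + 1) → ℝ) := {α | |w + ∑ j, α j * v j| ≤ R} with hS
  have hmeas : MeasurableSet S := by
    refine measurableSet_le ?_ measurable_const
    refine (Measurable.const_add ?_ w).abs
    exact Finset.measurable_fun_sum _ fun j _ => (measurable_pi_apply j).mul_const _
  set f : (Fin (r + 1) → ℝ) → ℝ≥0∞ := S.indicator 1 with hf
  have hfm : Measurable f := measurable_one.indicator hmeas
  have h1 : (Measure.pi (fun _ : Fin (r + 1) => (volume : Measure ℝ).restrict (Set.Icc (-A) A))) S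
      = ∫⁻ x, f x ∂(Measure.pi (fun _ : Fin (r + 1) =>
        (volume : Measure ℝ).restrict (Set.Icc (-A) A))) := by
    rw [hf, lintegral_indicator_one hmeas]
  rw [h1, lintegral_eq_lmarginal_univ (fun _ => (0 : ℝ)), lmarginal_erase' f hfm (mem_univ j0)]
  have h2 : (fun x : Fin (r + 1) → ℝ => ∫⁻ xi, f (Function.update x j0 xi)
      ∂((volume : Measure ℝ).restrict (Set.Icc (-A) A)))
      ≤ fun _ => ENNReal.ofReal (2 * (R / |v j0|)) := by
    intro x
    set w' : ℝ := w + ∑ j, x j * v j - x j0 * v j0 with hw'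
    have h3 : ∀ xi : ℝ, w + ∑ j, (Function.update x j0 xi) j * v j = w' + xi * v j0 := by
      intro xi
      have h4 : ∑ j, (Function.update x j0 xi) j * v j - ∑ j, x j * v j = (xi - x j0) * v j0 := by
        rw [← sum_sub_distrib, sum_eq_single j0]
        · rw [Function.update_self]
          ring
        · intro j _ hne
          rw [Function.update_of_ne hne]
          ring
        · intro hn
          exact absurd (mem_univ j0) hn
      rw [hw']
      linarith
    have h5 : ∀ xi : ℝ, f (Function.update x j0 xi)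
        ≤ (Metric.closedBall (-w' / v j0) (R / |v j0|)).indicator 1 xi := by
      intro xi
      rw [hf]
      by_cases hx : Function.update x j0 xi ∈ S
      · rw [Set.indicator_of_mem hx, Set.indicator_of_mem]
        · rfl
        · rw [Metric.mem_closedBall, Real.dist_eq]
          have h6 : |w' + xi * v j0| ≤ R := by
            rw [← h3]
            exact hx
          have h7 : xi - -w' / v j0 = (w' + xi * v j0) / v j0 := by
            field_simp
            ring
          rw [h7, abs_div]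
          exact div_le_div_of_nonneg_right h6 (abs_nonneg _)
      · rw [Set.indicator_of_notMem hx]
        exact bot_le
    calc ∫⁻ xi, f (Function.update x j0 xi) ∂((volume : Measure ℝ).restrict (Set.Icc (-A) A))
        ≤ ∫⁻ xi, (Metric.closedBall (-w' / v j0) (R / |v j0|)).indicator 1 xi
          ∂((volume : Measure ℝ).restrict (Set.Icc (-A) A)) := lintegral_mono h5
      _ = ((volume : Measure ℝ).restrict (Set.Icc (-A) A))
          (Metric.closedBall (-w' / v j0) (R / |v j0|)) :=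
          lintegral_indicator_one measurableSet_closedBall
      _ ≤ volume (Metric.closedBall (-w' / v j0) (R / |v j0|)) := Measure.restrict_apply_le _ _
      _ = ENNReal.ofReal (2 * (R / |v j0|)) := Real.volume_closedBall _ _
  refine (lmarginal_mono h2 _).trans ?_
  rw [lmarginal, lintegral_const, Measure.pi_univ]
  have h8 : ∀ i : (univ.erase j0 : Finset (Fin (r + 1))),
      ((volume : Measure ℝ).restrict (Set.Icc (-A) A)) Set.univ = ENNReal.ofReal (2 * A) := by
    intro i
    rw [Measure.restrict_apply_univ, Real.volume_Icc]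
    congr 1
    ring
  rw [prod_congr rfl (fun i _ => h8 i), prod_const]
  have h9 : (univ : Finset (univ.erase j0 : Finset (Fin (r + 1)))).card = r := by
    rw [card_univ, Fintype.card_coe, card_erase_of_mem (mem_univ _), card_univ, Fintype.card_fin]
    omega
  rw [h9, ← ENNReal.ofReal_pow (by linarith), ← ENNReal.ofReal_mul (by positivity), mul_comm]

/-- the value of a tuple -/
noncomputable def Fd (d : ℕ) (γ : ℝ) (α : Fin (d + 1) → ℝ) (x : Fin (d + 2) → ℕ) : ℝ :=
  ∑ a, pf d γ α (x a)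

/-- power sum differences -/
noncomputable def vv (k m : ℕ) (p : (Fin k → ℕ) × (Fin k → ℕ)) : ℝ :=
  ∑ a : Fin k, ((p.1 a : ℝ) ^ m - (p.2 a : ℝ) ^ m)

theorem Fd_sub (d : ℕ) (γ : ℝ) (α : Fin (d + 1) → ℝ) (p : (Fin (d + 2) → ℕ) × (Fin (d + 2) → ℕ)) :
    Fd d γ α p.1 - Fd d γ α p.2 = γ * vv (d + 2) (d + 2) p
      + ∑ j : Fin (d + 1), α j * vv (d + 2) ((j : ℕ) + 1) p := by
  unfold Fd vv pf
  rw [← sum_sub_distrib]
  have e1 : ∀ a : Fin (d + 2), (γ * (p.1 a : ℝ) ^ (d + 2) + ∑ j : Fin (d + 1), α j * (p.1 a : ℝ) ^ ((j : ℕ) + 1))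
      - (γ * (p.2 a : ℝ) ^ (d + 2) + ∑ j : Fin (d + 1), α j * (p.2 a : ℝ) ^ ((j : ℕ) + 1))
      = γ * ((p.1 a : ℝ) ^ (d + 2) - (p.2 a : ℝ) ^ (d + 2))
        + ∑ j : Fin (d + 1), α j * ((p.1 a : ℝ) ^ ((j : ℕ) + 1) - (p.2 a : ℝ) ^ ((j : ℕ) + 1)) := by
    intro a
    have : ∑ j : Fin (d + 1), α j * ((p.1 a : ℝ) ^ ((j : ℕ) + 1) - (p.2 a : ℝ) ^ ((j : ℕ) + 1))
        = ∑ j : Fin (d + 1), α j * (p.1 a : ℝ) ^ ((j : ℕ) + 1)
          - ∑ j : Fin (d + 1), α j * (p.2 a : ℝ) ^ ((j : ℕ) + 1) := by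
      rw [← sum_sub_distrib]
      exact sum_congr rfl fun j _ => by ring
    rw [this]
    ring
  rw [sum_congr rfl fun a _ => e1 a, sum_add_distrib, ← mul_sum, sum_comm]
  congr 1
  exact sum_congr rfl fun j _ => by rw [mul_sum]

open scoped Classical in
/-- the number of pairs with close values -/
noncomputable def TT (d : ℕ) (γ : ℝ) (P : ℕ) (α : Fin (d + 1) → ℝ) : ℕ :=
  (((SS (d + 2) P) ×ˢ (SS (d + 2) P)).filter (fun p => |Fd d γ α p.1 - Fd d γ α p.2| ≤ d + 2)).card

theorem inv_dyadic (W : ℝ) (S : ℕ) (hW : 1 ≤ W) (hS : W ≤ 2 ^ S) :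
    1 / W ≤ ∑ s ∈ range (S + 1), (if W ≤ (2 : ℝ) ^ s then 2 * (1 / 2 : ℝ) ^ s else 0) := by
  classical
  have hex : ∃ s : ℕ, W ≤ (2 : ℝ) ^ s := ⟨S, hS⟩
  set s0 := Nat.find hex with hs0
  have h1 : W ≤ (2 : ℝ) ^ s0 := Nat.find_spec hex
  have h2 : s0 ≤ S := Nat.find_min' hex hS
  have h3 : 1 / W ≤ 2 * (1 / 2 : ℝ) ^ s0 := by
    have hW0 : 0 < W := by linarith
    rw [div_le_iff₀ hW0]
    rcases Nat.eq_zero_or_pos s0 with h0 | h0
    · rw [h0, pow_zero]
      linarith
    · have h4 : ¬ W ≤ (2 : ℝ) ^ (s0 - 1) := Nat.find_min hex (by omega)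
      push Not at h4
      have h5 : (2 : ℝ) ^ s0 = 2 * 2 ^ (s0 - 1) := by
        rw [← pow_succ']
        congr 1
        omega
      have h6 : (1 / 2 : ℝ) ^ s0 * 2 ^ s0 = 1 := by
        rw [← mul_pow]
        norm_num
      have h7 : 0 < (1 / 2 : ℝ) ^ s0 := by positivity
      have h8 : (1 / 2 : ℝ) ^ s0 * (2 * 2 ^ (s0 - 1)) ≤ (1 / 2 : ℝ) ^ s0 * (2 * W) :=
        mul_le_mul_of_nonneg_left (by linarith) h7.le
      rw [← h5, h6] at h8
      linarith
  refine h3.trans ?_
  have h4 := single_le_sum (f := fun s => if W ≤ (2 : ℝ) ^ s then 2 * (1 / 2 : ℝ) ^ s else 0)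
    (s := range (S + 1)) (fun s _ => by
      split_ifs
      · positivity
      · exact le_refl 0) (mem_range.mpr (show s0 < S + 1 by omega))
  simp only [if_pos h1] at h4
  exact h4

/-- the measure of the set of coefficients for which a pair is close -/
theorem slab2 (d : ℕ) (γ A : ℝ) (hγ : 0 < γ) (hA : 0 ≤ A) : ∃ c C1 : ℝ, 0 ≤ c ∧ 1 ≤ C1 ∧
    ∀ p : (Fin (d + 2) → ℕ) × (Fin (d + 2) → ℕ),
    ∀ W : ℝ, W = 1 + ∑ j : Fin (d + 1), |vv (d + 2) ((j : ℕ) + 1) p| →
    (Measure.pi (fun _ : Fin (d + 1) => (volume : Measure ℝ).restrict (Set.Icc (-A) A)))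
      {α | |Fd d γ α p.1 - Fd d γ α p.2| ≤ d + 2}
      ≤ ENNReal.ofReal (if |vv (d + 2) (d + 2) p| ≤ C1 * W then c / W else 0) := by
  have hd0 : (0 : ℝ) ≤ d := Nat.cast_nonneg d
  refine ⟨2 * (2 * A) ^ (d + 1) + (2 * A) ^ d * (2 * (d + 2)) * (2 * (d + 1)),
    1 + (d + 2 + A) / γ, by positivity, by
      have : 0 ≤ (d + 2 + A) / γ := by positivity
      linarith, ?_⟩
  intro p W hW
  set v : Fin (d + 1) → ℝ := fun j => vv (d + 2) ((j : ℕ) + 1) p with hv
  set w : ℝ := γ * vv (d + 2) (d + 2) p with hw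
  have hset : {α : Fin (d + 1) → ℝ | |Fd d γ α p.1 - Fd d γ α p.2| ≤ d + 2}
      = {α | |w + ∑ j, α j * v j| ≤ d + 2} := by
    ext α
    simp only [Set.mem_ofPred_eq]
    rw [Fd_sub]
  rw [hset]
  have hsum0 : 0 ≤ ∑ j, |v j| := sum_nonneg fun _ _ => abs_nonneg _
  have hW1 : W = 1 + ∑ j, |v j| := hW
  have hWp : 1 ≤ W := by linarith
  have hW0 : 0 < W := by linarith
  have hpi : Measure.pi (fun _ : Fin (d + 1) => (volume : Measure ℝ).restrict (Set.Icc (-A) A))
      = (volume : Measure (Fin (d + 1) → ℝ)).restrict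
        (Set.pi Set.univ (fun _ : Fin (d + 1) => Set.Icc (-A) A)) := by
    rw [volume_pi, Measure.restrict_pi_pi]
  split_ifs with hcase
  · -- the measure is at most c / W
    by_cases hW2 : W ≤ 2
    · have h1 : (Measure.pi (fun _ : Fin (d + 1) => (volume : Measure ℝ).restrict (Set.Icc (-A) A)))
          {α | |w + ∑ j, α j * v j| ≤ d + 2} ≤ ENNReal.ofReal ((2 * A) ^ (d + 1)) := by
        refine (measure_mono (Set.subset_univ _)).trans ?_
        rw [Measure.pi_univ]
        simp only [Measure.restrict_apply_univ, Real.volume_Icc, prod_const, card_univ,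
          Fintype.card_fin]
        rw [← ENNReal.ofReal_pow (by linarith)]
        refine ENNReal.ofReal_le_ofReal (le_of_eq ?_)
        congr 1
        ring
      refine h1.trans (ENNReal.ofReal_le_ofReal ?_)
      rw [le_div_iff₀ hW0]
      have h2 : (2 * A) ^ (d + 1) * W ≤ (2 * A) ^ (d + 1) * 2 :=
        mul_le_mul_of_nonneg_left hW2 (by positivity)
      have h3 : 0 ≤ (2 * A) ^ d * (2 * (d + 2)) * (2 * (d + 1)) := by positivity
      linarith
    · push Not at hW2
      obtain ⟨j0, _, hj0⟩ := exists_le_of_sum_le (s := (univ : Finset (Fin (d + 1))))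
        (f := fun _ => (W - 1) / (d + 1)) (g := fun j => |v j|) univ_nonempty (by
          rw [sum_const, card_univ, Fintype.card_fin, nsmul_eq_mul]
          push_cast
          rw [mul_div_cancel₀ _ (by positivity)]
          linarith)
      have h1 : W / (2 * (d + 1)) ≤ |v j0| := by
        refine le_trans ?_ hj0
        rw [div_le_div_iff₀ (by positivity) (by positivity)]
        nlinarith
      have h2 : 0 < W / (2 * ((d : ℝ) + 1)) := by positivity
      have hv0 : v j0 ≠ 0 := by
        intro h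
        rw [h, abs_zero] at h1
        linarith
      refine (slab d A hA v w (d + 2) (by positivity) j0 hv0).trans (ENNReal.ofReal_le_ofReal ?_)
      have h3 : ((d : ℝ) + 2) / |v j0| ≤ (d + 2) / (W / (2 * (d + 1))) :=
        div_le_div_of_nonneg_left (by positivity) h2 h1
      have h4 : (2 * A) ^ d * (2 * (((d : ℝ) + 2) / |v j0|))
          ≤ (2 * A) ^ d * (2 * ((d + 2) / (W / (2 * (d + 1))))) :=
        mul_le_mul_of_nonneg_left (by linarith) (by positivity)
      refine h4.trans ?_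
      have h5 : (2 * A) ^ d * (2 * (((d : ℝ) + 2) / (W / (2 * (d + 1)))))
          = (2 * A) ^ d * (2 * (d + 2)) * (2 * (d + 1)) / W := by
        field_simp
      rw [h5]
      refine div_le_div_of_nonneg_right ?_ hW0.le
      have : 0 ≤ 2 * (2 * A) ^ (d + 1) := by positivity
      linarith
  · -- the slab does not meet the box
    push Not at hcase
    rw [ENNReal.ofReal_zero, hpi]
    refine le_of_eq ?_
    rw [Measure.restrict_apply' (MeasurableSet.univ_pi fun _ => measurableSet_Icc)]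
    have : {α : Fin (d + 1) → ℝ | |w + ∑ j, α j * v j| ≤ d + 2}
        ∩ (Set.pi Set.univ (fun _ : Fin (d + 1) => Set.Icc (-A) A)) = ∅ := by
      rw [Set.eq_empty_iff_forall_notMem]
      rintro α ⟨h1, h2⟩
      simp only [Set.mem_ofPred_eq] at h1
      have h3 : |∑ j, α j * v j| ≤ A * W := by
        calc |∑ j, α j * v j| ≤ ∑ j, |α j * v j| := abs_sum_le_sum_abs _ _
          _ ≤ ∑ j, A * |v j| := by
              refine sum_le_sum fun j _ => ?_
              rw [abs_mul]
              exact mul_le_mul_of_nonneg_right (abs_le.mpr (h2 j (Set.mem_univ j))) (abs_nonneg _)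
          _ = A * ∑ j, |v j| := by rw [mul_sum]
          _ ≤ A * W := mul_le_mul_of_nonneg_left (by linarith) hA
      have h4 : |w| ≤ (d + 2) + A * W := by
        have h5 := abs_sub (w + ∑ j, α j * v j) (∑ j, α j * v j)
        rw [add_sub_cancel_right] at h5
        linarith
      rw [hw, abs_mul, abs_of_pos hγ] at h4
      have h6 : γ * ((1 + (d + 2 + A) / γ) * W) < (d + 2) + A * W :=
        lt_of_lt_of_le (mul_lt_mul_of_pos_left hcase hγ) h4
      have h7 : γ * ((1 + (d + 2 + A) / γ) * W) = γ * W + (d + 2) * W + A * W := by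
        field_simp
        ring
      rw [h7] at h6
      nlinarith
    rw [this, measure_empty]

end Pool.Agent.V7H89.GP
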