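import Mathlib

/-!
Exponential sums: basic tools, the differencing inequality, and the counting lemma for the integers
h with h * theta close to an integer.
-/

namespace Pool.Agent.V7H89.GP

open Finset

/-- exp(2 pi i x) -/
noncomputable def ee (x : ℝ) : ℂ := Complex.exp ((2 * Real.pi * x : ℝ) * Complex.I)

/-- the distance to the nearest integer -/
noncomputable def dn (x : ℝ) : ℝ := |x - round x|

theorem ee_add (x y : ℝ) : ee (x + y) = ee x * ee y := by
  unfold ee
  rw [← Complex.exp_add]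
  congr 1
  push_cast
  ring

theorem norm_ee (x : ℝ) : ‖ee x‖ = 1 := by
  unfold ee
  rw [Complex.norm_exp_ofReal_mul_I]

theorem ee_zero : ee 0 = 1 := by
  unfold ee
  simp

theorem ee_int (n : ℤ) : ee (n : ℝ) = 1 := by
  unfold ee
  rw [Complex.exp_eq_one_iff]
  refine ⟨n, ?_⟩
  push_cast
  ring

theorem conj_ee (x : ℝ) : (starRingEnd ℂ) (ee x) = ee (-x) := by
  unfold ee
  rw [← Complex.exp_conj]
  congr 1
  rw [map_mul, Complex.conj_ofReal, Complex.conj_I]
  push_cast
  ring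

theorem ee_sub_one (x : ℝ) : ‖ee x - 1‖ = 2 * |Real.sin (Real.pi * x)| := by
  have h := Complex.norm_exp_I_mul_ofReal_sub_one (2 * Real.pi * x)
  have e1 : ee x = Complex.exp (Complex.I * ((2 * Real.pi * x : ℝ) : ℂ)) := by
    unfold ee
    rw [mul_comm]
  rw [e1, h]
  rw [show 2 * Real.pi * x / 2 = Real.pi * x by ring]
  rw [Real.norm_eq_abs, abs_mul]
  norm_num

theorem ee_sub_one_le (x : ℝ) : ‖ee x - 1‖ ≤ 2 * Real.pi * |x| := by
  rw [ee_sub_one]
  have h : |Real.sin (Real.pi * x)| ≤ |Real.pi * x| := Real.abs_sin_le_abs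
  rw [abs_mul, abs_of_pos Real.pi_pos] at h
  nlinarith [h]

theorem ee_sub_le (x y : ℝ) : ‖ee x - ee y‖ ≤ 2 * Real.pi * |x - y| := by
  have h : ee x - ee y = ee y * (ee (x - y) - 1) := by
    rw [mul_sub, ← ee_add, mul_one]
    congr 2
    ring
  rw [h, norm_mul, norm_ee, one_mul]
  exact ee_sub_one_le _

theorem dn_nonneg (x : ℝ) : 0 ≤ dn x := abs_nonneg _

theorem dn_le_half (x : ℝ) : dn x ≤ 1 / 2 := abs_sub_round x

theorem dn_le (x : ℝ) (n : ℤ) : dn x ≤ |x - n| := round_le x n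

theorem dn_add_int (x : ℝ) (n : ℤ) : dn (x + n) = dn x := by
  unfold dn
  rw [round_add_intCast]
  congr 1
  push_cast
  ring

theorem dn_add_le (x y : ℝ) : dn (x + y) ≤ dn x + |y| := by
  calc dn (x + y) ≤ |x + y - round x| := dn_le _ _
    _ = |(x - round x) + y| := by congr 1; ring
    _ ≤ dn x + |y| := abs_add_le _ _

theorem dn_sub (x y : ℝ) : dn (x - y) ≤ dn x + dn y := by
  have h := dn_le (x - y) (round x - round y)
  refine h.trans ?_
  push_cast
  calc |x - y - ((round x : ℝ) - round y)| = |(x - round x) - (y - round y)| := by congr 1; ring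
    _ ≤ dn x + dn y := abs_sub _ _

theorem dn_nat_mul (n : ℕ) (x : ℝ) : dn (n * x) ≤ n * dn x := by
  have h := dn_le (n * x) (n * round x)
  refine h.trans (le_of_eq ?_)
  push_cast
  rw [← mul_sub, abs_mul, Nat.abs_cast]
  rfl

theorem dn_small (x : ℝ) (hx : |x| < 1 / 2) : dn x = |x| := by
  have h : round x = 0 := by
    rw [round_eq_zero_iff]
    rw [abs_lt] at hx
    constructor <;> linarith [hx.1, hx.2]
  unfold dn
  rw [h]
  simp

theorem ee_ge (x : ℝ) : 4 * dn x ≤ ‖ee x - 1‖ := by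
  have h1 : ee x = ee (x - round x) := by
    have h2 : ee x = ee ((x - round x) + (round x : ℤ)) := by congr 1; ring
    rw [h2, ee_add, ee_int, mul_one]
  rw [h1, ee_sub_one]
  have h3 : |Real.pi * (x - round x)| ≤ Real.pi / 2 := by
    rw [abs_mul, abs_of_pos Real.pi_pos]
    have := abs_sub_round x
    nlinarith [Real.pi_pos]
  have h4 := Real.mul_abs_le_abs_sin h3
  rw [abs_mul, abs_of_pos Real.pi_pos] at h4
  have h5 : 2 / Real.pi * (Real.pi * |x - round x|) = 2 * dn x := by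
    unfold dn
    field_simp
  rw [h5] at h4
  linarith

/-- geometric sums -/
theorem geom (γ b : ℝ) (n : ℕ) : ‖∑ i ∈ range n, ee (γ * i + b)‖ * (4 * dn γ) ≤ 2 := by
  have h1 : (∑ i ∈ range n, ee (γ * i + b)) * (ee γ - 1) = ee (γ * n + b) - ee b := by
    induction n with
    | zero => simp
    | succ n ih =>
      rw [sum_range_succ, add_mul, ih]
      have h2 : ee (γ * ((n + 1 : ℕ) : ℝ) + b) = ee (γ * n + b) * ee γ := by
        rw [← ee_add]
        congr 1
        push_cast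
        ring
      rw [h2]
      ring
  have h2 : ‖∑ i ∈ range n, ee (γ * i + b)‖ * ‖ee γ - 1‖ ≤ 2 := by
    rw [← norm_mul, h1]
    calc ‖ee (γ * n + b) - ee b‖ ≤ ‖ee (γ * n + b)‖ + ‖ee b‖ := norm_sub_le _ _
      _ = 2 := by rw [norm_ee, norm_ee]; norm_num
  calc ‖∑ i ∈ range n, ee (γ * i + b)‖ * (4 * dn γ)
      ≤ ‖∑ i ∈ range n, ee (γ * i + b)‖ * ‖ee γ - 1‖ :=
        mul_le_mul_of_nonneg_left (ee_ge γ) (norm_nonneg _)
    _ ≤ 2 := h2

/-- differencing -/
theorem diff_ineq (u : ℕ → ℂ) (n : ℕ) : ‖∑ i ∈ range n, u i‖ ^ 2 ≤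
    2 * ∑ h ∈ range n, ‖∑ j ∈ range (n - h), u (j + h) * (starRingEnd ℂ) (u j)‖ := by
  have h1 : ∀ n : ℕ, ‖∑ i ∈ range n, u i‖ ^ 2 ≤
      2 * (∑ i ∈ range n, ∑ j ∈ range (i + 1), u i * (starRingEnd ℂ) (u j)).re := by
    intro n
    induction n with
    | zero => simp
    | succ n ih =>
      rw [sum_range_succ (fun i => ∑ j ∈ range (i + 1), u i * (starRingEnd ℂ) (u j)),
        Complex.add_re, mul_add]
      rw [sum_range_succ u]
      have h2 : ‖(∑ i ∈ range n, u i) + u n‖ ^ 2 = ‖∑ i ∈ range n, u i‖ ^ 2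
          + 2 * (u n * (starRingEnd ℂ) (∑ i ∈ range n, u i)).re + ‖u n‖ ^ 2 := by
        rw [← Complex.normSq_eq_norm_sq, ← Complex.normSq_eq_norm_sq, ← Complex.normSq_eq_norm_sq,
          Complex.normSq_add]
        have : ((∑ i ∈ range n, u i) * (starRingEnd ℂ) (u n)).re
            = (u n * (starRingEnd ℂ) (∑ i ∈ range n, u i)).re := by
          simp only [Complex.mul_re, Complex.conj_re, Complex.conj_im]
          ring
        rw [this]
        ring
      have h3 : ∑ j ∈ range (n + 1), u n * (starRingEnd ℂ) (u j)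
          = u n * (starRingEnd ℂ) (∑ i ∈ range n, u i) + ((‖u n‖ ^ 2 : ℝ) : ℂ) := by
        rw [← mul_sum, ← map_sum, sum_range_succ, map_add, mul_add]
        congr 1
        rw [Complex.mul_conj, Complex.normSq_eq_norm_sq]
      rw [h2, h3, Complex.add_re, Complex.ofReal_re]
      nlinarith [ih, sq_nonneg ‖u n‖]
  have h4 : ∑ i ∈ range n, ∑ j ∈ range (i + 1), u i * (starRingEnd ℂ) (u j)
      = ∑ h ∈ range n, ∑ j ∈ range (n - h), u (j + h) * (starRingEnd ℂ) (u j) := by
    rw [sum_sigma', sum_sigma']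
    refine sum_nbij' (fun p => ⟨p.1 - p.2, p.2⟩) (fun p => ⟨p.2 + p.1, p.2⟩) ?_ ?_ ?_ ?_ ?_
    · rintro ⟨i, j⟩ h
      simp only [mem_sigma, mem_range] at h ⊢
      omega
    · rintro ⟨i, j⟩ h
      simp only [mem_sigma, mem_range] at h ⊢
      omega
    · rintro ⟨i, j⟩ h
      simp only [mem_sigma, mem_range] at h ⊢
      have : j + (i - j) = i := by omega
      rw [this]
    · rintro ⟨i, j⟩ h
      simp only [mem_sigma, mem_range] at h ⊢
      have : j + i - j = i := by omega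
      rw [this]
    · rintro ⟨i, j⟩ h
      simp only [mem_sigma, mem_range] at h ⊢
      have : j + (i - j) = i := by omega
      rw [this]
  refine (h1 n).trans ?_
  refine mul_le_mul_of_nonneg_left ?_ (by norm_num)
  rw [h4]
  exact (Complex.re_le_norm _).trans (norm_sum_le _ _)

/-- windows: a set of density 1/K has a window of length W with W/(2K) elements -/
theorem window (H : Finset ℕ) (n W : ℕ) (X K : ℝ) (hX : 0 < X) (hK : 0 < K) (hn : (n : ℝ) ≤ X)
    (hH : H ⊆ range n) (hc : X / K ≤ H.card) (hW : 1 ≤ W) (hWX : (W : ℝ) ≤ X) :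
    ∃ c : ℕ, (W : ℝ) / (2 * K) ≤ ((H.filter (fun h => h / W = c)).card : ℝ) := by
  have hW0 : (0 : ℝ) < W := by exact_mod_cast hW
  have h1 : ∀ h ∈ H, h / W ∈ range (n / W + 1) := by
    intro h hh
    have := mem_range.mp (hH hh)
    rw [mem_range]
    have := Nat.div_le_div_right (c := W) this.le
    omega
  have h2 : ((range (n / W + 1)).card) • ((W : ℝ) / (2 * K)) ≤ (H.card : ℝ) := by
    rw [card_range, nsmul_eq_mul]
    refine le_trans ?_ hc
    have h3 : ((n / W : ℕ) : ℝ) ≤ n / W := Nat.cast_div_le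
    have h4 : (((n / W + 1 : ℕ)) : ℝ) ≤ 2 * X / W := by
      push_cast
      rw [le_div_iff₀ hW0]
      have : ((n / W : ℕ) : ℝ) * W ≤ n := by
        rw [le_div_iff₀ hW0] at h3
        exact h3
      nlinarith
    calc (((n / W + 1 : ℕ)) : ℝ) * (W / (2 * K)) ≤ 2 * X / W * (W / (2 * K)) :=
          mul_le_mul_of_nonneg_right h4 (by positivity)
      _ = X / K := by field_simp
  obtain ⟨c, _, hc'⟩ := exists_le_card_fiber_of_nsmul_le_card_of_maps_to h1
    (by simp) h2
  exact ⟨c, hc'⟩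

/-- if h * theta is near an integer for a positive proportion of the h <= X, then theta is near a
rational number with a small denominator -/
theorem many_close (H : Finset ℕ) (n : ℕ) (X K θ δ : ℝ) (hK : 1 ≤ K) (hX : 16 * K ≤ X)
    (_hδ : 0 ≤ δ) (hKδ : 256 * (K * δ) ≤ 1) (hn : (n : ℝ) ≤ X) (hH : H ⊆ range n)
    (hc : X / K ≤ H.card) (hd : ∀ h ∈ H, dn (h * θ) ≤ δ) :
    ∃ q : ℕ, 1 ≤ q ∧ (q : ℝ) ≤ 2 * K ∧ dn (q * θ) ≤ 16 * (K * δ) / X := by
  have hX0 : 0 < X := by linarith
  have hK0 : 0 < K := by linarith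
  have hdiff : ∀ h ∈ H, ∀ h' ∈ H, h ≤ h' → dn (((h' - h : ℕ) : ℝ) * θ) ≤ 2 * δ := by
    intro h hh h' hh' hle
    rw [Nat.cast_sub hle, sub_mul]
    have := dn_sub (h' * θ) (h * θ)
    linarith [hd h hh, hd h' hh']
  -- the first pair
  have hex : ∃ q : ℕ, 1 ≤ q ∧ (q : ℝ) ≤ 2 * K ∧ dn (q * θ) ≤ 2 * δ := by
    set W : ℕ := ⌊2 * K⌋₊ + 1 with hW
    have hW1 : (2 * K : ℝ) < W := by
      rw [hW]; push_cast
      exact Nat.lt_floor_add_one _
    have hW2 : (W : ℝ) ≤ X := by
      have : (⌊2 * K⌋₊ : ℝ) ≤ 2 * K := Nat.floor_le (by linarith)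
      rw [hW]; push_cast
      linarith
    obtain ⟨c, hc'⟩ := window H n W X K hX0 hK0 hn hH hc (by omega) hW2
    have h1 : (1 : ℝ) < ((H.filter (fun h => h / W = c)).card : ℝ) := by
      refine lt_of_lt_of_le ?_ hc'
      rw [lt_div_iff₀ (by linarith)]
      linarith
    have h2 : 1 < (H.filter (fun h => h / W = c)).card := by exact_mod_cast h1
    obtain ⟨x, hx, y, hy, hxy⟩ := one_lt_card.mp h2
    rw [mem_filter] at hx hy
    have key : ∀ x y : ℕ, x ∈ H → y ∈ H → x / W = c → y / W = c → x < y →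
        ∃ q : ℕ, 1 ≤ q ∧ (q : ℝ) ≤ 2 * K ∧ dn (q * θ) ≤ 2 * δ := by
      intro x y hx hy hxc hyc hlt
      refine ⟨y - x, by omega, ?_, hdiff x hx y hy hlt.le⟩
      have h5 : y - x ≤ ⌊2 * K⌋₊ := by
        have e1 := Nat.div_add_mod x W
        have e2 := Nat.div_add_mod y W
        rw [hxc] at e1
        rw [hyc] at e2
        have := Nat.mod_lt y (show 0 < W by omega)
        omega
      calc ((y - x : ℕ) : ℝ) ≤ (⌊2 * K⌋₊ : ℝ) := by exact_mod_cast h5
        _ ≤ 2 * K := Nat.floor_le (by linarith)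
    rcases lt_or_gt_of_ne hxy with h | h
    · exact key x y hx.1 hy.1 hx.2 hy.2 h
    · exact key y x hy.1 hx.1 hy.2 hx.2 h
  classical
  have hex2 : ∃ q : ℕ, 1 ≤ q ∧ dn (q * θ) ≤ 2 * δ := by
    obtain ⟨q, h1, _, h3⟩ := hex
    exact ⟨q, h1, h3⟩
  set q := Nat.find hex2 with hq
  obtain ⟨hq1, hq2⟩ := Nat.find_spec hex2
  rw [← hq] at hq1 hq2
  have hmin : ∀ r : ℕ, 1 ≤ r → r < q → 2 * δ < dn (r * θ) := by
    intro r hr hrq
    by_contra h
    push Not at h
    exact Nat.find_min hex2 hrq ⟨hr, h⟩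
  have hqK : (q : ℝ) ≤ 2 * K := by
    obtain ⟨q', h1, h2, h3⟩ := hex
    have : q ≤ q' := Nat.find_min' hex2 ⟨h1, h3⟩
    exact le_trans (by exact_mod_cast this) h2
  have hq0 : (0 : ℝ) < q := by exact_mod_cast hq1
  set a : ℤ := round ((q : ℝ) * θ) with ha
  set ε : ℝ := q * θ - a with hε
  have hεd : |ε| = dn (q * θ) := rfl
  have hε2 : |ε| ≤ 2 * δ := hq2
  have hqδ : 2 * δ * q ≤ 1 / 2 := by nlinarith
  have hr : ∀ r : ℕ, 1 ≤ r → r < q → 1 / (2 * q) ≤ dn (r * θ) := by
    intro r hr hrq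
    have h1 := hmin r hr hrq
    set c : ℤ := round ((r : ℝ) * θ) with hc
    have h2 : dn (r * θ) = |r * θ - c| := rfl
    have h3 : (q : ℝ) * (r * θ - c) = ((r * a - q * c : ℤ) : ℝ) + r * ε := by
      push_cast
      rw [hε]
      ring
    have hrq' : (r : ℝ) ≤ q := by exact_mod_cast hrq.le
    by_cases h4 : (r * a - q * c : ℤ) = 0
    · exfalso
      rw [h4] at h3
      have h5 : (q : ℝ) * dn (r * θ) = r * |ε| := by
        rw [h2]
        have := congrArg abs h3
        rw [abs_mul, abs_of_pos hq0, Int.cast_zero, zero_add, abs_mul,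
          Nat.abs_cast] at this
        exact this
      have h6 : (q : ℝ) * dn (r * θ) ≤ q * (2 * δ) := by
        rw [h5]
        calc (r : ℝ) * |ε| ≤ q * |ε| := mul_le_mul_of_nonneg_right hrq' (abs_nonneg _)
          _ ≤ q * (2 * δ) := mul_le_mul_of_nonneg_left hε2 hq0.le
      have := le_of_mul_le_mul_left h6 hq0
      linarith
    · have h5 : (1 : ℝ) ≤ |((r * a - q * c : ℤ) : ℝ)| := by
        rw [← Int.cast_abs]
        exact_mod_cast Int.one_le_abs h4
      have h6 : (1 : ℝ) - r * |ε| ≤ q * dn (r * θ) := by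
        rw [h2]
        have h7 : (q : ℝ) * |r * θ - c| = |((r * a - q * c : ℤ) : ℝ) + r * ε| := by
          rw [← h3, abs_mul, abs_of_pos hq0]
        rw [h7]
        have h8 : |((r * a - q * c : ℤ) : ℝ)| ≤ |((r * a - q * c : ℤ) : ℝ) + r * ε| + |r * ε| := by
          have h9 := abs_sub (((r * a - q * c : ℤ) : ℝ) + r * ε) (r * ε)
          have h10 : ((r * a - q * c : ℤ) : ℝ) + r * ε - r * ε = ((r * a - q * c : ℤ) : ℝ) := by
            ring
          rw [h10] at h9
          exact h9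
        rw [abs_mul, Nat.abs_cast] at h8
        linarith
      have h7 : (r : ℝ) * |ε| ≤ 1 / 2 := by
        calc (r : ℝ) * |ε| ≤ q * (2 * δ) := mul_le_mul hrq' hε2 (abs_nonneg _) hq0.le
          _ ≤ 1 / 2 := by linarith
      rw [div_le_iff₀ (by positivity)]
      nlinarith
  have hstep : ∀ u : ℕ, dn (u * θ) ≤ 2 * δ → (u : ℝ) * |ε| ≤ 1 / 8 →
      q ∣ u ∧ (u : ℝ) * |ε| ≤ 2 * δ * q := by
    intro u hu hu2
    set s := u / q with hs
    set r := u % q with hr'
    have hur : q * s + r = u := Nat.div_add_mod u q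
    have hurR : (q : ℝ) * s + r = u := by exact_mod_cast hur
    have hrlt : r < q := Nat.mod_lt _ (by omega)
    have hsε : (s : ℝ) * |ε| ≤ 1 / (8 * q) := by
      rw [le_div_iff₀ (by positivity)]
      have : (q : ℝ) * s ≤ u := by
        have : (0 : ℝ) ≤ r := Nat.cast_nonneg r
        linarith
      have h9 : (q : ℝ) * s * |ε| ≤ u * |ε| := mul_le_mul_of_nonneg_right this (abs_nonneg _)
      nlinarith
    have hr0 : r = 0 := by
      by_contra hne
      have h1 := hr r (by omega) hrlt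
      have h2 : (r : ℝ) * θ = (u * θ + (-(s : ℝ) * ε)) + ((-(s * a : ℤ) : ℤ) : ℝ) := by
        push_cast
        rw [hε, ← hurR]
        ring
      rw [h2, dn_add_int] at h1
      have h3 := dn_add_le (u * θ) (-(s : ℝ) * ε)
      rw [abs_mul, abs_neg, Nat.abs_cast] at h3
      have h4 : 1 / (2 * (q : ℝ)) ≤ 2 * δ + 1 / (8 * q) := by linarith
      have h5 : 3 / 8 * (1 / (q : ℝ)) ≤ 2 * δ := by
        have e1 : 1 / (2 * (q : ℝ)) = 1 / 2 * (1 / q) := by field_simp
        have e2 : 1 / (8 * (q : ℝ)) = 1 / 8 * (1 / q) := by field_simp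
        rw [e1, e2] at h4
        linarith
      have h6 : 3 / 8 ≤ 2 * δ * q := by
        rw [mul_one_div, div_le_iff₀ hq0] at h5
        exact h5
      nlinarith
    have hus : (u : ℝ) = q * s := by rw [← hurR, hr0]; simp
    refine ⟨⟨s, by rw [← hur, hr0]; simp⟩, ?_⟩
    have h1 : (u : ℝ) * θ = (s : ℝ) * ε + ((s * a : ℤ) : ℝ) := by
      push_cast
      rw [hε, hus]
      ring
    rw [h1, dn_add_int] at hu
    have h8q : 1 / (8 * (q : ℝ)) ≤ 1 / 8 := by
      rw [div_le_div_iff₀ (by positivity) (by norm_num)]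
      have : (1 : ℝ) ≤ q := by exact_mod_cast hq1
      linarith
    have h2 : |(s : ℝ) * ε| < 1 / 2 := by
      rw [abs_mul, Nat.abs_cast]
      linarith
    rw [dn_small _ h2, abs_mul, Nat.abs_cast] at hu
    rw [hus]
    nlinarith
  -- the main window
  have hmain : ∀ W : ℕ, 4 * K ≤ W → (W : ℝ) ≤ X → (W : ℝ) * |ε| ≤ 1 / 8 →
      (W : ℝ) * |ε| ≤ 8 * (K * δ) := by
    intro W hW1 hW2 hW3
    have hWpos : 1 ≤ W := by
      have : (1 : ℝ) ≤ W := by linarith
      exact_mod_cast this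
    obtain ⟨c, hc'⟩ := window H n W X K hX0 hK0 hn hH hc hWpos hW2
    set H' := H.filter (fun h => h / W = c) with hH'
    have hm2 : (2 : ℝ) ≤ H'.card := by
      refine le_trans ?_ hc'
      rw [le_div_iff₀ (by linarith)]
      linarith
    have hne : H'.Nonempty := by
      rw [← card_pos]
      have : (0 : ℝ) < H'.card := by linarith
      exact_mod_cast this
    set x := H'.min' hne with hx
    set y := H'.max' hne with hy
    have hxm : x ∈ H' := min'_mem _ _
    have hym : y ∈ H' := max'_mem _ _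
    have hxy : x ≤ y := min'_le _ _ hym
    have hxH := (mem_filter.mp hxm)
    have hyH := (mem_filter.mp hym)
    have hsp : ∀ z ∈ H', z - x < W := by
      intro z hz
      have hzH := (mem_filter.mp hz)
      have e1 := Nat.div_add_mod x W
      have e2 := Nat.div_add_mod z W
      rw [hxH.2] at e1
      rw [hzH.2] at e2
      have := Nat.mod_lt z (show 0 < W by omega)
      omega
    have hall : ∀ z ∈ H', q ∣ z - x ∧ ((z - x : ℕ) : ℝ) * |ε| ≤ 2 * δ * q := by
      intro z hz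
      have hzH := (mem_filter.mp hz)
      have hxz : x ≤ z := min'_le _ _ hz
      refine hstep (z - x) (hdiff x hxH.1 z hzH.1 hxz) ?_
      have : ((z - x : ℕ) : ℝ) ≤ W := by exact_mod_cast (hsp z hz).le
      calc ((z - x : ℕ) : ℝ) * |ε| ≤ W * |ε| := mul_le_mul_of_nonneg_right this (abs_nonneg _)
        _ ≤ 1 / 8 := hW3
    have hcard : H'.card ≤ (y - x) / q + 1 := by
      have h1 : (H'.image (fun z => (z - x) / q)) ⊆ range ((y - x) / q + 1) := by
        intro t ht
        rw [mem_image] at ht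
        obtain ⟨z, hz, rfl⟩ := ht
        rw [mem_range]
        have : z ≤ y := le_max' _ _ hz
        have := Nat.div_le_div_right (c := q) (show z - x ≤ y - x by omega)
        omega
      have h2 : (H'.image (fun z => (z - x) / q)).card = H'.card := by
        apply card_image_of_injOn
        intro z hz z' hz' he
        simp only at he
        have d1 := (hall z hz).1
        have d2 := (hall z' hz').1
        have e1 := Nat.div_mul_cancel d1
        have e2 := Nat.div_mul_cancel d2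
        have : z - x = z' - x := by rw [← e1, ← e2, he]
        have hxz : x ≤ z := min'_le _ _ hz
        have hxz' : x ≤ z' := min'_le _ _ hz'
        omega
      have h3 := card_le_card h1
      rw [h2, card_range] at h3
      exact h3
    have hdiv : (((y - x) / q : ℕ) : ℝ) * q ≤ ((y - x : ℕ) : ℝ) := by
      exact_mod_cast Nat.div_mul_le_self (y - x) q
    have hcardR : (H'.card : ℝ) ≤ (((y - x) / q : ℕ) : ℝ) + 1 := by exact_mod_cast hcard
    have h1 : ((H'.card : ℝ) - 1) * q * |ε| ≤ 2 * δ * q := by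
      calc ((H'.card : ℝ) - 1) * q * |ε| ≤ (((y - x) / q : ℕ) : ℝ) * q * |ε| := by
            refine mul_le_mul_of_nonneg_right ?_ (abs_nonneg _)
            exact mul_le_mul_of_nonneg_right (by linarith) hq0.le
        _ ≤ ((y - x : ℕ) : ℝ) * |ε| := mul_le_mul_of_nonneg_right hdiv (abs_nonneg _)
        _ ≤ 2 * δ * q := (hall y hym).2
    have h2 : ((H'.card : ℝ) - 1) * |ε| ≤ 2 * δ := by
      have : ((H'.card : ℝ) - 1) * |ε| * q ≤ 2 * δ * q := by linarith
      exact le_of_mul_le_mul_right this hq0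
    have h3 : (W : ℝ) / (4 * K) ≤ (H'.card : ℝ) - 1 := by
      have : (W : ℝ) / (2 * K) = 2 * (W / (4 * K)) := by field_simp; ring
      rw [this] at hc'
      linarith
    have h4 : (W : ℝ) / (4 * K) * |ε| ≤ 2 * δ :=
      (mul_le_mul_of_nonneg_right h3 (abs_nonneg _)).trans h2
    have h5 : (W : ℝ) / (4 * K) * |ε| = W * |ε| / (4 * K) := by ring
    rw [h5, div_le_iff₀ (by positivity)] at h4
    nlinarith
  refine ⟨q, hq1, hqK, ?_⟩
  rw [← hεd]
  rw [le_div_iff₀ hX0]
  by_cases hcase : X * |ε| ≤ 1 / 8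
  · have hfl : X / 2 ≤ (⌊X⌋₊ : ℝ) := by
      have := Nat.lt_floor_add_one X
      have : (1 : ℝ) ≤ ⌊X⌋₊ := by
        have h1 : 1 ≤ ⌊X⌋₊ := Nat.le_floor (by push_cast; linarith)
        exact_mod_cast h1
      linarith
    have hfl2 : (⌊X⌋₊ : ℝ) ≤ X := Nat.floor_le hX0.le
    have h1 := hmain ⌊X⌋₊ (by linarith) hfl2
      (le_trans (mul_le_mul_of_nonneg_right hfl2 (abs_nonneg _)) hcase)
    have h2 : X / 2 * |ε| ≤ (⌊X⌋₊ : ℝ) * |ε| := mul_le_mul_of_nonneg_right hfl (abs_nonneg _)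
    linarith
  · exfalso
    push Not at hcase
    have hε0 : 0 < |ε| := by
      by_contra h
      have : |ε| = 0 := le_antisymm (not_lt.mp h) (abs_nonneg _)
      rw [this] at hcase
      norm_num at hcase
    set Y : ℝ := 1 / (8 * |ε|) with hY
    have hYe : Y * |ε| = 1 / 8 := by rw [hY]; field_simp
    have hYX : Y ≤ X := by
      rw [hY, div_le_iff₀ (by positivity)]
      linarith
    have hδ0 : 0 < δ := by linarith
    have hY8 : 16 * K ≤ Y := by
      rw [hY, le_div_iff₀ (by positivity)]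
      nlinarith
    have hfl : Y / 2 ≤ (⌊Y⌋₊ : ℝ) := by
      have := Nat.lt_floor_add_one Y
      have : (1 : ℝ) ≤ ⌊Y⌋₊ := by
        have h1 : 1 ≤ ⌊Y⌋₊ := Nat.le_floor (by push_cast; linarith)
        exact_mod_cast h1
      linarith
    have hfl2 : (⌊Y⌋₊ : ℝ) ≤ Y := Nat.floor_le (by linarith)
    have h1 := hmain ⌊Y⌋₊ (by linarith) (by linarith)
      (le_trans (mul_le_mul_of_nonneg_right hfl2 (abs_nonneg _)) hYe.le)
    have h2 : Y / 2 * |ε| ≤ (⌊Y⌋₊ : ℝ) * |ε| := mul_le_mul_of_nonneg_right hfl (abs_nonneg _)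
    nlinarith

end Pool.Agent.V7H89.GP
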