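import Pool.Agent.V7H89.GP.WeylA

/-!
Weyl sums of polynomials: if the sum of e(g(i)) over i < n <= X is at least X/K then the leading
coefficient of g, of degree d, is within C K^C / X^d of a rational number with denominator at
most C K^C.
-/

namespace Pool.Agent.V7H89.GP

open Finset

/-- g is a polynomial of degree at most d + 1 with leading coefficient γ, in terms of iterated
differences -/
def PL : ℕ → ℝ → (ℕ → ℝ) → Prop
  | 0, γ, g => ∃ b : ℝ, ∀ n : ℕ, g n = γ * n + b
  | d + 1, γ, g => ∀ h : ℕ, PL d ((d + 2) * γ * h) (fun n => g (n + h) - g n)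

theorem PL_affine (d : ℕ) : ∀ (γ : ℝ) (g : ℕ → ℝ), PL d γ g → ∀ a q : ℕ,
    PL d (γ * (q : ℝ) ^ (d + 1)) (fun m => g (a + q * m)) := by
  induction d with
  | zero =>
    intro γ g hg a q
    obtain ⟨b, hb⟩ := hg
    refine ⟨γ * a + b, fun n => ?_⟩
    simp only
    rw [hb]
    push_cast
    ring
  | succ d ih =>
    intro γ g hg a q h
    have h1 := ih _ _ (hg (q * h)) a q
    have e1 : (d + 2 : ℝ) * (γ * (q : ℝ) ^ (d + 1 + 1)) * h
        = (d + 2) * γ * ((q * h : ℕ) : ℝ) * (q : ℝ) ^ (d + 1) := by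
      push_cast
      ring
    have e2 : (fun n => (fun m => g (a + q * m)) (n + h) - (fun m => g (a + q * m)) n)
        = (fun m => (fun n => g (n + q * h) - g n) (a + q * m)) := by
      funext n
      simp only
      congr 2
      ring
    rw [e1, e2]
    exact h1

theorem PL_poly (d : ℕ) : ∀ a : ℕ → ℝ, PL d (a (d + 1))
    (fun n => ∑ i ∈ range (d + 2), a i * (n : ℝ) ^ i) := by
  induction d with
  | zero =>
    intro a
    refine ⟨a 0, fun n => ?_⟩
    simp only
    rw [sum_range_succ, sum_range_succ, sum_range_zero]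
    simp only [zero_add, pow_zero, pow_one]
    ring
  | succ d ih =>
    intro a h
    set b : ℕ → ℝ := fun i => ∑ j ∈ range (d + 1 + 2), if i < j then
      a j * (j.choose i : ℝ) * (h : ℝ) ^ (j - i) else 0 with hb
    have h1 := ih b
    have e1 : b (d + 1) = (d + 2) * a (d + 1 + 1) * h := by
      rw [hb]
      simp only
      rw [sum_eq_single (d + 2)]
      · rw [if_pos (by omega)]
        rw [show d + 2 - (d + 1) = 1 by omega, pow_one]
        rw [show (d + 2).choose (d + 1) = d + 2 by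
          rw [show d + 2 = (d + 1) + 1 by ring, Nat.choose_succ_self_right]]
        push_cast
        ring
      · intro j hj hne
        rw [mem_range] at hj
        rw [if_neg (by omega)]
      · intro hn
        exact absurd (mem_range.mpr (by omega)) hn
    have e2 : (fun n : ℕ => (fun n : ℕ => ∑ i ∈ range (d + 1 + 2), a i * (n : ℝ) ^ i) (n + h)
        - (fun n : ℕ => ∑ i ∈ range (d + 1 + 2), a i * (n : ℝ) ^ i) n)
        = (fun n : ℕ => ∑ i ∈ range (d + 2), b i * (n : ℝ) ^ i) := by
      funext n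
      simp only
      rw [← sum_sub_distrib]
      have h3 : ∀ j ∈ range (d + 1 + 2), a j * (((n + h : ℕ) : ℝ)) ^ j - a j * (n : ℝ) ^ j
          = ∑ i ∈ range (d + 2), if i < j then
            a j * (j.choose i : ℝ) * (h : ℝ) ^ (j - i) * (n : ℝ) ^ i else 0 := by
        intro j hj
        rw [mem_range] at hj
        rw [← sum_filter]
        have h4 : (range (d + 2)).filter (fun i => i < j) = range j := by
          ext i
          simp only [mem_filter, mem_range]
          omega
        rw [h4]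
        push_cast
        rw [add_pow, sum_range_succ, Nat.choose_self, Nat.sub_self, pow_zero]
        rw [mul_add, mul_sum]
        have : ∀ i ∈ range j, a j * ((n : ℝ) ^ i * (h : ℝ) ^ (j - i) * (j.choose i : ℝ))
            = a j * (j.choose i : ℝ) * (h : ℝ) ^ (j - i) * (n : ℝ) ^ i := fun i _ => by ring
        rw [sum_congr rfl this]
        push_cast
        ring
      rw [sum_congr rfl h3, sum_comm]
      refine sum_congr rfl fun i _ => ?_
      rw [hb]
      simp only
      rw [sum_mul]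
      refine sum_congr rfl fun j _ => ?_
      split_ifs
      · rfl
      · ring
    rw [← e1, e2]
    exact h1

/-- a power of K times a constant -/
theorem pow_bd (A B C : ℕ) (K : ℝ) (hK : 1 ≤ K) (hA : A ≤ C) (hB : B ≤ C) :
    (A : ℝ) * K ^ B ≤ C * K ^ C := by
  have h1 : (A : ℝ) ≤ C := by exact_mod_cast hA
  have h2 : K ^ B ≤ K ^ C := pow_le_pow_right₀ hK hB
  have h3 : (0 : ℝ) ≤ A := Nat.cast_nonneg A
  have h4 : 0 < K ^ B := by positivity
  calc (A : ℝ) * K ^ B ≤ C * K ^ B := mul_le_mul_of_nonneg_right h1 h4.le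
    _ ≤ C * K ^ C := mul_le_mul_of_nonneg_left h2 (by linarith)

theorem weyl (d : ℕ) : ∃ C : ℕ, 1 ≤ C ∧ ∀ (γ : ℝ) (g : ℕ → ℝ), PL d γ g →
    ∀ X K : ℝ, 1 ≤ X → 1 ≤ K → ∀ n : ℕ, (n : ℝ) ≤ X →
      X / K ≤ ‖∑ i ∈ range n, ee (g i)‖ →
      ∃ q : ℕ, 1 ≤ q ∧ (q : ℝ) ≤ C * K ^ C ∧ dn (q * γ) ≤ C * K ^ C / X ^ (d + 1) := by
  induction d with
  | zero =>
    refine ⟨1, le_refl _, ?_⟩
    intro γ g hg X K hX hK n hn hS
    obtain ⟨b, hb⟩ := hg
    refine ⟨1, le_refl _, by simpa using hK, ?_⟩
    have h1 := geom γ b n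
    have h2 : ∑ i ∈ range n, ee (g i) = ∑ i ∈ range n, ee (γ * i + b) :=
      sum_congr rfl fun i _ => by rw [hb]
    rw [h2] at hS
    have hX0 : 0 < X := by linarith
    have hK0 : 0 < K := by linarith
    have h3 : X / K * (4 * dn γ) ≤ 2 :=
      (mul_le_mul_of_nonneg_right hS (by linarith [dn_nonneg γ])).trans h1
    rw [div_mul_eq_mul_div, div_le_iff₀ hK0] at h3
    rw [zero_add, pow_one, pow_one, Nat.cast_one, one_mul, one_mul, le_div_iff₀ hX0]
    nlinarith
  | succ d ih =>
    obtain ⟨C, hC1, hC⟩ := ih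
    set A : ℕ := (1024 * (d + 2) * C ^ 2 * 16 ^ C) with hA
    refine ⟨A ^ (d + 2) + (4 * C + 2) * (d + 2), by
      have : 0 < A := by positivity
      have : 0 < A ^ (d + 2) := by positivity
      omega, ?_⟩
    intro γ g hg X K hX hK n hn hS
    have hX0 : 0 < X := by linarith
    have hK0 : 0 < K := by linarith
    set D : ℝ := C * (4 * K ^ 2) ^ C with hD
    have hCR : (1 : ℝ) ≤ C := by exact_mod_cast hC1
    have hK2 : 1 ≤ 4 * K ^ 2 := by nlinarith
    have hD1 : 1 ≤ D := by
      rw [hD]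
      have : (1 : ℝ) ≤ (4 * K ^ 2) ^ C := one_le_pow₀ hK2
      nlinarith
    set K1 : ℝ := 4 * K ^ 2 * D with hK1
    have hK11 : 1 ≤ K1 := by
      rw [hK1]
      nlinarith
    set E : ℝ := 256 * (d + 2) * K1 * D with hE
    have hd0 : (0 : ℝ) ≤ d := Nat.cast_nonneg d
    have hE1 : 1 ≤ E := by
      rw [hE]
      have : 1 ≤ K1 * D := by nlinarith
      nlinarith
    have hEA : E ^ (d + 2) ≤ ((A ^ (d + 2) + (4 * C + 2) * (d + 2) : ℕ) : ℝ)
        * K ^ (A ^ (d + 2) + (4 * C + 2) * (d + 2)) := by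
      have h1 : E = A * K ^ (4 * C + 2) := by
        rw [hE, hK1, hD, hA, mul_pow]
        have e1 : ((4 : ℝ) ^ C) ^ 2 = 16 ^ C := by
          rw [← pow_mul, mul_comm, pow_mul]
          norm_num
        push_cast
        rw [← e1]
        ring
      have h2 : E ^ (d + 2) = ((A ^ (d + 2) : ℕ) : ℝ) * K ^ ((4 * C + 2) * (d + 2)) := by
        rw [h1, mul_pow, ← pow_mul]
        push_cast
        ring
      rw [h2]
      exact pow_bd _ _ _ K hK (by omega) (by omega)
    have hEE : E ≤ E ^ (d + 2) := le_self_pow₀ hE1 (by omega)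
    have hXp : 0 < X ^ (d + 1 + 1) := by positivity
    -- it is enough to have the bounds with E
    suffices hsuff : ∃ q : ℕ, 1 ≤ q ∧ (q : ℝ) ≤ E ^ (d + 2) ∧
        dn (q * γ) ≤ E ^ (d + 2) / X ^ (d + 1 + 1) by
      obtain ⟨q, h1, h2, h3⟩ := hsuff
      exact ⟨q, h1, h2.trans hEA, h3.trans (div_le_div_of_nonneg_right hEA hXp.le)⟩
    by_cases hXE : X < E
    · refine ⟨1, le_refl _, ?_, ?_⟩
      · push_cast
        linarith
      · refine (dn_le_half _).trans ?_
        rw [le_div_iff₀ hXp]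
        have : X ^ (d + 1 + 1) ≤ E ^ (d + 1 + 1) := pow_le_pow_left₀ hX0.le hXE.le _
        have h5 : 0 < X ^ (d + 1 + 1) := hXp
        have h6 : E ^ (d + 1 + 1) = E ^ (d + 2) := rfl
        linarith
    push Not at hXE
    -- the differences with large sums
    set S : ℕ → ℂ := fun h => ∑ j ∈ range (n - h), ee (g (j + h) - g j) with hSdef
    have hdiff := diff_ineq (fun i => ee (g i)) n
    have e1 : ∀ h j : ℕ, ee (g (j + h)) * (starRingEnd ℂ) (ee (g j)) = ee (g (j + h) - g j) := by
      intro h j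
      rw [conj_ee, ← ee_add]
      rfl
    simp only [e1] at hdiff
    have hSn : ∀ h ∈ range n, ‖S h‖ ≤ X := by
      intro h _
      calc ‖S h‖ ≤ ∑ j ∈ range (n - h), ‖ee (g (j + h) - g j)‖ := norm_sum_le _ _
        _ = ((n - h : ℕ) : ℝ) := by simp [norm_ee]
        _ ≤ n := by exact_mod_cast Nat.sub_le n h
        _ ≤ X := hn
    set G := (range n).filter (fun h => X / (4 * K ^ 2) ≤ ‖S h‖) with hG
    have hGcard : X / (4 * K ^ 2) ≤ (G.card : ℝ) := by
      have h1 : ∑ h ∈ range n, ‖S h‖ ≤ G.card * X + n * (X / (4 * K ^ 2)) := by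
        calc ∑ h ∈ range n, ‖S h‖ ≤ ∑ h ∈ range n, ((if X / (4 * K ^ 2) ≤ ‖S h‖ then X else 0)
              + X / (4 * K ^ 2)) := by
              refine sum_le_sum fun h hh => ?_
              have h0 : 0 ≤ X / (4 * K ^ 2) := by positivity
              split_ifs with hc
              · linarith [hSn h hh]
              · push Not at hc
                linarith
          _ = G.card * X + n * (X / (4 * K ^ 2)) := by
              rw [sum_add_distrib, ← sum_filter, sum_const, sum_const, card_range, nsmul_eq_mul,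
                nsmul_eq_mul]
      have h2 : (X / K) ^ 2 ≤ 2 * (G.card * X + X * (X / (4 * K ^ 2))) := by
        have h3 : (X / K) ^ 2 ≤ ‖∑ i ∈ range n, ee (g i)‖ ^ 2 :=
          pow_le_pow_left₀ (by positivity) hS 2
        have h4 : (n : ℝ) * (X / (4 * K ^ 2)) ≤ X * (X / (4 * K ^ 2)) :=
          mul_le_mul_of_nonneg_right hn (by positivity)
        linarith
      have h5 : (X / K) ^ 2 = 4 * (X * (X / (4 * K ^ 2))) := by
        field_simp
      rw [h5] at h2
      have h6 : X * (X / (4 * K ^ 2)) ≤ X * (G.card : ℝ) := by linarith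
      exact le_of_mul_le_mul_left h6 hX0
    -- denominators
    have hq : ∀ h ∈ G, ∃ q : ℕ, 1 ≤ q ∧ (q : ℝ) ≤ D ∧
        dn (q * ((d + 2) * γ * h)) ≤ D / X ^ (d + 1) := by
      intro h hh
      rw [hG, mem_filter] at hh
      refine hC _ _ (hg h) X (4 * K ^ 2) hX hK2 (n - h) ?_ hh.2
      calc ((n - h : ℕ) : ℝ) ≤ n := by exact_mod_cast Nat.sub_le n h
        _ ≤ X := hn
    choose! q hq1 hq2 hq3 using hq
    have hmaps : ∀ h ∈ G, q h ∈ Icc 1 ⌊D⌋₊ := by
      intro h hh
      rw [mem_Icc]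
      exact ⟨hq1 h hh, Nat.le_floor (hq2 h hh)⟩
    have hflD : 1 ≤ ⌊D⌋₊ := Nat.le_floor (by push_cast; exact hD1)
    have hpig : ((Icc 1 ⌊D⌋₊).card) • (X / (4 * K ^ 2) / D) ≤ (G.card : ℝ) := by
      rw [Nat.card_Icc, nsmul_eq_mul]
      refine le_trans ?_ hGcard
      have h1 : ((⌊D⌋₊ + 1 - 1 : ℕ) : ℝ) ≤ D := by
        rw [Nat.add_sub_cancel]
        exact Nat.floor_le (by linarith)
      calc ((⌊D⌋₊ + 1 - 1 : ℕ) : ℝ) * (X / (4 * K ^ 2) / D) ≤ D * (X / (4 * K ^ 2) / D) :=
            mul_le_mul_of_nonneg_right h1 (by positivity)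
        _ = X / (4 * K ^ 2) := by field_simp
    obtain ⟨q0, hq0m, hq0⟩ := exists_le_card_fiber_of_nsmul_le_card_of_maps_to hmaps
      ⟨1, mem_Icc.mpr ⟨le_refl _, hflD⟩⟩ hpig
    rw [mem_Icc] at hq0m
    have hq0D : (q0 : ℝ) ≤ D := le_trans (by exact_mod_cast hq0m.2) (Nat.floor_le (by linarith))
    set δ : ℝ := D / X ^ (d + 1) with hδ
    have hδ0 : 0 ≤ δ := by positivity
    have hδX : δ ≤ D / X := by
      rw [hδ]
      refine div_le_div_of_nonneg_left (by linarith) hX0 ?_
      exact le_self_pow₀ hX (by omega)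
    have hEX : 256 * (K1 * D) ≤ X := by
      refine le_trans ?_ hXE
      rw [hE]
      have : 0 ≤ K1 * D := by nlinarith
      nlinarith
    obtain ⟨q', hq'1, hq'2, hq'3⟩ := many_close (G.filter (fun h => q h = q0)) n X K1
      (q0 * ((d + 2) * γ)) δ hK11 (by nlinarith) hδ0 (by
        have h1 : K1 * δ ≤ K1 * (D / X) := mul_le_mul_of_nonneg_left hδX (by linarith)
        have h2 : 256 * (K1 * (D / X)) ≤ 1 := by
          rw [mul_div_assoc', mul_div_assoc', div_le_one hX0]
          exact hEX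
        linarith) hn (by
        intro h hh
        rw [mem_filter, hG, mem_filter] at hh
        exact hh.1.1) (by
        have : X / K1 = X / (4 * K ^ 2) / D := by
          rw [hK1]
          field_simp
        rw [this]
        exact hq0) (by
        intro h hh
        rw [mem_filter] at hh
        have h1 := hq3 h hh.1
        rw [hh.2] at h1
        have h2 : (q0 : ℝ) * ((d + 2) * γ * h) = h * (q0 * ((d + 2) * γ)) := by ring
        rw [h2] at h1
        exact h1)
    refine ⟨q' * q0 * (d + 2), ?_, ?_, ?_⟩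
    · have : 0 < q' * q0 * (d + 2) := by
        have := hq0m.1
        positivity
      omega
    · refine le_trans ?_ hEE
      push_cast
      have h1 : (q' : ℝ) * q0 ≤ 2 * K1 * D := mul_le_mul hq'2 hq0D (Nat.cast_nonneg _) (by linarith)
      have h2 : (q' : ℝ) * q0 * (d + 2) ≤ 2 * K1 * D * (d + 2) :=
        mul_le_mul_of_nonneg_right h1 (by linarith)
      refine h2.trans ?_
      rw [hE]
      have : 0 ≤ K1 * D * (d + 2) := by positivity
      nlinarith
    · have e3 : (((q' * q0 * (d + 2) : ℕ)) : ℝ) * γ = q' * (q0 * ((d + 2) * γ)) := by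
        push_cast
        ring
      rw [e3]
      refine hq'3.trans ?_
      have e4 : 16 * (K1 * δ) / X = 16 * (K1 * D) / X ^ (d + 1 + 1) := by
        rw [hδ]
        field_simp
        ring
      rw [e4]
      refine div_le_div_of_nonneg_right (le_trans ?_ hEE) hXp.le
      rw [hE]
      have : 0 ≤ K1 * D := by positivity
      nlinarith

end Pool.Agent.V7H89.GP
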