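import Pool.Agent.V7H89.GP.WeylB

/-!
The second coefficient of a large Weyl sum.
-/

namespace Pool.Agent.V7H89.GP

open Finset

theorem shift_sum (u : ℕ → ℂ) (hu : ∀ i, ‖u i‖ ≤ 1) (n t : ℕ) :
    ‖∑ i ∈ range n, u (i + t) - ∑ i ∈ range n, u i‖ ≤ 2 * t := by
  have h1 : ∑ i ∈ range n, u (i + t) - ∑ i ∈ range n, u i
      = ∑ i ∈ range t, u (n + i) - ∑ i ∈ range t, u i := by
    have e1 : ∑ i ∈ range (t + n), u i = ∑ i ∈ range t, u i + ∑ i ∈ range n, u (t + i) :=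
      sum_range_add u t n
    have e2 : ∑ i ∈ range (n + t), u i = ∑ i ∈ range n, u i + ∑ i ∈ range t, u (n + i) :=
      sum_range_add u n t
    rw [add_comm t n] at e1
    have e3 : ∑ i ∈ range n, u (i + t) = ∑ i ∈ range n, u (t + i) :=
      sum_congr rfl fun i _ => by rw [add_comm]
    rw [e3]
    have := e1.symm.trans e2
    linear_combination this
  rw [h1]
  have h2 : ∀ v : ℕ → ℂ, (∀ i, ‖v i‖ ≤ 1) → ‖∑ i ∈ range t, v i‖ ≤ t := by
    intro v hv
    calc ‖∑ i ∈ range t, v i‖ ≤ ∑ i ∈ range t, ‖v i‖ := norm_sum_le _ _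
      _ ≤ ∑ i ∈ range t, 1 := sum_le_sum fun i _ => hv i
      _ = t := by simp
  calc ‖∑ i ∈ range t, u (n + i) - ∑ i ∈ range t, u i‖
      ≤ ‖∑ i ∈ range t, u (n + i)‖ + ‖∑ i ∈ range t, u i‖ := norm_sub_le _ _
    _ ≤ t + t := add_le_add (h2 _ fun i => hu _) (h2 _ hu)
    _ = 2 * t := by ring

/-- a long sum has a start with a large sum over an arithmetic progression -/
theorem exists_prog (u : ℕ → ℂ) (hu : ∀ i, ‖u i‖ ≤ 1) (n q L : ℕ) (X K : ℝ) (hX : 0 < X)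
    (hK : 0 < K) (hn : (n : ℝ) ≤ X) (hL : 1 ≤ L) (hqL : 8 * K * (q * L) ≤ X)
    (hS : X / K ≤ ‖∑ i ∈ range n, u i‖) :
    ∃ i < n, 3 / 4 * (L / K) ≤ ‖∑ m ∈ range L, u (i + q * m)‖ := by
  by_contra hcon
  push Not at hcon
  have hL0 : (0 : ℝ) < L := by exact_mod_cast hL
  have h1 : (L : ℝ) * ‖∑ i ∈ range n, u i‖ ≤
      ∑ i ∈ range n, ‖∑ m ∈ range L, u (i + q * m)‖ + 2 * q * L * L := by
    have e1 : ((L : ℂ)) * ∑ i ∈ range n, u i = ∑ i ∈ range n, ∑ m ∈ range L, u (i + q * m)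
        - ∑ m ∈ range L, (∑ i ∈ range n, u (i + q * m) - ∑ i ∈ range n, u i) := by
      rw [sum_sub_distrib, sum_const, card_range, nsmul_eq_mul, sum_comm]
      ring
    have e2 : (L : ℝ) * ‖∑ i ∈ range n, u i‖ = ‖((L : ℂ)) * ∑ i ∈ range n, u i‖ := by
      rw [norm_mul, Complex.norm_natCast]
    rw [e2, e1]
    refine (norm_sub_le _ _).trans (add_le_add (norm_sum_le _ _) ?_)
    calc ‖∑ m ∈ range L, (∑ i ∈ range n, u (i + q * m) - ∑ i ∈ range n, u i)‖
        ≤ ∑ m ∈ range L, ‖∑ i ∈ range n, u (i + q * m) - ∑ i ∈ range n, u i‖ := norm_sum_le _ _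
      _ ≤ ∑ m ∈ range L, (2 * q * L : ℝ) := by
          refine sum_le_sum fun m hm => ?_
          refine (shift_sum u hu n (q * m)).trans ?_
          have : ((q * m : ℕ) : ℝ) ≤ q * L := by
            have : (m : ℝ) ≤ L := by exact_mod_cast (mem_range.mp hm).le
            push_cast
            exact mul_le_mul_of_nonneg_left this (Nat.cast_nonneg q)
          nlinarith
      _ = 2 * q * L * L := by
          rw [sum_const, card_range, nsmul_eq_mul]
          ring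
  rcases Nat.eq_zero_or_pos n with hn0 | hn0
  · subst hn0
    rw [sum_range_zero, norm_zero] at hS
    have : 0 < X / K := by positivity
    linarith
  have h2 : ∑ i ∈ range n, ‖∑ m ∈ range L, u (i + q * m)‖ ≤ X * (3 / 4 * (L / K)) := by
    calc ∑ i ∈ range n, ‖∑ m ∈ range L, u (i + q * m)‖ ≤ ∑ i ∈ range n, (3 / 4 * (L / K)) :=
          sum_le_sum fun i hi => (hcon i (mem_range.mp hi)).le
      _ = n * (3 / 4 * (L / K)) := by rw [sum_const, card_range, nsmul_eq_mul]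
      _ ≤ X * (3 / 4 * (L / K)) := mul_le_mul_of_nonneg_right hn (by positivity)
  have h2' : ∑ i ∈ range n, ‖∑ m ∈ range L, u (i + q * m)‖ < n * (3 / 4 * (L / K)) := by
    have : ∑ i ∈ range n, (3 / 4 * (L / K) : ℝ) = n * (3 / 4 * (L / K)) := by
      rw [sum_const, card_range, nsmul_eq_mul]
    rw [← this]
    exact sum_lt_sum_of_nonempty ⟨0, mem_range.mpr hn0⟩ fun i hi => hcon i (mem_range.mp hi)
  have h3 : (L : ℝ) * (X / K) ≤ L * ‖∑ i ∈ range n, u i‖ :=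
    mul_le_mul_of_nonneg_left hS hL0.le
  have h4 : 2 * (q : ℝ) * L * L ≤ 1 / 4 * (X * (L / K)) := by
    have : 8 * K * (q * L) * L ≤ X * L := mul_le_mul_of_nonneg_right hqL hL0.le
    have e : 1 / 4 * (X * (L / K)) = X * L / (4 * K) := by
      field_simp
    rw [e, le_div_iff₀ (by positivity)]
    nlinarith
  have h5 : (n : ℝ) * (3 / 4 * (L / K)) ≤ X * (3 / 4 * (L / K)) :=
    mul_le_mul_of_nonneg_right hn (by positivity)
  have h6 : (L : ℝ) * (X / K) = X * (L / K) := by ring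
  rw [h6] at h3
  linarith

/-- powers along a progression -/
theorem pow_prog (a x k : ℕ) : ∃ z : ℕ, (a + x) ^ k = a ^ k + x * z ∧
    ∀ X : ℝ, (a : ℝ) ≤ X → (x : ℝ) ≤ X → (z : ℝ) ≤ k * (2 * X) ^ (k - 1) := by
  refine ⟨∑ i ∈ range k, (a + x) ^ i * a ^ (k - 1 - i), ?_, ?_⟩
  · have h := (Commute.all ((a + x : ℕ) : ℤ) (a : ℤ)).geom_sum₂_mul k
    have : (((a + x) ^ k : ℕ) : ℤ) = ((a ^ k + x * ∑ i ∈ range k, (a + x) ^ i * a ^ (k - 1 - i) : ℕ) : ℤ) := by
      push_cast at h ⊢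
      linarith
    exact_mod_cast this
  · intro X ha hx
    push_cast
    have hX : 0 ≤ X := le_trans (Nat.cast_nonneg a) ha
    calc ∑ i ∈ range k, ((a : ℝ) + x) ^ i * (a : ℝ) ^ (k - 1 - i)
        ≤ ∑ i ∈ range k, (2 * X) ^ (k - 1) := by
          refine sum_le_sum fun i hi => ?_
          have h1 : ((a : ℝ) + x) ^ i ≤ (2 * X) ^ i := pow_le_pow_left₀ (by positivity) (by linarith) _
          have h2 : (a : ℝ) ^ (k - 1 - i) ≤ (2 * X) ^ (k - 1 - i) :=
            pow_le_pow_left₀ (Nat.cast_nonneg _) (by linarith) _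
          calc ((a : ℝ) + x) ^ i * (a : ℝ) ^ (k - 1 - i) ≤ (2 * X) ^ i * (2 * X) ^ (k - 1 - i) :=
                mul_le_mul h1 h2 (by positivity) (by positivity)
            _ = (2 * X) ^ (k - 1) := by
                rw [← pow_add]
                congr 1
                have := mem_range.mp hi
                omega
      _ = k * (2 * X) ^ (k - 1) := by rw [sum_const, card_range, nsmul_eq_mul]

/-- the two top coefficients -/
theorem two_coeff (d : ℕ) : ∃ C : ℕ, 1 ≤ C ∧ ∀ (β lam : ℝ) (l : ℕ → ℝ), PL d lam l →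
    PL (d + 1) β (fun n => β * (n : ℝ) ^ (d + 2) + l n) →
    ∀ X K : ℝ, 1 ≤ X → 1 ≤ K → ∀ a n : ℕ, ((a + n : ℕ) : ℝ) ≤ X →
      X / K ≤ ‖∑ i ∈ range n, ee (β * ((a + i : ℕ) : ℝ) ^ (d + 2) + l (a + i))‖ →
      ∃ Q : ℕ, 1 ≤ Q ∧ (Q : ℝ) ≤ C * K ^ C ∧ dn (Q * β) ≤ C * K ^ C / X ^ (d + 2) ∧
        dn (Q * lam) ≤ C * K ^ C / X := by
  obtain ⟨C1, hC11, hC1⟩ := weyl (d + 1)
  obtain ⟨C2, hC21, hC2⟩ := weyl d
  set A : ℕ := 64 * (d + 2) * 2 ^ (d + 2) * C1 ^ (d + 3) * C2 * 2 ^ C2 with hA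
  set B : ℕ := 1 + C1 * (d + 3) + C2 with hB
  refine ⟨A ^ (d + 2) + B * (d + 2), by
    have : 0 < A := by positivity
    have : 0 < A ^ (d + 2) := by positivity
    omega, ?_⟩
  intro β lam l hl hg X K hX hK a n hn hS
  have hX0 : 0 < X := by linarith
  have hK0 : 0 < K := by linarith
  have hd0 : (0 : ℝ) ≤ d := Nat.cast_nonneg d
  set D : ℝ := C1 * K ^ C1 with hD
  set D2 : ℝ := C2 * (2 * K) ^ C2 with hD2
  have hD1 : 1 ≤ D := by
    have h1 : (1 : ℝ) ≤ C1 := by exact_mod_cast hC11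
    have h2 : (1 : ℝ) ≤ K ^ C1 := one_le_pow₀ hK
    rw [hD]
    nlinarith
  have hD21 : 1 ≤ D2 := by
    have h1 : (1 : ℝ) ≤ C2 := by exact_mod_cast hC21
    have h2 : (1 : ℝ) ≤ (2 * K) ^ C2 := one_le_pow₀ (by linarith)
    rw [hD2]
    nlinarith
  set E : ℝ := 64 * (d + 2) * 2 ^ (d + 2) * K * D ^ (d + 3) * D2 with hE
  have hEA : E ^ (d + 2) ≤ ((A ^ (d + 2) + B * (d + 2) : ℕ) : ℝ)
      * K ^ (A ^ (d + 2) + B * (d + 2)) := by
    have h1 : E = A * K ^ B := by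
      rw [hE, hD, hD2, hA, hB, mul_pow, mul_pow, ← pow_mul, pow_add, pow_add]
      push_cast
      ring
    have h2 : E ^ (d + 2) = ((A ^ (d + 2) : ℕ) : ℝ) * K ^ (B * (d + 2)) := by
      rw [h1, mul_pow, ← pow_mul]
      push_cast
      ring
    rw [h2]
    exact pow_bd _ _ _ K hK (by omega) (by omega)
  have h2d : (1 : ℝ) ≤ 2 ^ (d + 2) := one_le_pow₀ (by norm_num)
  have hDp : (1 : ℝ) ≤ D ^ (d + 3) := one_le_pow₀ hD1
  have hc0 : (64 : ℝ) ≤ 64 * (d + 2) * 2 ^ (d + 2) := by nlinarith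
  have hE0 : D ^ (d + 3) * D2 ≤ E := by
    rw [hE]
    have h3 : 0 < D ^ (d + 3) * D2 := by positivity
    have h4 : (1 : ℝ) ≤ 64 * (d + 2) * 2 ^ (d + 2) * K := by nlinarith
    calc D ^ (d + 3) * D2 = 1 * (D ^ (d + 3) * D2) := by ring
      _ ≤ (64 * (d + 2) * 2 ^ (d + 2) * K) * (D ^ (d + 3) * D2) :=
        mul_le_mul_of_nonneg_right h4 h3.le
      _ = _ := by ring
  have hE1 : 1 ≤ E := by
    have : 1 ≤ D ^ (d + 3) * D2 := by nlinarith
    linarith
  have hEE : E ≤ E ^ (d + 2) := le_self_pow₀ hE1 (by omega)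
  have hXp : 0 < X ^ (d + 2) := by positivity
  suffices hsuff : ∃ Q : ℕ, 1 ≤ Q ∧ (Q : ℝ) ≤ E ^ (d + 2) ∧ dn (Q * β) ≤ E ^ (d + 2) / X ^ (d + 2) ∧
      dn (Q * lam) ≤ E ^ (d + 2) / X by
    obtain ⟨Q, h1, h2, h3, h4⟩ := hsuff
    exact ⟨Q, h1, h2.trans hEA, h3.trans (div_le_div_of_nonneg_right hEA hXp.le),
      h4.trans (div_le_div_of_nonneg_right hEA hX0.le)⟩
  by_cases hXE : X < E
  · refine ⟨1, le_refl _, ?_, ?_, ?_⟩
    · push_cast
      linarith
    · refine (dn_le_half _).trans ?_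
      rw [le_div_iff₀ hXp]
      have : X ^ (d + 2) ≤ E ^ (d + 2) := pow_le_pow_left₀ hX0.le hXE.le _
      linarith
    · refine (dn_le_half _).trans ?_
      rw [le_div_iff₀ hX0]
      linarith
  push Not at hXE
  -- the top coefficient
  obtain ⟨q, hq1, hq2, hq3⟩ := hC1 β (fun m => β * ((a + 1 * m : ℕ) : ℝ) ^ (d + 2) + l (a + 1 * m))
    (by
      have := PL_affine (d + 1) β _ hg a 1
      simpa using this) X K hX hK n (by
      refine le_trans ?_ hn
      push_cast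
      linarith [(Nat.cast_nonneg a : (0 : ℝ) ≤ a)]) (by simpa using hS)
  have hq0 : (0 : ℝ) < q := by exact_mod_cast hq1
  -- the length
  set Y : ℝ := X / (32 * (d + 2) * 2 ^ (d + 2) * K * D) with hY
  have hden : 0 < 32 * ((d : ℝ) + 2) * 2 ^ (d + 2) * K * D := by positivity
  have hY2 : 2 ≤ Y := by
    rw [hY, le_div_iff₀ hden]
    refine le_trans ?_ hXE
    rw [hE]
    have h1 : D ≤ D ^ (d + 3) := le_self_pow₀ hD1 (by omega)
    have h2 : D ≤ D ^ (d + 3) * D2 := by nlinarith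
    have h3 : 0 ≤ 64 * ((d : ℝ) + 2) * 2 ^ (d + 2) * K := by positivity
    calc 2 * (32 * ((d : ℝ) + 2) * 2 ^ (d + 2) * K * D)
        = 64 * ((d : ℝ) + 2) * 2 ^ (d + 2) * K * D := by ring
      _ ≤ 64 * ((d : ℝ) + 2) * 2 ^ (d + 2) * K * (D ^ (d + 3) * D2) :=
        mul_le_mul_of_nonneg_left h2 h3
      _ = _ := by ring
  set L : ℕ := ⌊Y⌋₊ with hL
  have hLY : (L : ℝ) ≤ Y := Nat.floor_le (by linarith)
  have hL1 : 1 ≤ L := Nat.le_floor (by push_cast; linarith)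
  have hLY2 : Y / 2 ≤ L := by
    have := Nat.lt_floor_add_one Y
    have : (1 : ℝ) ≤ L := by exact_mod_cast hL1
    linarith
  have hL0 : (0 : ℝ) < L := by exact_mod_cast hL1
  have hLX : 32 * ((d : ℝ) + 2) * 2 ^ (d + 2) * K * D * L ≤ X := by
    rw [hY, le_div_iff₀ hden] at hLY
    linarith
  have hDL : 32 * (K * (D * L)) ≤ X := by
    refine le_trans ?_ hLX
    have h1 : 0 ≤ K * (D * L) := by positivity
    have h2 : (32 : ℝ) ≤ 32 * (d + 2) * 2 ^ (d + 2) := by nlinarith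
    calc 32 * (K * (D * L)) ≤ (32 * (d + 2) * 2 ^ (d + 2)) * (K * (D * L)) :=
          mul_le_mul_of_nonneg_right h2 h1
      _ = _ := by ring
  have hqD : (q : ℝ) ≤ D := hq2
  have hqL : (q : ℝ) * L ≤ D * L := mul_le_mul_of_nonneg_right hqD hL0.le
  have hqLX : (q : ℝ) * L ≤ X := by
    have : D * L ≤ K * (D * L) := by
      have : 0 ≤ D * L := by positivity
      nlinarith
    have h3 : 0 ≤ D * L := by positivity
    nlinarith
  obtain ⟨i, hi, hprog⟩ := exists_prog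
    (fun i => ee (β * ((a + i : ℕ) : ℝ) ^ (d + 2) + l (a + i))) (fun i => (norm_ee _).le) n q L X K hX0
    hK0 (by
      refine le_trans ?_ hn
      push_cast
      linarith [(Nat.cast_nonneg a : (0 : ℝ) ≤ a)]) hL1 (by
      have h3 : K * (q * L) ≤ K * (D * L) := mul_le_mul_of_nonneg_left hqL hK0.le
      have h4 : 0 ≤ K * (D * L) := by positivity
      nlinarith) hS
  set n0 : ℕ := a + i with hn0
  have hn0X : (n0 : ℝ) ≤ X := by
    refine le_trans ?_ hn
    exact_mod_cast (by omega : n0 ≤ a + n)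
  set c : ℤ := round ((q : ℝ) * β) with hc
  set ε : ℝ := q * β - c with hε
  have hεb : |ε| ≤ D / X ^ (d + 2) := hq3
  -- remove the top coefficient
  have hterm : ∀ m ∈ range L, ‖ee (β * ((a + (i + q * m) : ℕ) : ℝ) ^ (d + 2) + l (a + (i + q * m)))
      - ee (β * (n0 : ℝ) ^ (d + 2)) * ee (l (n0 + q * m))‖ ≤ 1 / (4 * K) := by
    intro m hm
    have hmL : (m : ℝ) ≤ L := by exact_mod_cast (mem_range.mp hm).le
    obtain ⟨z, hz1, hz2⟩ := pow_prog n0 (q * m) (d + 2)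
    have e1 : a + (i + q * m) = n0 + q * m := by omega
    rw [e1]
    have hz1R : (((n0 + q * m : ℕ) : ℝ)) ^ (d + 2) = (n0 : ℝ) ^ (d + 2) + (q * m) * z := by
      exact_mod_cast hz1
    have e2 : β * ((n0 + q * m : ℕ) : ℝ) ^ (d + 2) + l (n0 + q * m)
        = (β * (n0 : ℝ) ^ (d + 2) + l (n0 + q * m)) + ε * (m * z) + ((c * (m * z) : ℤ) : ℝ) := by
      rw [hz1R]
      push_cast
      rw [hε]
      ring
    rw [e2, ee_add, ee_int, mul_one, ee_add, ee_add]
    have e3 : ee (β * (n0 : ℝ) ^ (d + 2)) * ee (l (n0 + q * m)) * ee (ε * (m * z))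
        - ee (β * (n0 : ℝ) ^ (d + 2)) * ee (l (n0 + q * m))
        = ee (β * (n0 : ℝ) ^ (d + 2)) * ee (l (n0 + q * m)) * (ee (ε * (m * z)) - 1) := by ring
    rw [e3, norm_mul, norm_mul, norm_ee, norm_ee, one_mul, one_mul]
    refine (ee_sub_one_le _).trans ?_
    have hqmX : ((q * m : ℕ) : ℝ) ≤ X := by
      push_cast
      exact (mul_le_mul_of_nonneg_left hmL hq0.le).trans hqLX
    have hzb := hz2 X hn0X hqmX
    rw [abs_mul, abs_mul, Nat.abs_cast, Nat.abs_cast]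
    have e4 : (d + 2 - 1 : ℕ) = d + 1 := by omega
    rw [e4] at hzb
    push_cast at hzb
    have h5 : |ε| * (m * z) ≤ D / X ^ (d + 2) * (L * ((d + 2) * (2 * X) ^ (d + 1))) := by
      refine mul_le_mul hεb ?_ (by positivity) (by positivity)
      exact mul_le_mul hmL hzb (Nat.cast_nonneg _) hL0.le
    have h6 : D / X ^ (d + 2) * (L * ((d + 2) * (2 * X) ^ (d + 1)))
        = (d + 2) * 2 ^ (d + 2) * D * L / (2 * X) := by
      rw [mul_pow]
      field_simp
      ring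
    rw [h6] at h5
    have h7 : (d + 2) * 2 ^ (d + 2) * D * L / (2 * X) ≤ 1 / (64 * K) := by
      rw [div_le_div_iff₀ (by positivity) (by positivity)]
      nlinarith [hLX]
    have h8 : |ε| * (m * z) ≤ 1 / (64 * K) := h5.trans h7
    have hpi : Real.pi < 4 := by linarith [Real.pi_lt_d2]
    calc 2 * Real.pi * (|ε| * (m * z)) ≤ 2 * Real.pi * (1 / (64 * K)) :=
          mul_le_mul_of_nonneg_left h8 (by positivity)
      _ ≤ 2 * 4 * (1 / (64 * K)) := by
          have : 0 < 1 / (64 * K) := by positivity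
          nlinarith
      _ = 1 / (8 * K) := by field_simp; norm_num
      _ ≤ 1 / (4 * K) := by
          rw [div_le_div_iff₀ (by positivity) (by positivity)]
          linarith
  have hlow : (L : ℝ) / (2 * K) ≤ ‖∑ m ∈ range L, ee (l (n0 + q * m))‖ := by
    have h1 : ‖∑ m ∈ range L, ee (β * ((a + (i + q * m) : ℕ) : ℝ) ^ (d + 2) + l (a + (i + q * m)))
        - ee (β * (n0 : ℝ) ^ (d + 2)) * ∑ m ∈ range L, ee (l (n0 + q * m))‖ ≤ L * (1 / (4 * K)) := by
      rw [mul_sum, ← sum_sub_distrib]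
      calc _ ≤ ∑ m ∈ range L, ‖ee (β * ((a + (i + q * m) : ℕ) : ℝ) ^ (d + 2)
            + l (a + (i + q * m))) - ee (β * (n0 : ℝ) ^ (d + 2)) * ee (l (n0 + q * m))‖ :=
            norm_sum_le _ _
        _ ≤ ∑ m ∈ range L, 1 / (4 * K) := sum_le_sum hterm
        _ = L * (1 / (4 * K)) := by rw [sum_const, card_range, nsmul_eq_mul]
    have h2 : ‖ee (β * (n0 : ℝ) ^ (d + 2)) * ∑ m ∈ range L, ee (l (n0 + q * m))‖
        = ‖∑ m ∈ range L, ee (l (n0 + q * m))‖ := by rw [norm_mul, norm_ee, one_mul]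
    rw [← h2]
    have h3 := norm_sub_norm_le (∑ m ∈ range L, ee (β * ((a + (i + q * m) : ℕ) : ℝ) ^ (d + 2)
      + l (a + (i + q * m)))) (ee (β * (n0 : ℝ) ^ (d + 2)) * ∑ m ∈ range L, ee (l (n0 + q * m)))
    have h4 : (L : ℝ) / (2 * K) = 3 / 4 * (L / K) - L * (1 / (4 * K)) := by
      field_simp
      norm_num
    rw [h4]
    linarith
  obtain ⟨q1, hq11, hq12, hq13⟩ := hC2 (lam * (q : ℝ) ^ (d + 1)) (fun m => l (n0 + q * m))
    (PL_affine d lam l hl n0 q) L (2 * K) (by exact_mod_cast hL1) (by linarith) L (le_refl _) hlow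
  refine ⟨q1 * q ^ (d + 1), ?_, ?_, ?_, ?_⟩
  · have : 0 < q1 * q ^ (d + 1) := by positivity
    omega
  · refine le_trans ?_ hEE
    refine le_trans ?_ hE0
    push_cast
    have h1 : (q : ℝ) ^ (d + 1) ≤ D ^ (d + 1) := pow_le_pow_left₀ hq0.le hqD _
    have h2 : D ^ (d + 1) ≤ D ^ (d + 3) := pow_le_pow_right₀ hD1 (by omega)
    calc (q1 : ℝ) * (q : ℝ) ^ (d + 1) ≤ D2 * D ^ (d + 3) :=
          mul_le_mul hq12 (h1.trans h2) (by positivity) (by linarith)
      _ = D ^ (d + 3) * D2 := by ring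
  · have e1 : ((q1 * q ^ (d + 1) : ℕ) : ℝ) * β = ((q1 * q ^ d : ℕ) : ℝ) * (q * β) := by
      push_cast
      ring
    rw [e1]
    refine (dn_nat_mul _ _).trans ?_
    have h1 : ((q1 * q ^ d : ℕ) : ℝ) ≤ D2 * D ^ d := by
      push_cast
      exact mul_le_mul hq12 (pow_le_pow_left₀ hq0.le hqD _) (by positivity) (by linarith)
    calc ((q1 * q ^ d : ℕ) : ℝ) * dn (q * β) ≤ (D2 * D ^ d) * (D / X ^ (d + 2)) :=
          mul_le_mul h1 hq3 (dn_nonneg _) (by positivity)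
      _ = D ^ (d + 1) * D2 / X ^ (d + 2) := by
          field_simp
          ring
      _ ≤ E ^ (d + 2) / X ^ (d + 2) := by
          refine div_le_div_of_nonneg_right ?_ hXp.le
          refine le_trans ?_ hEE
          refine le_trans ?_ hE0
          exact mul_le_mul_of_nonneg_right (pow_le_pow_right₀ hD1 (by omega)) (by linarith)
  · have e1 : ((q1 * q ^ (d + 1) : ℕ) : ℝ) * lam = q1 * (lam * (q : ℝ) ^ (d + 1)) := by
      push_cast
      ring
    rw [e1]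
    refine hq13.trans ?_
    have h1 : D2 / (L : ℝ) ^ (d + 1) ≤ D2 / L := by
      refine div_le_div_of_nonneg_left (by linarith) hL0 ?_
      exact le_self_pow₀ (by exact_mod_cast hL1) (by omega)
    refine h1.trans ?_
    have h2 : D2 / (L : ℝ) ≤ D2 / (Y / 2) :=
      div_le_div_of_nonneg_left (by linarith) (by linarith) hLY2
    refine h2.trans ?_
    have h3 : D2 / (Y / 2) = 64 * (d + 2) * 2 ^ (d + 2) * K * D * D2 / X := by
      rw [hY]
      field_simp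
      norm_num
    rw [h3]
    refine div_le_div_of_nonneg_right ?_ hX0.le
    refine le_trans ?_ hEE
    rw [hE]
    have h4 : D ≤ D ^ (d + 3) := le_self_pow₀ hD1 (by omega)
    have h5 : 0 ≤ 64 * ((d : ℝ) + 2) * 2 ^ (d + 2) * K := by positivity
    exact mul_le_mul_of_nonneg_right (mul_le_mul_of_nonneg_left h4 h5) (by linarith)

end Pool.Agent.V7H89.GP
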